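import Pool.Agent.Lib.MP_6a1069_gt.Defs2
import Pool.Agent.Lib.MP_6a1069_gt.Lip
import Pool.Agent.Lib.MP_6a1069_gt.Coord

/-!
# MP_6a1069_gt: plane preserving PL homeomorphisms, definitions

`VPc V`    : compactly supported PL homeomorphisms `h` with `h x - x ∈ V` for every `x`,
`GG B`     : PL homeomorphisms of `B × ℝ`, the identity for `‖x‖` large and for `t` small, of the
             form `(x, t) ↦ (k x, t)` with `k ∈ PLc B` for `t` large,
`stopFun h τ (x, t) = (h_{min t (τ x)} x, t)` : `h` stopped at the time `τ x`,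
`TL l τ`   : `τ` is PL and `l`-Lipschitz,
`Adm h l`  : `h` stopped at any `τ` with `TL l τ` is an element of `GG B`,
`Cong M h τ σ` : `h` stopped at `τ` and `h` stopped at `σ` are equal modulo `M`, where `M` is between
             `⁅GG B, GG B⁆` and `GG B`.
-/

namespace PLH

open Set

section glue

variable {E F : Type*} [NormedAddCommGroup E] [NormedSpace ℝ E]
  [NormedAddCommGroup F] [NormedSpace ℝ F]

/-- gluing two PL maps along `g = 0` -/
theorem IsPL.glue {f₁ f₂ : E → F} {g : E → ℝ} (h₁ : IsPL f₁) (h₂ : IsPL f₂) (hg : Continuous g)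
    (h : ∀ x, g x = 0 → f₁ x = f₂ x) : IsPL (fun x => if g x ≤ 0 then f₁ x else f₂ x) := by
  refine ⟨?_, ?_⟩
  · refine Continuous.if_le h₁.continuous h₂.continuous hg continuous_const fun x hx => h x hx
  · obtain ⟨-, S, hS, hS'⟩ := h₁
    obtain ⟨-, T, hT, hT'⟩ := h₂
    refine ⟨S ∪ T, hS.union hT, fun x => ?_⟩
    by_cases hx : g x ≤ 0
    · obtain ⟨a, ha, hax⟩ := hS' x
      exact ⟨a, Or.inl ha, by simp only [hx, if_true]; exact hax⟩
    · obtain ⟨a, ha, hax⟩ := hT' x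
      exact ⟨a, Or.inr ha, by simp only [hx, if_false]; exact hax⟩

end glue

section VP

variable {E : Type*} [NormedAddCommGroup E] [NormedSpace ℝ E]

/-- compactly supported PL homeomorphisms which map every translate of `V` to itself -/
def VPc (V : Submodule ℝ E) : Subgroup (Equiv.Perm E) where
  carrier := {h | h ∈ PLc E ∧ ∀ x, h x - x ∈ V}
  one_mem' := ⟨one_mem _, fun x => by simp⟩
  mul_mem' := by
    rintro f g ⟨hf, hf'⟩ ⟨hg, hg'⟩
    refine ⟨mul_mem hf hg, fun x => ?_⟩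
    have h1 := V.add_mem (hf' (g x)) (hg' x)
    rw [sub_add_sub_cancel] at h1
    exact h1
  inv_mem' := by
    rintro f ⟨hf, hf'⟩
    refine ⟨inv_mem hf, fun x => ?_⟩
    have h1 : f (f⁻¹ x) = x := f.apply_symm_apply x
    have h2 := V.neg_mem (hf' (f⁻¹ x))
    rw [h1, neg_sub] at h2
    exact h2

end VP

section GG

variable (B : Type*) [NormedAddCommGroup B] [NormedSpace ℝ B]

/-- PL homeomorphisms of `B × ℝ` with support in `‖x‖ ≤ R`, `t ≥ -R`, of product form for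
`t ≥ R` -/
def GG : Subgroup (Equiv.Perm (B × ℝ)) where
  carrier := {h | IsPL (h : B × ℝ → B × ℝ) ∧ IsPL (⇑h⁻¹ : B × ℝ → B × ℝ) ∧
    ∃ R : ℝ, (∀ x, R < ‖x.1‖ → h x = x) ∧ (∀ x, x.2 < -R → h x = x) ∧
      ∃ k ∈ PLc B, ∀ x t, R ≤ t → h (x, t) = (k x, t)}
  one_mem' := ⟨IsPL.id, IsPL.id, 0, fun _ _ => rfl, fun _ _ => rfl, 1, one_mem _, fun _ _ _ => rfl⟩
  mul_mem' := by
    rintro f g ⟨hf, hf', R, h1, h2, k, hk, h3⟩ ⟨hg, hg', S, g1, g2, j, hj, g3⟩
    refine ⟨hf.comp hg, ?_, Max.max R S, fun x hx => ?_, fun x hx => ?_, k * j, mul_mem hk hj,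
      fun x t ht => ?_⟩
    · rw [mul_inv_rev]; exact hg'.comp hf'
    · show f (g x) = x
      rw [g1 x ((le_max_right _ _).trans_lt hx), h1 x ((le_max_left _ _).trans_lt hx)]
    · show f (g x) = x
      have e1 : x.2 < -S := hx.trans_le (neg_le_neg (le_max_right _ _))
      have e2 : x.2 < -R := hx.trans_le (neg_le_neg (le_max_left _ _))
      rw [g2 x e1, h2 x e2]
    · show f (g (x, t)) = _
      rw [g3 x t ((le_max_right _ _).trans ht), h3 _ t ((le_max_left _ _).trans ht)]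
      rfl
  inv_mem' := by
    rintro f ⟨hf, hf', R, h1, h2, k, hk, h3⟩
    refine ⟨hf', by rw [inv_inv]; exact hf, R, fun x hx => ?_, fun x hx => ?_, k⁻¹, inv_mem hk,
      fun x t ht => ?_⟩
    · rw [Equiv.Perm.inv_eq_iff_eq]; exact (h1 x hx).symm
    · rw [Equiv.Perm.inv_eq_iff_eq]; exact (h2 x hx).symm
    · rw [Equiv.Perm.inv_eq_iff_eq, h3 _ t ht]
      exact Prod.ext (k.apply_symm_apply x).symm rfl

variable {B}

/-- `h` stopped at the time `τ x` -/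
def stopFun (h : B × ℝ → B × ℝ) (τ : B → ℝ) (x : B × ℝ) : B × ℝ :=
  ((h (x.1, min x.2 (τ x.1))).1, x.2)

/-- PL and `l`-Lipschitz -/
def TL (l : ℝ) (τ : B → ℝ) : Prop := IsPL τ ∧ ∀ x y, |τ x - τ y| ≤ l * ‖x - y‖

theorem TL.min {l : ℝ} {τ σ : B → ℝ} (hτ : TL l τ) (hσ : TL l σ) :
    TL l (fun x => Min.min (τ x) (σ x)) := by
  refine ⟨hτ.1.min hσ.1, fun x y => ?_⟩
  refine (abs_min_sub_min_le_max _ _ _ _).trans (max_le (hτ.2 x y) (hσ.2 x y))

theorem TL.max {l : ℝ} {τ σ : B → ℝ} (hτ : TL l τ) (hσ : TL l σ) :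
    TL l (fun x => Max.max (τ x) (σ x)) := by
  refine ⟨hτ.1.max hσ.1, fun x y => ?_⟩
  refine (abs_max_sub_max_le_max _ _ _ _).trans (max_le (hτ.2 x y) (hσ.2 x y))

theorem TL.const {l : ℝ} (hl : 0 ≤ l) (r : ℝ) : TL l (fun _ : B => r) :=
  ⟨IsPL.const r, fun x y => by simp only [sub_self, abs_zero]; positivity⟩

theorem TL.mono {l l' : ℝ} (hl : l ≤ l') {τ : B → ℝ} (hτ : TL l τ) : TL l' τ :=
  ⟨hτ.1, fun x y => (hτ.2 x y).trans (mul_le_mul_of_nonneg_right hl (norm_nonneg _))⟩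

/-- `h` stopped at any PL `l`-Lipschitz function is an element of `GG B` -/
def Adm (h : B × ℝ → B × ℝ) (l : ℝ) : Prop :=
  ∀ τ : B → ℝ, TL l τ → ∃ E ∈ GG B, ∀ x, E x = stopFun h τ x

theorem Adm.mono {h : B × ℝ → B × ℝ} {l l' : ℝ} (hl : l ≤ l') (H : Adm h l') : Adm h l :=
  fun τ hτ => H τ (hτ.mono hl)

/-- equal modulo `M` (for `M = ⁅GG B, GG B⁆` or larger) -/
def Cong (M : Subgroup (Equiv.Perm (B × ℝ))) (h : B × ℝ → B × ℝ) (τ σ : B → ℝ) : Prop :=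
  ∃ E ∈ GG B, ∃ F ∈ GG B, (∀ x, E x = stopFun h τ x) ∧ (∀ x, F x = stopFun h σ x) ∧
    E * F⁻¹ ∈ M

theorem comm_le_self {G : Type*} [Group G] (K : Subgroup G) : ⁅K, K⁆ ≤ K := by
  rw [Subgroup.commutator_le]
  intro a ha b hb
  exact mul_mem (mul_mem (mul_mem ha hb) (inv_mem ha)) (inv_mem hb)

theorem conj_mem_comm {G : Type*} [Group G] {K M : Subgroup G} (hM : ⁅K, K⁆ ≤ M) (hM' : M ≤ K)
    {h c : G} (hh : h ∈ K) (hc : c ∈ M) : h * c * h⁻¹ ∈ M := by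
  have h1 : h * c * h⁻¹ * c⁻¹ ∈ ⁅K, K⁆ :=
    Subgroup.commutator_mem_commutator hh (hM' hc)
  have h2 : h * c * h⁻¹ = h * c * h⁻¹ * c⁻¹ * c := by group
  rw [h2]
  exact mul_mem (hM h1) hc

theorem Cong.symm {M : Subgroup (Equiv.Perm (B × ℝ))} {h : B × ℝ → B × ℝ} {τ σ : B → ℝ}
    (H : Cong M h τ σ) : Cong M h σ τ := by
  obtain ⟨E, hE, F, hF, h1, h2, h3⟩ := H
  refine ⟨F, hF, E, hE, h2, h1, ?_⟩
  have := inv_mem h3
  rwa [mul_inv_rev, inv_inv] at this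

theorem Cong.trans {M : Subgroup (Equiv.Perm (B × ℝ))} {h : B × ℝ → B × ℝ} {τ σ ρ : B → ℝ}
    (H : Cong M h τ σ) (H' : Cong M h σ ρ) : Cong M h τ ρ := by
  obtain ⟨E, hE, F, hF, h1, h2, h3⟩ := H
  obtain ⟨F', hF', G, hG, h1', h2', h3'⟩ := H'
  have e : F' = F := Equiv.ext fun x => by rw [h1', h2]
  subst e
  refine ⟨E, hE, G, hG, h1, h2', ?_⟩
  have := mul_mem h3 h3'
  rwa [show E * F'⁻¹ * (F' * G⁻¹) = E * G⁻¹ by group] at this

theorem Cong.of_eq {M : Subgroup (Equiv.Perm (B × ℝ))} {h : B × ℝ → B × ℝ} {l : ℝ}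
    (H : Adm h l) {τ σ : B → ℝ} (hτ : TL l τ)
    (he : ∀ x, stopFun h τ x = stopFun h σ x) : Cong M h τ σ := by
  obtain ⟨E, hE, h1⟩ := H τ hτ
  refine ⟨E, hE, E, hE, h1, fun x => by rw [h1, he], ?_⟩
  rw [mul_inv_cancel]
  exact one_mem _

theorem Cong.refl {M : Subgroup (Equiv.Perm (B × ℝ))} {h : B × ℝ → B × ℝ} {l : ℝ}
    (H : Adm h l) {τ : B → ℝ} (hτ : TL l τ) : Cong M h τ τ := Cong.of_eq H hτ fun _ => rfl

/-- if `F = A * E * C` with `A`, `C` in `M`, then `E` and `F` are congruent -/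
theorem Cong.mk' {M : Subgroup (Equiv.Perm (B × ℝ))} (hM : ⁅GG B, GG B⁆ ≤ M) (hM' : M ≤ GG B)
    {h : B × ℝ → B × ℝ} {τ σ : B → ℝ} {E F A C : Equiv.Perm (B × ℝ)}
    (hE : E ∈ GG B) (h1 : ∀ x, E x = stopFun h τ x) (h2 : ∀ x, F x = stopFun h σ x)
    (hA : A ∈ M) (hC : C ∈ M) (he : F = A * E * C) : Cong M h τ σ := by
  have hF : F ∈ GG B := by
    rw [he]
    exact mul_mem (mul_mem (hM' hA) hE) (hM' hC)
  refine ⟨E, hE, F, hF, h1, h2, ?_⟩
  have e : E * F⁻¹ = (E * C⁻¹ * E⁻¹) * A⁻¹ := by rw [he]; group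
  rw [e]
  exact mul_mem (conj_mem_comm hM hM' hE (inv_mem hC)) (inv_mem hA)

/-- `h` is invariant under translations by multiples of `(u, 1)` along segments in `W` -/
def Inv (h : B × ℝ → B × ℝ) (W : Set (B × ℝ)) (u u' : B) : Prop :=
  ∀ (z : B × ℝ) (s : ℝ), 0 ≤ s → (∀ s' ∈ Icc 0 s, z + s' • ((u, 1) : B × ℝ) ∈ W) →
    h (z + s • ((u, 1) : B × ℝ)) = h z + s • ((u', 1) : B × ℝ)

/-- good sets: `h` is the identity, or invariant under translations -/
def Good (h : B × ℝ → B × ℝ) (l : ℝ) (W : Set (B × ℝ)) : Prop :=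
  (∀ x ∈ W, h x = x) ∨ ∃ u u' : B, l * ‖u‖ < 1 ∧ Inv h W u u'

theorem Good.mono {h : B × ℝ → B × ℝ} {l : ℝ} {W W' : Set (B × ℝ)} (hW : W' ⊆ W)
    (H : Good h l W) : Good h l W' := by
  rcases H with H | ⟨u, u', hu, H⟩
  · exact Or.inl fun x hx => H x (hW hx)
  · exact Or.inr ⟨u, u', hu, fun z s hs hz => H z s hs fun s' hs' => hW (hz s' hs')⟩

/-- the set between the graphs of `τ` and `σ` -/
def Reg (τ σ : B → ℝ) : Set (B × ℝ) := {x | τ x.1 < σ x.1 ∧ τ x.1 ≤ x.2 ∧ x.2 ≤ σ x.1}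

/-- the cone over `k` with centre `c`, at the time `s` -/
noncomputable def coneFun (c : B) (k : B → B) (s : ℝ) (x : B) : B :=
  if s ≤ 0 then x else c + s • (k (c + s⁻¹ • (x - c)) - c)

/-- the functions `θ` which occur in cones: a ramp from `0` up to `1`, or up to `1` and down to `0` -/
def IsRamp (θ : ℝ → ℝ) : Prop :=
  (∃ r e : ℝ, 0 < e ∧ ∀ t, θ t = min (max ((t - r) / e) 0) 1) ∨
  ∃ r e r' e' : ℝ, 0 < e ∧ 0 < e' ∧ r + e ≤ r' - e' ∧
    ∀ t, θ t = min (min (max ((t - r) / e) 0) 1) (min (max ((r' - t) / e') 0) 1)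

/-- `M` contains the cones over the elements of `VPc V` -/
def ConeIn (M : Subgroup (Equiv.Perm (B × ℝ))) (V : Submodule ℝ B) : Prop :=
  ∀ g ∈ GG B, (∃ (c : B) (k : Equiv.Perm B) (θ : ℝ → ℝ), k ∈ VPc V ∧ IsRamp θ ∧
    ∀ x t, g (x, t) = (coneFun c k (θ t) x, t)) → g ∈ M

/-- `h` is described by a triangulation of `D` with vertices `p v`, images `q v` and hat functions
`φ v`, `v < N`; the vertices in `S` are inside of `D` and at levels different from those of all other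
vertices, `h` is the identity on the open stars of the other vertices and outside of `D`. -/
structure Tri (h : Equiv.Perm (B × ℝ)) (D : Set (B × ℝ)) (N : ℕ) (p q : ℕ → B × ℝ)
    (φ : ℕ → B × ℝ → ℝ) (S : Set ℕ) : Prop where
  ht : IsHT D N p φ
  closed : IsClosed D
  bdd : Bornology.IsBounded D
  lin : ∀ x ∈ D, h x = ∑ v ∈ Finset.range N, φ v x • q v
  lev : ∀ v < N, (q v).2 = (p v).2
  out : ∀ x, x ∉ D → h x = x
  inner : ∀ v < N, v ∈ S → ∀ x, x ∉ D → φ v x = 0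
  live : ∀ v < N, v ∈ S → φ v (p v) = 1
  idv : ∀ v < N, v ∉ S → ∀ x ∈ D, φ v x ≠ 0 → h x = x
  gen : ∀ v < N, ∀ w < N, w ∈ S → v ≠ w → (p v).2 ≠ (p w).2

/-- the same for a general space `E` with a linear functional `lam` in place of the second
coordinate -/
structure TriL {E : Type*} [NormedAddCommGroup E] [NormedSpace ℝ E] (lam : E →L[ℝ] ℝ)
    (h : Equiv.Perm E) (D : Set E) (N : ℕ) (p q : ℕ → E) (φ : ℕ → E → ℝ) (S : Set ℕ) : Prop where
  ht : IsHT D N p φ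
  closed : IsClosed D
  bdd : Bornology.IsBounded D
  lin : ∀ x ∈ D, h x = ∑ v ∈ Finset.range N, φ v x • q v
  lev : ∀ v < N, lam (q v) = lam (p v)
  out : ∀ x, x ∉ D → h x = x
  inner : ∀ v < N, v ∈ S → ∀ x, x ∉ D → φ v x = 0
  live : ∀ v < N, v ∈ S → φ v (p v) = 1
  idv : ∀ v < N, v ∉ S → ∀ x ∈ D, φ v x ≠ 0 → h x = x
  gen : ∀ v < N, ∀ w < N, w ∈ S → v ≠ w → lam (p v) ≠ lam (p w)

/-- `r + min e (c (1 - g x))`: the level `r + e` with a conical notch down to the level `r` -/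
noncomputable def Tup (r e c : ℝ) (g : B → ℝ) (x : B) : ℝ := r + min e (c * (1 - g x))

/-- `r - min e (c (1 - g x))`: the level `r - e` with a conical hill up to the level `r` -/
noncomputable def Tdn (r e c : ℝ) (g : B → ℝ) (x : B) : ℝ := r - min e (c * (1 - g x))

end GG

end PLH
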