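import Pool.Agent.Lib.MP_6a1069_gt.PP.Defs

/-!
L01: a criterion for membership in `GG B`.

Proof.  Let `k` be the permutation of `B` with `k x = (g (x, R)).1` and inverse
`y ↦ (g⁻¹ (y, R)).1` (both inverse to each other, since `g` and `g⁻¹` preserve the second
coordinate: `g (x, R) = (k x, R)`, `g⁻¹ (y, R) = (k⁻¹ y, R)`).  `k` and `k⁻¹` are PL (compositions
with the affine map `x ↦ (x, R)`: `IsPL.id.prodMk (IsPL.const R)`, and `IsPL.fst`), and `k x = x` for
`R < ‖x‖` by `h1`.  For `R ≤ t`: `g (x, t) = ((g (x, t)).1, t) = (k x, t)` by `hlev` and `h3`.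

`PLc_le_GG` (directly from the definition of `GG B`, not through `mem_GG_of`): if `h x = x` for
`R₀ < ‖x‖` take `R = |R₀| + 1` and the top `k = 1`; `‖x.1‖ ≤ ‖x‖`, `|x.2| ≤ ‖x‖`.
-/

namespace PLH

variable {B : Type*} [NormedAddCommGroup B] [NormedSpace ℝ B]

theorem mem_GG_of {g : Equiv.Perm (B × ℝ)} (hg : IsPL (g : B × ℝ → B × ℝ))
    (hg' : IsPL (⇑g⁻¹ : B × ℝ → B × ℝ)) (hlev : ∀ x, (g x).2 = x.2) (R : ℝ)
    (h1 : ∀ x, R < ‖x.1‖ → g x = x) (h2 : ∀ x, x.2 < -R → g x = x)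
    (h3 : ∀ x t, R ≤ t → (g (x, t)).1 = (g (x, R)).1) : g ∈ GG B := by
  have hlev' : ∀ x, (g⁻¹ x).2 = x.2 := by
    intro x
    have := hlev (g⁻¹ x)
    rw [show g (g⁻¹ x) = x from g.apply_symm_apply x] at this
    exact this.symm
  have e1 : ∀ x, g (x, R) = ((g (x, R)).1, R) := fun x => Prod.ext rfl (hlev (x, R))
  have e2 : ∀ x, g⁻¹ (x, R) = ((g⁻¹ (x, R)).1, R) := fun x => Prod.ext rfl (hlev' (x, R))
  have a1 : ∀ x, (g⁻¹ ((g (x, R)).1, R)).1 = x := by
    intro x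
    rw [← e1 x]
    exact congrArg Prod.fst (g.symm_apply_apply (x, R))
  have a2 : ∀ x, (g ((g⁻¹ (x, R)).1, R)).1 = x := by
    intro x
    rw [← e2 x]
    exact congrArg Prod.fst (g.apply_symm_apply (x, R))
  let k : Equiv.Perm B :=
    { toFun := fun x => (g (x, R)).1
      invFun := fun y => (g⁻¹ (y, R)).1
      left_inv := a1
      right_inv := a2 }
  have hk : k ∈ PLc B := by
    refine ⟨?_, ?_, ?_⟩
    · exact IsPL.fst.comp (hg.comp (IsPL.id.prodMk (IsPL.const R)))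
    · exact IsPL.fst.comp (hg'.comp (IsPL.id.prodMk (IsPL.const R)))
    · refine ⟨R, fun x hx => ?_⟩
      show (g (x, R)).1 = x
      rw [h1 (x, R) hx]
  refine ⟨hg, hg', R, h1, h2, k, hk, fun x t ht => ?_⟩
  exact Prod.ext (h3 x t ht) (hlev (x, t))

/-- compactly supported PL homeomorphisms are in `GG B` -/
theorem PLc_le_GG : PLc (B × ℝ) ≤ GG B := by
  rintro h ⟨hg, hg', R₀, h0⟩
  have hR : R₀ ≤ |R₀| := le_abs_self _
  refine ⟨hg, hg', |R₀| + 1, fun x hx => h0 x ?_, fun x hx => h0 x ?_, 1, one_mem _,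
    fun x t ht => ?_⟩
  · have := norm_fst_le x
    linarith
  · have h5 := norm_snd_le x
    have h6 : -x.2 ≤ ‖x.2‖ := neg_le_abs _
    linarith
  · have h5 := norm_snd_le (x, t)
    have h6 : t ≤ ‖t‖ := le_abs_self _
    exact h0 (x, t) (by simp only at h5; linarith)

end PLH
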