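import Pool.Agent.Lib.MP_6a1069_gt.PP.L01

/-!
L02: a level preserving compactly supported PL homeomorphism can be stopped at every PL function
with small Lipschitz constant.

Proof.  `h⁻¹` is PL (`hh.2.1`), so Lipschitz with a constant `C ≥ 1` (`IsPL.lipschitz`; the norm of
`B × ℝ` is the maximum norm).  `h⁻¹` preserves the second coordinate too.  Put `l = 1 / (4 * C)`.  Let
`TL l τ`, `s x t = min t (τ x)`; `|s x t - s x' t'| ≤ max |t - t'| (l ‖x - x'‖)`
(`abs_min_sub_min_le_max`).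
(1) `stopFun h τ` is bijective.  Fix `q`, `t`.  `(h (x, s x t)).1 = q` iff
`h (x, s x t) = (q, s x t)` iff `x = (h⁻¹ (q, s x t)).1` (second coordinates agree automatically), and
`x ↦ (h⁻¹ (q, s x t)).1` is a contraction with constant `C * l ≤ 1/4`: there is exactly one fixed
point (`ContractingWith.fixedPoint_isFixedPt`, `ContractingWith.fixedPoint_unique`, as in
`PLH.perturb`; `B` is complete by `FiniteDimensional.complete`).
(2) `‖x - x'‖ ≤ C * ‖stopFun h τ x - stopFun h τ x'‖` for `x x' : B × ℝ`: with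
`y = h (x.1, s)`, `y' = h (x'.1, s')`: `‖x.1 - x'.1‖ ≤ C max(‖y.1 - y'.1‖, |s - s'|)` and
`|s - s'| ≤ max(|x.2 - x'.2|, l ‖x.1 - x'.1‖)`, where `C * l * ‖x.1 - x'.1‖ ≤ ‖x.1 - x'.1‖ / 4`.
So the inverse of the permutation `E` defined by `stopFun h τ` is Lipschitz, so continuous, so PL by
`isPL_symm`.
(3) `E ∈ GG B` by `mem_GG_of`: let `h x = x` for `R₀ < ‖x‖`, `0 ≤ R₀`, and let `M` be a bound of
`|τ|` on the closed ball of radius `R₀` (compact); `R = max R₀ M + 1`.  For `‖x‖ > R₀`: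
`h (x, _) = (x, _)`; for `t < -R`: `min t (τ x) ≤ t < -R₀`, so `h` is the identity at `(x, min t (τ x))`
and if `‖x‖ ≤ R₀` then `min t (τ x) = t`, not needed.  For `R ≤ t`: if `‖x‖ ≤ R₀` then
`min t (τ x) = τ x = min R (τ x)`; if `‖x‖ > R₀` both sides are `x`.
`stopFun h τ` is PL: composition of `h`, `IsPL.min`, `IsPL.prodMk`.
-/

namespace PLH

variable {B : Type*} [NormedAddCommGroup B] [NormedSpace ℝ B] [FiniteDimensional ℝ B]

theorem exists_adm {h : Equiv.Perm (B × ℝ)} (hh : h ∈ PLc (B × ℝ)) (hlev : ∀ x, (h x).2 = x.2) :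
    ∃ l > 0, Adm (h : B × ℝ → B × ℝ) l := by
  have hcomplete : CompleteSpace B := FiniteDimensional.complete ℝ B
  have hproper : ProperSpace B := FiniteDimensional.proper ℝ B
  obtain ⟨hPL, hPL', R₁, hR₁⟩ := hh
  obtain ⟨C₀, hC₀, hlip₀⟩ := hPL'.lipschitz
  set C : ℝ := max C₀ 1 with hC
  have hC1 : 1 ≤ C := le_max_right _ _
  have hCpos : 0 < C := by linarith
  have hlip : ∀ x y, ‖h⁻¹ x - h⁻¹ y‖ ≤ C * ‖x - y‖ := fun x y =>
    (hlip₀ x y).trans (mul_le_mul_of_nonneg_right (le_max_left _ _) (norm_nonneg _))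
  have hlev' : ∀ y, (h⁻¹ y).2 = y.2 := by
    intro y
    have h1 := hlev (h⁻¹ y)
    have h2 : h (h⁻¹ y) = y := h.apply_symm_apply y
    rw [h2] at h1
    exact h1.symm
  set l : ℝ := 1 / (4 * C) with hl
  have hlpos : 0 < l := by positivity
  have hCl : C * l = 1 / 4 := by
    rw [hl]
    field_simp
  refine ⟨l, hlpos, fun τ hτ => ?_⟩
  set g : B × ℝ → B × ℝ := stopFun h τ with hg
  have hga : ∀ x, g x = ((h (x.1, min x.2 (τ x.1))).1, x.2) := fun x => rfl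
  have hgPL : IsPL g := by
    have h1 : IsPL (fun x : B × ℝ => min x.2 (τ x.1)) := IsPL.snd.min (hτ.1.comp IsPL.fst)
    have h2 : IsPL (fun x : B × ℝ => (x.1, min x.2 (τ x.1))) := IsPL.fst.prodMk h1
    exact (IsPL.prodMk (IsPL.fst.comp (hPL.comp h2)) IsPL.snd).congr fun x => rfl
  have hs : ∀ (x x' : B) (t t' : ℝ),
      |min t (τ x) - min t' (τ x')| ≤ max |t - t'| (l * ‖x - x'‖) := by
    intro x x' t t'
    refine (abs_min_sub_min_le_max _ _ _ _).trans (max_le_max le_rfl (hτ.2 x x'))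
  have hback : ∀ x : B × ℝ, h⁻¹ ((g x).1, min x.2 (τ x.1)) = (x.1, min x.2 (τ x.1)) := by
    intro x
    rw [Equiv.Perm.inv_eq_iff_eq]
    exact Prod.ext rfl (hlev (x.1, min x.2 (τ x.1))).symm
  have hlow : ∀ x x' : B × ℝ, ‖x.1 - x'.1‖ ≤ 2 * C * ‖g x - g x'‖ := by
    intro x x'
    have h1 := hlip ((g x).1, min x.2 (τ x.1)) ((g x').1, min x'.2 (τ x'.1))
    rw [hback, hback] at h1
    have h2 : ‖x.1 - x'.1‖ ≤
        ‖((x.1, min x.2 (τ x.1)) : B × ℝ) - (x'.1, min x'.2 (τ x'.1))‖ :=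
      norm_fst_le (((x.1, min x.2 (τ x.1)) : B × ℝ) - (x'.1, min x'.2 (τ x'.1)))
    have h3 : ‖(((g x).1, min x.2 (τ x.1)) : B × ℝ) - ((g x').1, min x'.2 (τ x'.1))‖ ≤
        ‖g x - g x'‖ + l * ‖x.1 - x'.1‖ := by
      have e1 : 0 ≤ l * ‖x.1 - x'.1‖ := mul_nonneg hlpos.le (norm_nonneg _)
      have e2 := norm_nonneg (g x - g x')
      rw [Prod.norm_def]
      refine max_le ?_ ?_
      · have e3 : ‖(g x).1 - (g x').1‖ ≤ ‖g x - g x'‖ := norm_fst_le (g x - g x')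
        show ‖(g x).1 - (g x').1‖ ≤ _
        linarith
      · have e3 : |x.2 - x'.2| ≤ ‖g x - g x'‖ := norm_snd_le (g x - g x')
        show |min x.2 (τ x.1) - min x'.2 (τ x'.1)| ≤ _
        refine (hs _ _ _ _).trans (max_le ?_ ?_)
        · linarith
        · linarith
    have h4 : C * ‖(((g x).1, min x.2 (τ x.1)) : B × ℝ) - ((g x').1, min x'.2 (τ x'.1))‖ ≤
        C * (‖g x - g x'‖ + l * ‖x.1 - x'.1‖) := mul_le_mul_of_nonneg_left h3 hCpos.le
    have h5 : C * (‖g x - g x'‖ + l * ‖x.1 - x'.1‖) =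
        C * ‖g x - g x'‖ + 1 / 4 * ‖x.1 - x'.1‖ := by rw [← hCl]; ring
    have h6 : 0 ≤ C * ‖g x - g x'‖ := mul_nonneg hCpos.le (norm_nonneg _)
    have h7 := norm_nonneg (x.1 - x'.1)
    linarith
  have hinj : Function.Injective g := by
    intro x x' hxx
    have e2 : x.2 = x'.2 := by
      have h0 : (g x).2 = (g x').2 := by rw [hxx]
      exact h0
    have h1 := hlow x x'
    rw [hxx, sub_self, norm_zero, mul_zero] at h1
    exact Prod.ext (sub_eq_zero.1 (norm_le_zero_iff.1 h1)) e2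
  have hsurj : Function.Surjective g := by
    rintro ⟨y, t⟩
    have hc : ContractingWith (⟨1 / 4, by norm_num⟩ : NNReal)
        (fun x : B => (h⁻¹ (y, min t (τ x))).1) := by
      refine ⟨?_, ?_⟩
      · rw [← NNReal.coe_lt_coe]
        show (1 / 4 : ℝ) < 1
        norm_num
      refine LipschitzWith.of_dist_le_mul fun x x' => ?_
      rw [dist_eq_norm, dist_eq_norm]
      show ‖(h⁻¹ (y, min t (τ x))).1 - (h⁻¹ (y, min t (τ x'))).1‖ ≤ 1 / 4 * ‖x - x'‖
      have e1 : ‖(h⁻¹ (y, min t (τ x))).1 - (h⁻¹ (y, min t (τ x'))).1‖ ≤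
          ‖h⁻¹ (y, min t (τ x)) - h⁻¹ (y, min t (τ x'))‖ :=
        norm_fst_le (h⁻¹ (y, min t (τ x)) - h⁻¹ (y, min t (τ x')))
      have e2 := hlip (y, min t (τ x)) (y, min t (τ x'))
      have e3 : ‖((y, min t (τ x)) : B × ℝ) - (y, min t (τ x'))‖ ≤ l * ‖x - x'‖ := by
        rw [Prod.norm_def]
        refine max_le ?_ ?_
        · show ‖y - y‖ ≤ _
          rw [sub_self, norm_zero]
          exact mul_nonneg hlpos.le (norm_nonneg _)
        · show |min t (τ x) - min t (τ x')| ≤ _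
          refine (hs _ _ _ _).trans (max_le ?_ le_rfl)
          rw [sub_self, abs_zero]
          exact mul_nonneg hlpos.le (norm_nonneg _)
      have e4 : C * ‖((y, min t (τ x)) : B × ℝ) - (y, min t (τ x'))‖ ≤ C * (l * ‖x - x'‖) :=
        mul_le_mul_of_nonneg_left e3 hCpos.le
      have e5 : C * (l * ‖x - x'‖) = 1 / 4 * ‖x - x'‖ := by rw [← hCl]; ring
      linarith
    obtain ⟨x, h1⟩ : ∃ x, Function.IsFixedPt (fun x : B => (h⁻¹ (y, min t (τ x))).1) x :=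
      ⟨_, hc.fixedPoint_isFixedPt⟩
    have h2 : (h⁻¹ (y, min t (τ x))).1 = x := h1
    have h3 : h⁻¹ (y, min t (τ x)) = (x, min t (τ x)) := Prod.ext h2 (hlev' _)
    have h4 : h (x, min t (τ x)) = (y, min t (τ x)) := by
      rw [← h3]
      exact h.apply_symm_apply _
    refine ⟨(x, t), ?_⟩
    rw [hga]
    show ((h (x, min t (τ x))).1, t) = (y, t)
    rw [h4]
  set G : Equiv.Perm (B × ℝ) := Equiv.ofBijective g ⟨hinj, hsurj⟩ with hG
  have hGa : ∀ x, G x = g x := fun x => rfl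
  have hGs : ∀ y, g (G⁻¹ y) = y := fun y => G.apply_symm_apply y
  have hGc : Continuous (⇑G⁻¹ : B × ℝ → B × ℝ) := by
    have h1 : (0 : ℝ) ≤ 2 * C := by linarith
    refine (LipschitzWith.of_dist_le_mul (K := ⟨2 * C, h1⟩) fun y y' => ?_).continuous
    rw [dist_eq_norm, dist_eq_norm]
    show ‖G⁻¹ y - G⁻¹ y'‖ ≤ 2 * C * ‖y - y'‖
    have h2 := hlow (G⁻¹ y) (G⁻¹ y')
    rw [hGs, hGs] at h2
    have e2 : ∀ z, (G⁻¹ z).2 = z.2 := by
      intro z
      have h0 : (g (G⁻¹ z)).2 = z.2 := by rw [hGs]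
      exact h0
    rw [Prod.norm_def]
    refine max_le h2 ?_
    show ‖(G⁻¹ y).2 - (G⁻¹ y').2‖ ≤ _
    rw [e2, e2]
    have h3 : ‖y.2 - y'.2‖ ≤ ‖y - y'‖ := norm_snd_le (y - y')
    have h4 : 1 * ‖y - y'‖ ≤ 2 * C * ‖y - y'‖ :=
      mul_le_mul_of_nonneg_right (by linarith) (norm_nonneg _)
    linarith
  have hGpl : IsPL (G : B × ℝ → B × ℝ) := hgPL.congr hGa
  obtain ⟨M, hM⟩ := (isCompact_closedBall (0 : B) R₁).exists_bound_of_continuousOn
    hτ.1.continuous.continuousOn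
  refine ⟨G, ?_, fun x => rfl⟩
  have hR1 : R₁ ≤ max (max R₁ M) 0 + 1 := by
    have := le_max_left (max R₁ M) 0
    have := le_max_left R₁ M
    linarith
  have hR2 : M ≤ max (max R₁ M) 0 + 1 := by
    have := le_max_left (max R₁ M) 0
    have := le_max_right R₁ M
    linarith
  have hR0 : 0 ≤ max (max R₁ M) 0 + 1 := by
    have := le_max_right (max R₁ M) 0
    linarith
  refine mem_GG_of hGpl (isPL_symm G hGpl hGc) (fun x => rfl) (max (max R₁ M) 0 + 1) ?_ ?_ ?_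
  · intro x hx
    have h1 : R₁ < ‖((x.1, min x.2 (τ x.1)) : B × ℝ)‖ :=
      (hR1.trans_lt hx).trans_le (norm_fst_le ((x.1, min x.2 (τ x.1)) : B × ℝ))
    rw [hGa, hga, hR₁ _ h1]
  · intro x hx
    have h0 : min x.2 (τ x.1) ≤ x.2 := min_le_left _ _
    have h2 : |min x.2 (τ x.1)| ≤ ‖((x.1, min x.2 (τ x.1)) : B × ℝ)‖ :=
      norm_snd_le ((x.1, min x.2 (τ x.1)) : B × ℝ)
    have h3 : -(min x.2 (τ x.1)) ≤ |min x.2 (τ x.1)| := neg_le_abs _
    have h1 : R₁ < ‖((x.1, min x.2 (τ x.1)) : B × ℝ)‖ := by linarith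
    rw [hGa, hga, hR₁ _ h1]
  · intro x t ht
    rw [hGa, hGa, hga, hga]
    show (h (x, min t (τ x))).1 = (h (x, min (max (max R₁ M) 0 + 1) (τ x))).1
    by_cases hx : ‖x‖ ≤ R₁
    · have h1 : ‖τ x‖ ≤ M := hM x (by rw [mem_closedBall_zero_iff]; exact hx)
      rw [Real.norm_eq_abs] at h1
      have h2 : τ x ≤ M := (le_abs_self _).trans h1
      rw [min_eq_right (h2.trans (hR2.trans ht)), min_eq_right (h2.trans hR2)]
    · have hx' := not_le.1 hx
      have h1 : ∀ s : ℝ, h (x, s) = (x, s) := fun s =>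
        hR₁ _ (hx'.trans_le (norm_fst_le ((x, s) : B × ℝ)))
      rw [h1, h1]

end PLH
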