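import Pool.Agent.Lib.MP_6a1069_gt.PP.L01

/-!
L03: the shear homeomorphisms `(x, t) ↦ (x - min t (τ x) • u, t)`.

Proof.  Let `a = l * ‖u‖ < 1`, `s x t = min t (τ x)`, `|s x t - s x' t'| ≤ max |t - t'| (l ‖x - x'‖)`.
Bijective: for given `q`, `t` the map `x ↦ q + s x t • u` is a contraction with constant `a`
(`ContractingWith`, as in `PLH.perturb`).  The inverse is Lipschitz, so continuous:
`‖x - x'‖ ≤ ‖q - q'‖ + max |t - t'| (l ‖x - x'‖) * ‖u‖`, so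
`(1 - a) ‖x - x'‖ ≤ ‖q - q'‖ + |t - t'| ‖u‖` for the first coordinates.  PL: `IsPL.min`, and
`(IsPL.clm (ContinuousLinearMap.toSpanSingleton ℝ u)).comp`.  The inverse is PL by `isPL_symm`.
-/

namespace PLH

variable {B : Type*} [NormedAddCommGroup B] [NormedSpace ℝ B] [FiniteDimensional ℝ B]

theorem exists_shear {l : ℝ} (hl : 0 ≤ l) {u : B} (hu : l * ‖u‖ < 1) {τ : B → ℝ} (hτ : TL l τ) :
    ∃ m : Equiv.Perm (B × ℝ), IsPL (m : B × ℝ → B × ℝ) ∧ IsPL (⇑m⁻¹ : B × ℝ → B × ℝ) ∧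
      ∀ x, m x = (x.1 - min x.2 (τ x.1) • u, x.2) := by
  have hcomplete : CompleteSpace B := FiniteDimensional.complete ℝ B
  set a : ℝ := l * ‖u‖ with ha
  have ha0 : 0 ≤ a := mul_nonneg hl (norm_nonneg u)
  have ha1 : 0 < 1 - a := by linarith
  set g : B × ℝ → B × ℝ := fun x => (x.1 - min x.2 (τ x.1) • u, x.2) with hg
  have hgPL : IsPL g := by
    refine IsPL.prodMk (IsPL.fst.sub ?_) IsPL.snd
    have h1 : IsPL (fun x : B × ℝ => min x.2 (τ x.1)) := IsPL.snd.min (hτ.1.comp IsPL.fst)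
    exact ((IsPL.clm (ContinuousLinearMap.toSpanSingleton ℝ u)).comp h1).congr fun x => rfl
  have hs : ∀ (x x' : B) (t t' : ℝ),
      |min t (τ x) - min t' (τ x')| ≤ |t - t'| + l * ‖x - x'‖ := by
    intro x x' t t'
    refine (abs_min_sub_min_le_max _ _ _ _).trans (max_le ?_ ?_)
    · have := mul_nonneg hl (norm_nonneg (x - x'))
      linarith
    · have := hτ.2 x x'
      have := abs_nonneg (t - t')
      linarith
  have hlow : ∀ x x' : B × ℝ,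
      (1 - a) * ‖x.1 - x'.1‖ ≤ ‖(g x).1 - (g x').1‖ + |x.2 - x'.2| * ‖u‖ := by
    intro x x'
    have e : x.1 - x'.1 = ((g x).1 - (g x').1) +
        (min x.2 (τ x.1) - min x'.2 (τ x'.1)) • u := by
      simp only [hg, sub_smul]
      abel
    have h1 : ‖x.1 - x'.1‖ ≤ ‖(g x).1 - (g x').1‖ +
        |min x.2 (τ x.1) - min x'.2 (τ x'.1)| * ‖u‖ := by
      conv_lhs => rw [e]
      refine (norm_add_le _ _).trans ?_
      rw [norm_smul, Real.norm_eq_abs]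
    have h2 : |min x.2 (τ x.1) - min x'.2 (τ x'.1)| * ‖u‖ ≤
        (|x.2 - x'.2| + l * ‖x.1 - x'.1‖) * ‖u‖ :=
      mul_le_mul_of_nonneg_right (hs _ _ _ _) (norm_nonneg u)
    have h3 : (|x.2 - x'.2| + l * ‖x.1 - x'.1‖) * ‖u‖ =
        |x.2 - x'.2| * ‖u‖ + a * ‖x.1 - x'.1‖ := by rw [ha]; ring
    have h4 : (1 - a) * ‖x.1 - x'.1‖ = ‖x.1 - x'.1‖ - a * ‖x.1 - x'.1‖ := by ring
    rw [h4]
    linarith
  have hinj : Function.Injective g := by
    intro x x' hxx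
    have e2 : x.2 = x'.2 := by
      have h0 : (g x).2 = (g x').2 := by rw [hxx]
      exact h0
    have h1 := hlow x x'
    rw [hxx, e2, sub_self, sub_self, norm_zero, abs_zero, zero_mul, add_zero] at h1
    have h2 : ‖x.1 - x'.1‖ ≤ 0 := by
      by_contra hcon
      have : 0 < (1 - a) * ‖x.1 - x'.1‖ := mul_pos ha1 (not_le.1 hcon)
      linarith
    exact Prod.ext (sub_eq_zero.1 (norm_le_zero_iff.1 h2)) e2
  have hsurj : Function.Surjective g := by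
    rintro ⟨q, t⟩
    have hc : ContractingWith (⟨a, ha0⟩ : NNReal) (fun x : B => q + min t (τ x) • u) := by
      refine ⟨by exact_mod_cast hu, ?_⟩
      refine LipschitzWith.of_dist_le_mul fun x x' => ?_
      rw [dist_eq_norm, dist_eq_norm]
      have e : (q + min t (τ x) • u) - (q + min t (τ x') • u) =
          (min t (τ x) - min t (τ x')) • u := by
        rw [sub_smul]
        abel
      rw [e, norm_smul, Real.norm_eq_abs]
      have h1 := hs x x' t t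
      rw [sub_self, abs_zero, zero_add] at h1
      show _ ≤ a * ‖x - x'‖
      calc |min t (τ x) - min t (τ x')| * ‖u‖ ≤ (l * ‖x - x'‖) * ‖u‖ :=
            mul_le_mul_of_nonneg_right h1 (norm_nonneg u)
        _ = a * ‖x - x'‖ := by rw [ha]; ring
    obtain ⟨x, h1⟩ : ∃ x, Function.IsFixedPt (fun x : B => q + min t (τ x) • u) x :=
      ⟨_, hc.fixedPoint_isFixedPt⟩
    have h2 : q + min t (τ x) • u = x := h1
    refine ⟨(x, t), Prod.ext ?_ rfl⟩
    show x - min t (τ x) • u = q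
    rw [sub_eq_iff_eq_add]
    exact h2.symm
  set G : Equiv.Perm (B × ℝ) := Equiv.ofBijective g ⟨hinj, hsurj⟩ with hG
  have hGa : ∀ x, G x = g x := fun x => rfl
  have hGs : ∀ y, g (G⁻¹ y) = y := fun y => G.apply_symm_apply y
  have hGc : Continuous (⇑G⁻¹ : B × ℝ → B × ℝ) := by
    have h1 : (0 : ℝ) ≤ (1 + ‖u‖) / (1 - a) :=
      div_nonneg (add_nonneg zero_le_one (norm_nonneg u)) ha1.le
    refine (LipschitzWith.of_dist_le_mul (K := ⟨(1 + ‖u‖) / (1 - a), h1⟩)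
      fun y y' => ?_).continuous
    rw [dist_eq_norm, dist_eq_norm]
    show ‖G⁻¹ y - G⁻¹ y'‖ ≤ (1 + ‖u‖) / (1 - a) * ‖y - y'‖
    have h2 := hlow (G⁻¹ y) (G⁻¹ y')
    have e2 : ∀ z, (G⁻¹ z).2 = z.2 := by
      intro z
      have h0 : (g (G⁻¹ z)).2 = z.2 := by rw [hGs]
      exact h0
    rw [hGs, hGs, e2, e2] at h2
    have h3 : ‖y.1 - y'.1‖ ≤ ‖y - y'‖ := norm_fst_le (y - y')
    have h4 : |y.2 - y'.2| ≤ ‖y - y'‖ := norm_snd_le (y - y')
    have h5 : (1 - a) * ‖(G⁻¹ y).1 - (G⁻¹ y').1‖ ≤ (1 + ‖u‖) * ‖y - y'‖ := by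
      have h6 : |y.2 - y'.2| * ‖u‖ ≤ ‖y - y'‖ * ‖u‖ :=
        mul_le_mul_of_nonneg_right h4 (norm_nonneg u)
      linarith
    rw [div_mul_eq_mul_div, le_div_iff₀ ha1, Prod.norm_def, mul_comm]
    have h7 : (1 - a) * ‖(G⁻¹ y - G⁻¹ y').2‖ ≤ (1 + ‖u‖) * ‖y - y'‖ := by
      have e3 : ‖(G⁻¹ y - G⁻¹ y').2‖ = |y.2 - y'.2| := by
        show ‖(G⁻¹ y).2 - (G⁻¹ y').2‖ = _
        rw [e2, e2, Real.norm_eq_abs]
      rw [e3]
      have h8 : (1 - a) * |y.2 - y'.2| ≤ 1 * ‖y - y'‖ :=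
        mul_le_mul (by linarith) h4 (abs_nonneg _) zero_le_one
      have h9 : 0 ≤ ‖u‖ * ‖y - y'‖ := mul_nonneg (norm_nonneg _) (norm_nonneg _)
      linarith
    rcases max_cases ‖(G⁻¹ y - G⁻¹ y').1‖ ‖(G⁻¹ y - G⁻¹ y').2‖ with h | h
    · rw [h.1]
      exact h5
    · rw [h.1]
      exact h7
  have hGpl : IsPL (G : B × ℝ → B × ℝ) := hgPL.congr hGa
  exact ⟨G, hGpl, isPL_symm G hGpl hGc, hGa⟩

end PLH
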