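import Pool.Agent.Lib.MP_6a1069_gt.PP.L01
import Pool.Agent.Lib.MP_6a1069_gt.Alex

/-!
L04: cutting off at the top.  `⁅GG B, GG B⁆ ∩ PLc (B × ℝ) ≤ ⁅PLc (B × ℝ), PLc (B × ℝ)⁆`.

Proof.  For a permutation `h` which is `(x, t) ↦ (k x, t)` for `t ≥ T` let `RR T k h` be `h` on `t ≤ T` and
`(x, t) ↦ (alexPerm k (min (max (T + 1 - t) 0) 1) x, t)` on `t ≥ T`.  It is multiplicative in `(h, k)` and in
`PLc (B × ℝ)` if `h ∈ GG B`.  By induction every `h ∈ ⁅GG B, GG B⁆` has a top `k` above some `T₀` with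
`RR T k h ∈ ⁅PLc, PLc⁆` for all `T ≥ T₀`.  If `h ∈ PLc` then `k = 1` and `RR T 1 h = h`.
-/

namespace PLH

open Set

variable {B : Type*} [NormedAddCommGroup B] [NormedSpace ℝ B]

namespace L04

set_option linter.unusedSectionVars false

/-- height function -/
noncomputable def cl (T t : ℝ) : ℝ := min (max (T + 1 - t) 0) 1

/-- `k` for `t ≤ T`, the identity for `t ≥ T + 1` -/
noncomputable def capA (T : ℝ) (k : Equiv.Perm B) : Equiv.Perm (B × ℝ) where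
  toFun p := (alexPerm k (cl T p.2) p.1, p.2)
  invFun p := ((alexPerm k (cl T p.2))⁻¹ p.1, p.2)
  left_inv p := Prod.ext ((alexPerm k (cl T p.2)).symm_apply_apply p.1) rfl
  right_inv p := Prod.ext ((alexPerm k (cl T p.2)).apply_symm_apply p.1) rfl

/-- `k` on every level -/
def kap (k : Equiv.Perm B) : Equiv.Perm (B × ℝ) where
  toFun p := (k p.1, p.2)
  invFun p := (k⁻¹ p.1, p.2)
  left_inv p := Prod.ext (k.symm_apply_apply p.1) rfl
  right_inv p := Prod.ext (k.apply_symm_apply p.1) rfl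

theorem capA_apply (T : ℝ) (k : Equiv.Perm B) (p : B × ℝ) :
    capA T k p = (alexPerm k (cl T p.2) p.1, p.2) := rfl

theorem kap_inv_apply (k : Equiv.Perm B) (p : B × ℝ) : (kap k)⁻¹ p = (k⁻¹ p.1, p.2) := rfl

theorem alex_mul (k k' : Equiv.Perm B) (s : ℝ) (x : B) :
    alexPerm (k * k') s x = alexPerm k s (alexPerm k' s x) := by
  rw [alexPerm_apply, alexPerm_apply, alexPerm_apply]
  unfold alexFun
  by_cases hs : s ≤ 0
  · simp [hs]
  · have hs' : s ≠ 0 := (not_le.1 hs).ne'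
    simp only [hs, if_false]
    rw [inv_smul_smul₀ hs']
    rfl

theorem alex_one (s : ℝ) (x : B) : alexPerm (1 : Equiv.Perm B) s x = x := by
  rw [alexPerm_apply]
  unfold alexFun
  by_cases hs : s ≤ 0
  · simp [hs]
  · have hs' : s ≠ 0 := (not_le.1 hs).ne'
    simp only [hs, if_false]
    show s • (s⁻¹ • x) = x
    rw [smul_inv_smul₀ hs']

theorem alex_top (k : Equiv.Perm B) (x : B) : alexPerm k 1 x = k x := by
  rw [alexPerm_apply]
  simp [alexFun]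

theorem alex_bot (k : Equiv.Perm B) (x : B) : alexPerm k 0 x = x := by
  rw [alexPerm_apply]
  simp [alexFun]

theorem cl_low {T t : ℝ} (h : t ≤ T) : cl T t = 1 := by
  unfold cl
  apply min_eq_right
  exact le_trans (by linarith) (le_max_left _ _)

theorem cl_high {T t : ℝ} (h : T + 1 ≤ t) : cl T t = 0 := by
  unfold cl
  rw [max_eq_right (by linarith)]
  simp

theorem capA_mul (T : ℝ) (k k' : Equiv.Perm B) (p : B × ℝ) :
    capA T (k * k') p = capA T k (capA T k' p) := by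
  rw [capA_apply, capA_apply, capA_apply, alex_mul]

/-- cut off version of `h` -/
noncomputable def RR (T : ℝ) (k : Equiv.Perm B) (h : Equiv.Perm (B × ℝ)) : Equiv.Perm (B × ℝ) :=
  capA T k * (kap k)⁻¹ * h

/-- `h` has the top `k` above `T` -/
def Top (T : ℝ) (k : Equiv.Perm B) (h : Equiv.Perm (B × ℝ)) : Prop :=
  ∀ x t, T ≤ t → h (x, t) = (k x, t)

theorem Top.mono {T T' : ℝ} (hT : T ≤ T') {k : Equiv.Perm B} {h : Equiv.Perm (B × ℝ)}
    (H : Top T k h) : Top T' k h := fun x t ht => H x t (hT.trans ht)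

theorem Top.mul {T : ℝ} {k k' : Equiv.Perm B} {h h' : Equiv.Perm (B × ℝ)}
    (H : Top T k h) (H' : Top T k' h') : Top T (k * k') (h * h') := fun x t ht => by
  show h (h' (x, t)) = _
  rw [H' x t ht, H _ t ht]
  rfl

theorem Top.inv {T : ℝ} {k : Equiv.Perm B} {h : Equiv.Perm (B × ℝ)}
    (H : Top T k h) : Top T k⁻¹ h⁻¹ := fun x t ht => by
  rw [Equiv.Perm.inv_eq_iff_eq, H _ t ht]
  exact Prod.ext (k.apply_symm_apply x).symm rfl

theorem Top.low {T : ℝ} {k : Equiv.Perm B} {h : Equiv.Perm (B × ℝ)}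
    (H : Top T k h) {p : B × ℝ} (hp : p.2 ≤ T) : (h p).2 ≤ T := by
  by_contra hcon
  have h1 : T < (h p).2 := not_le.1 hcon
  have h2 := H.inv (h p).1 (h p).2 h1.le
  have h3 : h⁻¹ ((h p).1, (h p).2) = p := h.symm_apply_apply p
  rw [h3] at h2
  rw [h2] at hp
  exact absurd hp (not_le.2 h1)

theorem RR_high {T : ℝ} {k : Equiv.Perm B} {h : Equiv.Perm (B × ℝ)}
    (H : Top T k h) {p : B × ℝ} (hp : T ≤ p.2) : RR T k h p = capA T k p := by
  show capA T k ((kap k)⁻¹ (h p)) = _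
  have h1 : h p = (k p.1, p.2) := H p.1 p.2 hp
  rw [h1, kap_inv_apply]
  have h2 : k⁻¹ (k p.1) = p.1 := k.symm_apply_apply p.1
  show capA T k (k⁻¹ (k p.1), p.2) = _
  rw [h2]

theorem RR_low {T : ℝ} {k : Equiv.Perm B} {h : Equiv.Perm (B × ℝ)}
    (H : Top T k h) {p : B × ℝ} (hp : p.2 ≤ T) : RR T k h p = h p := by
  show capA T k ((kap k)⁻¹ (h p)) = _
  rw [kap_inv_apply, capA_apply]
  have h1 : cl T (h p).2 = 1 := cl_low (H.low hp)
  show (alexPerm k (cl T (h p).2) (k⁻¹ (h p).1), (h p).2) = h p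
  rw [h1, alex_top]
  have h2 : k (k⁻¹ (h p).1) = (h p).1 := k.apply_symm_apply _
  rw [h2]

theorem RR_mul {T : ℝ} {k k' : Equiv.Perm B} {h h' : Equiv.Perm (B × ℝ)}
    (H : Top T k h) (H' : Top T k' h') : RR T (k * k') (h * h') = RR T k h * RR T k' h' := by
  refine Equiv.ext fun p => ?_
  show _ = RR T k h (RR T k' h' p)
  rcases le_total p.2 T with hp | hp
  · rw [RR_low (H.mul H') hp, RR_low H' hp, RR_low H (H'.low hp)]
    rfl
  · rw [RR_high (H.mul H') hp, RR_high H' hp, RR_high H, capA_mul]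
    exact hp

theorem Top.one (T : ℝ) : Top T (1 : Equiv.Perm B) (1 : Equiv.Perm (B × ℝ)) := fun _ _ _ => rfl

theorem RR_one (T : ℝ) (h : Equiv.Perm (B × ℝ)) : RR T (1 : Equiv.Perm B) h = h := by
  refine Equiv.ext fun p => ?_
  show capA T 1 ((kap 1)⁻¹ (h p)) = _
  rw [kap_inv_apply, capA_apply, alex_one]
  rfl

theorem RR_inv {T : ℝ} {k : Equiv.Perm B} {h : Equiv.Perm (B × ℝ)}
    (H : Top T k h) : RR T k⁻¹ h⁻¹ = (RR T k h)⁻¹ := by
  rw [eq_inv_iff_mul_eq_one, ← RR_mul H.inv H, inv_mul_cancel, inv_mul_cancel, RR_one]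

theorem alex_far {k : Equiv.Perm B} {R : ℝ} (hR : ∀ x, R < ‖x‖ → k x = x) {s : ℝ} (hs : s ≤ 1)
    {x : B} (hx : R < ‖x‖) : alexPerm k s x = x := by
  rw [alexPerm_apply]
  by_cases h0 : s ≤ 0
  · simp [alexFun, h0]
  · have hs0 : 0 < s := not_le.1 h0
    have h3 : R < ‖s⁻¹ • x‖ := by
      rw [norm_smul, norm_inv, Real.norm_of_nonneg hs0.le]
      have h4 : 1 ≤ s⁻¹ := (one_le_inv₀ hs0).2 hs
      have h5 : ‖x‖ ≤ s⁻¹ * ‖x‖ := by nlinarith [norm_nonneg x]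
      exact hx.trans_le h5
    simp only [alexFun, h0, if_false]
    rw [hR _ h3, smul_inv_smul₀ hs0.ne']

theorem capA_PL [FiniteDimensional ℝ B] (T : ℝ) {k : Equiv.Perm B} (hk : k ∈ PLc B) :
    IsPL (fun p => capA T k p) := by
  obtain ⟨h1, -, R, hR⟩ := hk
  have hcl : IsPL (fun p : B × ℝ => (p.1, cl T p.2)) :=
    IsPL.fst.prodMk (((((IsPL.const (T + 1)).sub IsPL.snd).max (IsPL.const 0)).min
      (IsPL.const 1)))
  refine (((alexFun_PL h1 hR).comp hcl).prodMk IsPL.snd).congr fun p => ?_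
  rw [capA_apply, alexPerm_apply]

theorem RR_PL [FiniteDimensional ℝ B] {T : ℝ} {k : Equiv.Perm B} (hk : k ∈ PLc B)
    {h : Equiv.Perm (B × ℝ)} (H : Top T k h) (hh : IsPL (h : B × ℝ → B × ℝ)) :
    IsPL (RR T k h : B × ℝ → B × ℝ) := by
  have hg : Continuous (fun p : B × ℝ => p.2 - T) := by fun_prop
  refine (IsPL.glue (g := fun p : B × ℝ => p.2 - T) hh (capA_PL T hk) hg fun p hp => ?_).congr
    fun p => ?_
  · have hp' : p.2 = T := by linarith
    rw [← RR_low H hp'.le, RR_high H hp'.ge]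
  · by_cases hp : p.2 - T ≤ 0
    · simp only [hp, if_true]
      exact RR_low H (by linarith)
    · simp only [hp, if_false]
      exact RR_high H (by linarith [not_le.1 hp])

theorem RR_mem [FiniteDimensional ℝ B] {T : ℝ} {k : Equiv.Perm B} (hk : k ∈ PLc B)
    {h : Equiv.Perm (B × ℝ)} (hG : h ∈ GG B) (H : Top T k h) : RR T k h ∈ PLc (B × ℝ) := by
  obtain ⟨h1, h2, R, h3, h4, -⟩ := hG
  refine ⟨RR_PL hk H h1, ?_, ?_⟩
  · rw [← RR_inv H]
    exact RR_PL (inv_mem hk) H.inv h2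
  · obtain ⟨-, -, R', hR'⟩ := hk
    refine ⟨max (max R R') (|T| + 1), fun p hp => ?_⟩
    have hp1 : R < ‖p‖ := lt_of_le_of_lt ((le_max_left _ _).trans (le_max_left _ _)) hp
    have hp2 : R' < ‖p‖ := lt_of_le_of_lt ((le_max_right _ _).trans (le_max_left _ _)) hp
    have hp3 : |T| + 1 < ‖p‖ := lt_of_le_of_lt (le_max_right _ _) hp
    have hTa := le_abs_self T
    have hTb := neg_abs_le T
    rw [Prod.norm_def] at hp1 hp2 hp3
    rcases le_total ‖p.2‖ ‖p.1‖ with hc | hc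
    · rw [max_eq_left hc] at hp1 hp2 hp3
      rcases le_total p.2 T with hq | hq
      · rw [RR_low H hq, h3 p hp1]
      · rw [RR_high H hq, capA_apply, alex_far hR' (s := cl T p.2) (min_le_right _ _) hp2]
    · rw [max_eq_right hc, Real.norm_eq_abs] at hp1 hp2 hp3
      rcases abs_cases p.2 with ⟨ha, -⟩ | ⟨ha, hb⟩
      · rw [ha] at hp3
        rw [RR_high H (by linarith), capA_apply, cl_high (by linarith), alex_bot]
      · rw [ha] at hp1 hp3
        rw [RR_low H (by linarith), h4 p (by linarith)]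

theorem exists_top {h : Equiv.Perm (B × ℝ)} (hG : h ∈ GG B) : ∃ T, ∃ k ∈ PLc B, Top T k h := by
  obtain ⟨-, -, R, -, -, k, hk, h5⟩ := hG
  exact ⟨R, k, hk, h5⟩

theorem main [FiniteDimensional ℝ B] {h : Equiv.Perm (B × ℝ)} (hn : h ∈ ⁅GG B, GG B⁆) :
    ∃ T₀, ∃ k : Equiv.Perm B, Top T₀ k h ∧ ∀ T, T₀ ≤ T →
      RR T k h ∈ ⁅PLc (B × ℝ), PLc (B × ℝ)⁆ := by
  rw [Subgroup.commutator_def] at hn
  refine Subgroup.closure_induction (p := fun h _ => ∃ T₀, ∃ k : Equiv.Perm B, Top T₀ k h ∧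
    ∀ T, T₀ ≤ T → RR T k h ∈ ⁅PLc (B × ℝ), PLc (B × ℝ)⁆) ?_ ?_ ?_ ?_ hn
  · rintro h ⟨a, ha, b, hb, rfl⟩
    obtain ⟨T₁, k₁, hk₁, H₁⟩ := exists_top ha
    obtain ⟨T₂, k₂, hk₂, H₂⟩ := exists_top hb
    have H₁' := H₁.mono (le_max_left T₁ T₂)
    have H₂' := H₂.mono (le_max_right T₁ T₂)
    refine ⟨max T₁ T₂, k₁ * k₂ * k₁⁻¹ * k₂⁻¹, ((H₁'.mul H₂').mul H₁'.inv).mul H₂'.inv,
      fun T hT => ?_⟩
    have G₁ := H₁'.mono hT
    have G₂ := H₂'.mono hT
    have e : RR T (k₁ * k₂ * k₁⁻¹ * k₂⁻¹) (a * b * a⁻¹ * b⁻¹) =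
        RR T k₁ a * RR T k₂ b * (RR T k₁ a)⁻¹ * (RR T k₂ b)⁻¹ := by
      rw [RR_mul ((G₁.mul G₂).mul G₁.inv) G₂.inv, RR_mul (G₁.mul G₂) G₁.inv, RR_mul G₁ G₂,
        RR_inv G₁, RR_inv G₂]
    have e2 := Subgroup.commutator_mem_commutator (RR_mem hk₁ ha G₁) (RR_mem hk₂ hb G₂)
    rw [commutatorElement_def] at e2
    rw [← e] at e2
    exact e2
  · refine ⟨0, 1, Top.one 0, fun T _ => ?_⟩
    rw [RR_one]
    exact one_mem _
  · rintro h h' - - ⟨T₁, k₁, H₁, h₁⟩ ⟨T₂, k₂, H₂, h₂⟩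
    have H₁' := H₁.mono (le_max_left T₁ T₂)
    have H₂' := H₂.mono (le_max_right T₁ T₂)
    refine ⟨max T₁ T₂, k₁ * k₂, H₁'.mul H₂', fun T hT => ?_⟩
    rw [RR_mul (H₁'.mono hT) (H₂'.mono hT)]
    exact mul_mem (h₁ T ((le_max_left _ _).trans hT)) (h₂ T ((le_max_right _ _).trans hT))
  · rintro h - ⟨T₁, k₁, H₁, h₁⟩
    refine ⟨T₁, k₁⁻¹, H₁.inv, fun T hT => ?_⟩
    rw [RR_inv (H₁.mono hT)]
    exact inv_mem (h₁ T hT)

end L04

variable [FiniteDimensional ℝ B]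

theorem cutoff_mem {h : Equiv.Perm (B × ℝ)} (hh : h ∈ PLc (B × ℝ)) (hn : h ∈ ⁅GG B, GG B⁆) :
    h ∈ ⁅PLc (B × ℝ), PLc (B × ℝ)⁆ := by
  obtain ⟨T₀, k, H, h1⟩ := L04.main hn
  obtain ⟨-, -, R, hR⟩ := hh
  have hk : k = 1 := by
    refine Equiv.ext fun x => ?_
    have h2 := H x (max T₀ (R + 1)) (le_max_left _ _)
    have h3 : R < ‖(x, max T₀ (R + 1))‖ := by
      rw [Prod.norm_def]
      refine lt_of_lt_of_le ?_ (le_max_right _ _)
      rw [Real.norm_eq_abs]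
      exact lt_of_lt_of_le (by linarith [le_max_right T₀ (R + 1)]) (le_abs_self _)
    rw [hR _ h3] at h2
    exact (congrArg Prod.fst h2).symm
  have h4 := h1 T₀ le_rfl
  rw [hk, L04.RR_one] at h4
  exact h4

end PLH
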