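import Pool.Agent.Lib.MP_6a1069_gt.PP.L01
import Pool.Agent.Lib.MP_6a1069_gt.Alex

/-!
L05: the cone homomorphism `PLc B →* GG B`.

Proof.  `kᶜ y = k (y + c) - c` is in `PLc B` for `k ∈ PLc B`, and `coneFun c k s x =
c + alexFun kᶜ (x - c, s)`.  For fixed `s` the map `coneFun c k s` is a permutation of `B` with inverse
`coneFun c k⁻¹ s`, and `coneFun c (k * k') s = coneFun c k s ∘ coneFun c k' s` (direct computation,
`s ≤ 0` and `0 < s`).  `(x, t) ↦ coneFun c k (θ t) x` is PL: `alexFun_PL` composed with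
`(x, t) ↦ (x - c, θ t)`.  Support: if `k x = x` for `R₀ < ‖x‖` then `coneFun c k s x = x` for
`0 ≤ s ≤ 1` and `‖x‖ > R₀ + 2 ‖c‖` (`‖c + s⁻¹ • (x - c)‖ ≥ s⁻¹ ‖x - c‖ - ‖c‖ ≥ ‖x‖ - 2 ‖c‖`).
Membership in `GG B`: `mem_GG_of` with the maximum of `R` and `R₀ + 2 ‖c‖`; for `t < -R`: `θ t = 0`,
the cone is the identity; for `t ≥ R`: `θ t = θ R`.
`exists_cone`: a ramp satisfies the hypotheses of `exists_coneHom` (PL: `IsPL.min`, `IsPL.max`,
`IsPL.div_const`; values in `[0, 1]`; `R = |r| + e` or `|r| + e + |r'| + e'`).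
`hom_mem_comm`: `Subgroup.map_commutator` and `Subgroup.map_subtype_commutator` (compare
`PLH.countable_ab`).  `coneIn_comm`: `g = Φ k` by extensionality, `VPc V ≤ PLc B`.
-/

namespace PLH

variable {B : Type*} [NormedAddCommGroup B] [NormedSpace ℝ B] [FiniteDimensional ℝ B]

omit [FiniteDimensional ℝ B] in
theorem L05_comp (c : B) (k k' : B → B) (s : ℝ) (x : B) :
    coneFun c (fun y => k (k' y)) s x = coneFun c k s (coneFun c k' s x) := by
  unfold coneFun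
  by_cases hs : s ≤ 0
  · rw [if_pos hs, if_pos hs, if_pos hs]
  · rw [if_neg hs, if_neg hs, if_neg hs]
    push Not at hs
    rw [add_sub_cancel_left c (s • (k' (c + s⁻¹ • (x - c)) - c)), smul_smul, inv_mul_cancel₀ hs.ne',
      one_smul, add_sub_cancel]

omit [FiniteDimensional ℝ B] in
theorem L05_id (c : B) (s : ℝ) (x : B) : coneFun c (fun y => y) s x = x := by
  unfold coneFun
  by_cases hs : s ≤ 0
  · rw [if_pos hs]
  · rw [if_neg hs]
    push Not at hs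
    rw [add_sub_cancel_left, smul_smul, mul_inv_cancel₀ hs.ne', one_smul, add_sub_cancel]

/-- the cone as a permutation -/
noncomputable def L05_perm (c : B) (k : Equiv.Perm B) (θ : ℝ → ℝ) : Equiv.Perm (B × ℝ) where
  toFun p := (coneFun c k (θ p.2) p.1, p.2)
  invFun p := (coneFun c (⇑k⁻¹) (θ p.2) p.1, p.2)
  left_inv p := by
    refine Prod.ext ?_ rfl
    show coneFun c (⇑k⁻¹) (θ p.2) (coneFun c k (θ p.2) p.1) = p.1
    rw [← L05_comp]
    have : (fun y => k⁻¹ (k y)) = fun y => y := by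
      funext y; exact k.symm_apply_apply y
    rw [this, L05_id]
  right_inv p := by
    refine Prod.ext ?_ rfl
    show coneFun c k (θ p.2) (coneFun c (⇑k⁻¹) (θ p.2) p.1) = p.1
    rw [← L05_comp]
    have : (fun y => k (k⁻¹ y)) = fun y => y := by
      funext y; exact k.apply_symm_apply y
    rw [this, L05_id]

theorem L05_isPL (c : B) {k : B → B} (hk : IsPL k) {R : ℝ} (hR : ∀ x, R < ‖x‖ → k x = x)
    {θ : ℝ → ℝ} (hθ : IsPL θ) : IsPL (fun p : B × ℝ => (coneFun c k (θ p.2) p.1, p.2)) := by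
  have h1 : IsPL (fun y : B => k (y + c) - c) :=
    (hk.comp (IsPL.id.add (IsPL.const c))).sub (IsPL.const c)
  have h2 : ∀ y, R + ‖c‖ < ‖y‖ → (fun y : B => k (y + c) - c) y = y := by
    intro y hy
    show k (y + c) - c = y
    have h3 : ‖y‖ ≤ ‖y + c‖ + ‖c‖ := by
      calc ‖y‖ = ‖(y + c) - c‖ := by rw [add_sub_cancel_right]
        _ ≤ _ := norm_sub_le _ _
    rw [hR _ (by linarith), add_sub_cancel_right]
  have h3 := alexFun_PL h1 h2
  have h4 : IsPL (fun p : B × ℝ => c + alexFun (fun y : B => k (y + c) - c) (p.1 - c, θ p.2)) :=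
    (IsPL.const c).add (h3.comp ((IsPL.fst.sub (IsPL.const c)).prodMk (hθ.comp IsPL.snd)))
  refine (h4.prodMk IsPL.snd).congr ?_
  intro p
  refine Prod.ext ?_ rfl
  show coneFun c k (θ p.2) p.1 = c + alexFun (fun y : B => k (y + c) - c) (p.1 - c, θ p.2)
  unfold coneFun alexFun
  by_cases hs : θ p.2 ≤ 0
  · rw [if_pos hs, if_pos hs, add_sub_cancel]
  · rw [if_neg hs, if_neg hs]
    show c + θ p.2 • (k (c + (θ p.2)⁻¹ • (p.1 - c)) - c) =
      c + θ p.2 • (k ((θ p.2)⁻¹ • (p.1 - c) + c) - c)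
    rw [add_comm c ((θ p.2)⁻¹ • (p.1 - c))]

omit [FiniteDimensional ℝ B] in
theorem L05_supp (c : B) {k : B → B} {R : ℝ} (hR : ∀ x, R < ‖x‖ → k x = x) {s : ℝ} (hs1 : s ≤ 1)
    {x : B} (hx : R + 2 * ‖c‖ < ‖x‖) (hR0 : 0 ≤ R) : coneFun c k s x = x := by
  unfold coneFun
  by_cases hs : s ≤ 0
  · rw [if_pos hs]
  · rw [if_neg hs]
    push Not at hs
    have h1 : ‖x‖ ≤ ‖x - c‖ + ‖c‖ := by
      calc ‖x‖ = ‖(x - c) + c‖ := by rw [sub_add_cancel]
        _ ≤ _ := norm_add_le _ _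
    have h2 : ‖s⁻¹ • (x - c)‖ ≤ ‖c + s⁻¹ • (x - c)‖ + ‖c‖ := by
      calc ‖s⁻¹ • (x - c)‖ = ‖(c + s⁻¹ • (x - c)) - c‖ := by rw [add_sub_cancel_left]
        _ ≤ _ := norm_sub_le _ _
    have h3 : ‖x - c‖ ≤ ‖s⁻¹ • (x - c)‖ := by
      rw [norm_smul, Real.norm_eq_abs, abs_of_pos (inv_pos.2 hs)]
      have : 1 ≤ s⁻¹ := (one_le_inv₀ hs).2 hs1
      nlinarith [norm_nonneg (x - c)]
    rw [hR _ (by linarith), add_sub_cancel_left, smul_smul, mul_inv_cancel₀ hs.ne', one_smul,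
      add_sub_cancel]

theorem exists_coneHom (c : B) (θ : ℝ → ℝ) (hθ : IsPL θ) (h0 : ∀ t, 0 ≤ θ t) (h1 : ∀ t, θ t ≤ 1)
    (R : ℝ) (hlow : ∀ t, t < -R → θ t = 0) (htop : ∀ t, R ≤ t → θ t = θ R) :
    ∃ Φ : ↥(PLc B) →* ↥(GG B), ∀ (k : ↥(PLc B)) (x : B) (t : ℝ),
      (Φ k : Equiv.Perm (B × ℝ)) (x, t) = (coneFun c (k : Equiv.Perm B) (θ t) x, t) := by
  have hmem : ∀ k : Equiv.Perm B, k ∈ PLc B → L05_perm c k θ ∈ GG B := by
    rintro k ⟨hk1, hk2, R0, hR0⟩
    have hR0' : ∀ x, |R0| < ‖x‖ → k x = x := fun x hx => hR0 x ((le_abs_self _).trans_lt hx)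
    have hR0'' : ∀ x, |R0| < ‖x‖ → k⁻¹ x = x := by
      intro x hx
      rw [Equiv.Perm.inv_eq_iff_eq]; exact (hR0' x hx).symm
    refine mem_GG_of (L05_isPL c hk1 hR0' hθ) (L05_isPL c hk2 hR0'' hθ) (fun x => rfl)
      (max R (|R0| + 2 * ‖c‖)) ?_ ?_ ?_
    · intro x hx
      exact Prod.ext (L05_supp c hR0' (h1 _) ((le_max_right _ _).trans_lt hx) (abs_nonneg _)) rfl
    · intro x hx
      refine Prod.ext ?_ rfl
      show coneFun c k (θ x.2) x.1 = x.1
      rw [hlow x.2 (by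
        have := le_max_left R (|R0| + 2 * ‖c‖)
        linarith)]
      unfold coneFun
      rw [if_pos le_rfl]
    · intro x t ht
      show coneFun c k (θ t) x = coneFun c k (θ (max R (|R0| + 2 * ‖c‖))) x
      rw [htop t ((le_max_left _ _).trans ht), htop _ (le_max_left _ _)]
  refine ⟨{ toFun := fun k => ⟨L05_perm c (k : Equiv.Perm B) θ, hmem _ k.2⟩, map_one' := ?_,
            map_mul' := ?_ }, fun k x t => rfl⟩
  · refine Subtype.ext (Equiv.ext fun p => ?_)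
    refine Prod.ext ?_ rfl
    exact L05_id c (θ p.2) p.1
  · intro k k'
    refine Subtype.ext (Equiv.ext fun p => ?_)
    refine Prod.ext ?_ rfl
    exact L05_comp c (k : Equiv.Perm B) (k' : Equiv.Perm B) (θ p.2) p.1

theorem L05_ramp {θ : ℝ → ℝ} (hθ : IsRamp θ) : IsPL θ ∧ (∀ t, 0 ≤ θ t) ∧ (∀ t, θ t ≤ 1) ∧
    ∃ R : ℝ, (∀ t, t < -R → θ t = 0) ∧ ∀ t, R ≤ t → θ t = θ R := by
  rcases hθ with ⟨r, e, he, h⟩ | ⟨r, e, r', e', he, he', hre, h⟩
  · have hPL : IsPL (fun t : ℝ => min (max ((t - r) / e) 0) 1) :=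
      (((IsPL.id.sub (IsPL.const r)).div_const e).max (IsPL.const 0)).min (IsPL.const 1)
    refine ⟨hPL.congr h, fun t => ?_, fun t => ?_, |r| + e, fun t ht => ?_, fun t ht => ?_⟩
    · rw [h]; exact le_min (le_max_right _ _) zero_le_one
    · rw [h]; exact min_le_right _ _
    · rw [h]
      have h1 : t - r ≤ 0 := by
        have := neg_abs_le r
        linarith
      rw [max_eq_right (div_nonpos_of_nonpos_of_nonneg h1 he.le), min_eq_left zero_le_one]
    · have key : ∀ t, |r| + e ≤ t → min (max ((t - r) / e) 0) 1 = (1 : ℝ) := by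
        intro t ht
        rw [min_eq_right]
        refine le_max_of_le_left ?_
        rw [le_div_iff₀ he]
        have := le_abs_self r
        linarith
      rw [h, h, key t ht, key _ le_rfl]
  · have hPL : IsPL (fun t : ℝ => min (min (max ((t - r) / e) 0) 1) (min (max ((r' - t) / e') 0) 1)) :=
      ((((IsPL.id.sub (IsPL.const r)).div_const e).max (IsPL.const 0)).min (IsPL.const 1)).min
        (((((IsPL.const r').sub IsPL.id).div_const e').max (IsPL.const 0)).min (IsPL.const 1))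
    have hnn : ∀ t, (0 : ℝ) ≤ min (min (max ((t - r) / e) 0) 1) (min (max ((r' - t) / e') 0) 1) :=
      fun t => le_min (le_min (le_max_right _ _) zero_le_one) (le_min (le_max_right _ _) zero_le_one)
    refine ⟨hPL.congr h, fun t => ?_, fun t => ?_, |r| + e + |r'| + e', fun t ht => ?_, fun t ht => ?_⟩
    · rw [h]; exact hnn t
    · rw [h]; exact (min_le_left _ _).trans (min_le_right _ _)
    · rw [h]
      have h1 : t - r ≤ 0 := by
        have := neg_abs_le r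
        have := abs_nonneg r'
        linarith
      refine le_antisymm ?_ (hnn t)
      refine (min_le_left _ _).trans ?_
      rw [max_eq_right (div_nonpos_of_nonpos_of_nonneg h1 he.le), min_eq_left zero_le_one]
    · have key : ∀ t, |r| + e + |r'| + e' ≤ t →
          min (min (max ((t - r) / e) 0) 1) (min (max ((r' - t) / e') 0) 1) = (0 : ℝ) := by
        intro t ht
        refine le_antisymm ?_ (hnn t)
        refine (min_le_right _ _).trans ?_
        have h1 : r' - t ≤ 0 := by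
          have := le_abs_self r'
          have := abs_nonneg r
          linarith
        rw [max_eq_right (div_nonpos_of_nonpos_of_nonneg h1 he'.le), min_eq_left zero_le_one]
      rw [h, h, key t ht, key _ le_rfl]

/-- the cones over elements of `PLc B` with ramps are in `GG B` -/
theorem exists_cone (c : B) {k : Equiv.Perm B} (hk : k ∈ PLc B) {θ : ℝ → ℝ} (hθ : IsRamp θ) :
    ∃ g ∈ GG B, ∀ x t, g (x, t) = (coneFun c k (θ t) x, t) := by
  obtain ⟨h1, h2, h3, R, h4, h5⟩ := L05_ramp hθ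
  obtain ⟨Φ, hΦ⟩ := exists_coneHom c θ h1 h2 h3 R h4 h5
  exact ⟨(Φ ⟨k, hk⟩ : Equiv.Perm (B × ℝ)), (Φ ⟨k, hk⟩).2, fun x t => hΦ ⟨k, hk⟩ x t⟩

omit [FiniteDimensional ℝ B] in
theorem L05_hom (Φ : ↥(PLc B) →* ↥(GG B)) {k : Equiv.Perm B} (hk : k ∈ PLc B)
    (hk' : k ∈ ⁅PLc B, PLc B⁆) : (Φ ⟨k, hk⟩ : Equiv.Perm (B × ℝ)) ∈ ⁅GG B, GG B⁆ := by
  have h1 : k ∈ (_root_.commutator ↥(PLc B)).map (PLc B).subtype := by
    rw [Subgroup.map_subtype_commutator]; exact hk'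
  obtain ⟨k1, hk1, hk2⟩ := h1
  have h2 : k1 = ⟨k, hk⟩ := Subtype.ext hk2
  rw [h2] at hk1
  have h3 : Φ ⟨k, hk⟩ ∈ (_root_.commutator ↥(PLc B)).map Φ := Subgroup.mem_map_of_mem Φ hk1
  have h4 : (_root_.commutator ↥(PLc B)).map Φ ≤ _root_.commutator ↥(GG B) := by
    rw [commutator_def, commutator_def, Subgroup.map_commutator]
    exact Subgroup.commutator_mono le_top le_top
  have h5 := Subgroup.mem_map_of_mem (GG B).subtype (h4 h3)
  rw [Subgroup.map_subtype_commutator] at h5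
  exact h5

/-- a homomorphism maps the commutator subgroup to the commutator subgroup -/
theorem hom_mem_comm (Φ : ↥(PLc B) →* ↥(GG B)) {k : Equiv.Perm B} (hk : k ∈ PLc B)
    (hk' : k ∈ ⁅PLc B, PLc B⁆) : (Φ ⟨k, hk⟩ : Equiv.Perm (B × ℝ)) ∈ ⁅GG B, GG B⁆ :=
  L05_hom Φ hk hk'

theorem coneIn_comm {V : Submodule ℝ B} (hV : VPc V ≤ ⁅PLc B, PLc B⁆) :
    ConeIn ⁅GG B, GG B⁆ V := by
  rintro g hg ⟨c, k, θ, hk, hθ, hgx⟩
  obtain ⟨h1, h2, h3, R, h4, h5⟩ := L05_ramp hθ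
  obtain ⟨Φ, hΦ⟩ := exists_coneHom c θ h1 h2 h3 R h4 h5
  have h6 : g = (Φ ⟨k, hk.1⟩ : Equiv.Perm (B × ℝ)) := by
    refine Equiv.ext ?_
    rintro ⟨x, t⟩
    rw [hgx, hΦ]
  rw [h6]
  exact hom_mem_comm Φ hk.1 (hV hk)

end PLH
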