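import Pool.Agent.Lib.MP_6a1069_gt.PP.L05
import Pool.Agent.Lib.MP_6a1069_gt.LinP

/-!
L06: elements of `GG B` which preserve the lines parallel to `(u, 0)` are in `⁅GG B, GG B⁆`.

Proof.  If `u = 0` then `g = 1`.  Let `u ≠ 0`.  From `hg` take `R` and the top `k ∈ PLc B`,
`g (x, t) = (k x, t)` for `t ≥ R`; enlarge `R` to be `≥ 0`.  By `hu`, `k x = x + s • u` for some `s`,
so `k ∈ LPc u ≤ ⁅LPc u, LPc u⁆ ≤ ⁅PLc B, PLc B⁆` (`LPc_le`, `Subgroup.commutator_mono`).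
Let `Φ` be the cone homomorphism (`exists_coneHom`) for `c = 0`, `θ t = min (max (t - R) 0) 1` and the
radius `R + 1`.  `Φ k ∈ ⁅GG B, GG B⁆` (`hom_mem_comm`).  Put `g' = g * (Φ k)⁻¹`.  It is in `GG B`, it is
`(x, t) ↦ (x, t)` for `t ≥ R + 1` (there `Φ k (x, t) = (k x, t)`, as `θ t = 1`), so `g' ∈ PLc (B × ℝ)`:
PL, PL inverse, identity outside a ball.  `Φ k` preserves the lines parallel to `(u, 0)`:
`coneFun 0 k s x = s • k (s⁻¹ • x) = s • (s⁻¹ • x + a • u) = x + (s * a) • u`; so does its inverse and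
so does `g'`.  Hence `g' ∈ LPc (u, 0) ≤ ⁅LPc (u, 0), LPc (u, 0)⁆ ≤ ⁅GG B, GG B⁆` (`LPc_le`,
`PLc_le_GG`).  So `g = g' * Φ k` is in `⁅GG B, GG B⁆`.
-/

namespace PLH

variable {B : Type*} [NormedAddCommGroup B] [NormedSpace ℝ B] [FiniteDimensional ℝ B]

omit [FiniteDimensional ℝ B] in
theorem L06_cone {k : B → B} {u : B} (hk : ∀ x, ∃ s : ℝ, k x = x + s • u) (s : ℝ) (x : B) :
    ∃ a : ℝ, coneFun 0 k s x = x + a • u := by
  unfold coneFun
  by_cases hs : s ≤ 0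
  · rw [if_pos hs]
    exact ⟨0, by rw [zero_smul, add_zero]⟩
  · rw [if_neg hs]
    push Not at hs
    obtain ⟨a, ha⟩ := hk (0 + s⁻¹ • (x - 0))
    refine ⟨s * a, ?_⟩
    rw [ha, zero_add, zero_add, sub_zero, sub_zero, smul_add, smul_smul, mul_inv_cancel₀ hs.ne',
      one_smul, smul_smul]

theorem line_mem {g : Equiv.Perm (B × ℝ)} (hg : g ∈ GG B) (u : B)
    (hu : ∀ x, ∃ s : ℝ, g x = x + s • ((u, 0) : B × ℝ)) : g ∈ ⁅GG B, GG B⁆ := by
  by_cases hu0 : u = 0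
  · have h1 : g = 1 := by
      refine Equiv.ext fun x => ?_
      obtain ⟨s, hs⟩ := hu x
      rw [hs, hu0]
      show x + s • (0 : B × ℝ) = x
      rw [smul_zero, add_zero]
    rw [h1]; exact one_mem _
  have hgG := hg
  obtain ⟨hg1, hg2, R0, h1, h2, k, hk, h3⟩ := hg
  obtain ⟨R, hR0, hR⟩ : ∃ R : ℝ, R0 ≤ R ∧ 0 ≤ R := ⟨max R0 0, le_max_left _ _, le_max_right _ _⟩
  have hkl : ∀ x, ∃ s : ℝ, k x = x + s • u := by
    intro x
    obtain ⟨s, hs⟩ := hu (x, R)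
    rw [h3 x R hR0] at hs
    exact ⟨s, congrArg Prod.fst hs⟩
  have hkL : k ∈ LPc u := ⟨hk, hkl⟩
  have hLP : LPc u ≤ PLc B := fun h hh => hh.1
  have hkc : k ∈ ⁅PLc B, PLc B⁆ := Subgroup.commutator_mono hLP hLP (LPc_le hu0 hkL)
  have hθ : IsPL (fun t : ℝ => min (max (t - R) 0) 1) :=
    ((IsPL.id.sub (IsPL.const R)).max (IsPL.const 0)).min (IsPL.const 1)
  have hθ1 : ∀ t, R + 1 ≤ t → min (max (t - R) 0) 1 = (1 : ℝ) := by
    intro t ht
    rw [min_eq_right]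
    exact le_max_of_le_left (by linarith)
  obtain ⟨Φ, hΦ⟩ := exists_coneHom (0 : B) (fun t : ℝ => min (max (t - R) 0) 1) hθ
    (fun t => le_min (le_max_right _ _) zero_le_one) (fun t => min_le_right _ _) (R + 1)
    (fun t ht => by
      show min (max (t - R) 0) 1 = (0 : ℝ)
      rw [max_eq_right (by linarith), min_eq_left zero_le_one])
    (fun t ht => by
      show min (max (t - R) 0) 1 = min (max (R + 1 - R) 0) (1 : ℝ)
      rw [hθ1 t ht, hθ1 (R + 1) le_rfl])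
  have hΦc := hom_mem_comm Φ hk hkc
  have hcG : (Φ ⟨k, hk⟩ : Equiv.Perm (B × ℝ)) ∈ GG B := (Φ ⟨k, hk⟩).2
  have hcapp : ∀ (x : B) (t : ℝ), (Φ ⟨k, hk⟩ : Equiv.Perm (B × ℝ)) (x, t) =
      (coneFun 0 k (min (max (t - R) 0) 1) x, t) := fun x t => hΦ ⟨k, hk⟩ x t
  generalize (Φ ⟨k, hk⟩ : Equiv.Perm (B × ℝ)) = c at hΦc hcG hcapp
  -- lines
  have hcl : ∀ z, ∃ s : ℝ, c z = z + s • ((u, 0) : B × ℝ) := by
    rintro ⟨x, t⟩
    obtain ⟨a, ha⟩ := L06_cone hkl (min (max (t - R) 0) 1) x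
    refine ⟨a, ?_⟩
    rw [hcapp, ha]
    refine Prod.ext rfl ?_
    show t = t + a • (0 : ℝ)
    rw [smul_zero, add_zero]
  have htop : ∀ (x : B) (t : ℝ), R + 1 ≤ t → c (x, t) = (k x, t) := by
    intro x t ht
    rw [hcapp, hθ1 t ht]
    unfold coneFun
    rw [if_neg (by norm_num), inv_one, one_smul, one_smul, sub_zero, sub_zero, zero_add, zero_add]
  have hg'G : g * c⁻¹ ∈ GG B := mul_mem hgG (inv_mem hcG)
  have hg'top : ∀ (y : B) (t : ℝ), R + 1 ≤ t → (g * c⁻¹) (y, t) = (y, t) := by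
    intro y t ht
    have e1 : c (k⁻¹ y, t) = (y, t) := by
      rw [htop _ t ht]
      exact Prod.ext (k.apply_symm_apply y) rfl
    have e2 : c⁻¹ (y, t) = (k⁻¹ y, t) := by
      rw [Equiv.Perm.inv_eq_iff_eq]; exact e1.symm
    show g (c⁻¹ (y, t)) = (y, t)
    rw [e2, h3 _ t (by linarith)]
    exact Prod.ext (k.apply_symm_apply y) rfl
  have hg'l : ∀ z, ∃ s : ℝ, (g * c⁻¹) z = z + s • ((u, 0) : B × ℝ) := by
    intro z
    obtain ⟨s, hs⟩ := hcl (c⁻¹ z)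
    have e1 : c (c⁻¹ z) = z := c.apply_symm_apply z
    rw [e1] at hs
    obtain ⟨s', hs'⟩ := hu (c⁻¹ z)
    refine ⟨s' - s, ?_⟩
    show g (c⁻¹ z) = _
    rw [hs', sub_smul]
    nth_rewrite 2 [hs]
    abel
  have hg'P : g * c⁻¹ ∈ PLc (B × ℝ) := by
    obtain ⟨a1, a2, R1, a3, a4, k', hk', a5⟩ := hg'G
    refine ⟨a1, a2, max R1 (R + 1), ?_⟩
    intro z hz
    rw [Prod.norm_def, lt_max_iff] at hz
    rcases hz with hz | hz
    · exact a3 z ((le_max_left _ _).trans_lt hz)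
    · rw [Real.norm_eq_abs, lt_abs] at hz
      rcases hz with hz | hz
      · have := hg'top z.1 z.2 ((le_max_right _ _).trans hz.le)
        exact this
      · exact a4 z (by
          have := (le_max_left R1 (R + 1)).trans_lt hz
          linarith)
  have hune : ((u, 0) : B × ℝ) ≠ 0 := fun h0 => hu0 (congrArg Prod.fst h0)
  have hLP' : LPc ((u, 0) : B × ℝ) ≤ GG B := fun h hh => PLc_le_GG hh.1
  have hg'c : g * c⁻¹ ∈ ⁅GG B, GG B⁆ :=
    Subgroup.commutator_mono hLP' hLP' (LPc_le hune ⟨hg'P, hg'l⟩)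
  have hfin : g = (g * c⁻¹) * c := by group
  rw [hfin]
  exact mul_mem hg'c hΦc

end PLH
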