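import Pool.Agent.Lib.MP_6a1069_gt.PP.L03
import Pool.Agent.Lib.MP_6a1069_gt.PP.L06

/-!
L07: the elementary step, translation case.

Proof.  `E`, `F` from `hA`: `h` stopped at `τ`, `σ`.  `mτ`, `mσ` from `exists_shear` (with the vector
`u`), `P = mσ⁻¹ * mτ`.  Write `s₀ = min t (τ y)`; if `P (y, t) = (x, t)` then with `s₁ = min t (σ x)`:
`x - s₁ • u = y - s₀ • u`, so `x = y + β • u`, `β = s₁ - s₀`.
(a) `β ≥ 0`: `s₁ ≥ min t (τ x) ≥ s₀ - l ‖x - y‖ = s₀ - l ‖u‖ |β|`, and `l ‖u‖ < 1`.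
(b) if `β > 0` then `s₀ = τ y < t` (else `s₀ = t ≥ s₁`), and for all `s' ∈ [0, β]` the point
`(y + s' • u, s₀ + s')` is in `Reg τ σ`: `τ (y + s' u) ≤ τ y + l ‖u‖ s' ≤ s₀ + s'`, strict for
`s' > 0`; `σ (y + s' u) ≥ σ x - l ‖u‖ (β - s') ≥ s₁ - (β - s') = s₀ + s'`, strict for `s' < β`; so
`τ < σ` at `y + s' u` (one of the two inequalities is strict as `β > 0`).
(c) hence by `hI` with `z = (y, s₀)`: `h (x, s₁) = h (y, s₀) + β • (u', 1)`; so
`F (P (y, t)) = E (y, t) + β • (u', 0)`.
(d) `P ∈ GG B` by `mem_GG_of`: PL with PL inverse; it preserves levels.  Let `M` bound `|τ|`, `|σ|` on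
the ball of radius `R` (compact), `R' = max R M + 1`.  If `‖y‖ > R` then `τ y = σ y`, so
`mσ (y, t) = mτ (y, t)` and `P (y, t) = (y, t)`.  If `t < -R'` and `‖y‖ ≤ R` then
`min t (τ y) = t = min t (σ y)`, again `P (y, t) = (y, t)`.  If `t ≥ R'` and `‖y‖ ≤ R`: let
`x = (P (y, R')).1`.  If `‖x‖ > R` then `mτ (x, R') = mσ (x, R') = mτ (y, R')`, so `x = y`, a
contradiction; so `‖x‖ ≤ R` and `min t (σ x) = σ x = min R' (σ x)`, `min t (τ y) = τ y = min R' (τ y)`:
`mσ (x, t) = mτ (y, t)`, that is, `P (y, t) = (x, t)`.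
(e) `P` preserves the lines parallel to `(u, 0)`, so `P ∈ ⁅GG, GG⁆` (`line_mem`).  `A = F * P * E⁻¹` is
in `GG B` and `A q - q` is a multiple of `(u', 0)` by (c), so `A ∈ ⁅GG, GG⁆`.  `F = A * E * P⁻¹`:
`Cong.mk'` (everything in `⁅GG, GG⁆ ≤ M`).
-/

namespace PLH

variable {B : Type*} [NormedAddCommGroup B] [NormedSpace ℝ B] [FiniteDimensional ℝ B]

omit [FiniteDimensional ℝ B] in
/-- the key computation for `P = mσ⁻¹ * mτ` -/
private theorem L07_key {h : Equiv.Perm (B × ℝ)} {l : ℝ} {u u' : B} (hl : 0 ≤ l)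
    (hu : l * ‖u‖ < 1) {τ σ : B → ℝ} (hτ : TL l τ) (hσ : TL l σ) (hle : ∀ x, τ x ≤ σ x)
    (hI : Inv (h : B × ℝ → B × ℝ) (Reg τ σ) u u') {x y : B} {t : ℝ}
    (e : x - min t (σ x) • u = y - min t (τ y) • u) :
    x = y + (min t (σ x) - min t (τ y)) • u ∧
      h (x, min t (σ x)) = h (y, min t (τ y)) +
        (min t (σ x) - min t (τ y)) • ((u', 1) : B × ℝ) := by
  have hx : x = y + (min t (σ x) - min t (τ y)) • u := by
    rw [sub_smul, ← sub_eq_zero]
    rw [← sub_eq_zero] at e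
    rw [← e]
    abel
  refine ⟨hx, ?_⟩
  obtain ⟨β, hβ⟩ : ∃ β, β = min t (σ x) - min t (τ y) := ⟨_, rfl⟩
  rw [← hβ] at hx ⊢
  have hxy : ‖x - y‖ = |β| * ‖u‖ := by
    rw [hx, add_sub_cancel_left, norm_smul, Real.norm_eq_abs]
  -- (a)
  have ha : 0 ≤ β := by
    by_contra hneg
    push Not at hneg
    have h1 := hτ.2 x y
    rw [hxy, abs_of_neg hneg] at h1
    have h2 : τ y - l * (-β * ‖u‖) ≤ τ x := by
      have := (abs_le.1 h1).1
      linarith
    have h3 : min t (τ y) - l * (-β * ‖u‖) ≤ min t (σ x) := by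
      apply le_min
      · have h4 : 0 ≤ l * (-β * ‖u‖) :=
          mul_nonneg hl (mul_nonneg (by linarith) (norm_nonneg _))
        linarith [min_le_left t (τ y)]
      · linarith [min_le_right t (τ y), hle x]
    have h5 : l * (-β * ‖u‖) = -β * (l * ‖u‖) := by ring
    rw [h5] at h3
    have h6 : -β * (l * ‖u‖) < -β * 1 := mul_lt_mul_of_pos_left hu (by linarith)
    linarith
  rcases ha.eq_or_lt with h0 | hpos
  · rw [← h0, zero_smul, add_zero] at hx
    rw [← h0, zero_smul, add_zero]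
    have e3 : min t (σ x) = min t (τ y) := by linarith
    rw [e3, hx]
  · have hty : τ y < t := by
      by_contra hcon
      push Not at hcon
      rw [min_eq_left hcon] at hβ
      linarith [min_le_left t (σ x)]
    have hs0 : min t (τ y) = τ y := min_eq_right hty.le
    have hs1 : min t (σ x) = τ y + β := by rw [hs0] at hβ; linarith
    rw [hs1, hs0]
    have hmain := hI (y, τ y) β ha ?_
    · rw [← hmain]
      congr 1
      refine Prod.ext ?_ ?_
      · show x = y + β • u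
        exact hx
      · show τ y + β = τ y + β • (1 : ℝ)
        rw [smul_eq_mul, mul_one]
    · rintro s' ⟨hs'0, hs'1⟩
      have hlu : 0 ≤ l * ‖u‖ := mul_nonneg hl (norm_nonneg _)
      have t1 : τ (y + s' • u) ≤ τ y + l * ‖u‖ * s' := by
        have h1 := hτ.2 (y + s' • u) y
        rw [add_sub_cancel_left, norm_smul, Real.norm_eq_abs, abs_of_nonneg hs'0] at h1
        have h2 := (abs_le.1 h1).2
        have h3 : l * (s' * ‖u‖) = l * ‖u‖ * s' := by ring
        linarith
      have t2 : σ x - l * ‖u‖ * (β - s') ≤ σ (y + s' • u) := by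
        have h1 := hσ.2 x (y + s' • u)
        have e4 : x - (y + s' • u) = (β - s') • u := by
          rw [hx, sub_smul]
          abel
        rw [e4, norm_smul, Real.norm_eq_abs, abs_of_nonneg (show (0 : ℝ) ≤ β - s' by linarith)] at h1
        have h2 := (abs_le.1 h1).2
        have h3 : l * ((β - s') * ‖u‖) = l * ‖u‖ * (β - s') := by ring
        linarith
      have t3 : τ y + β ≤ σ x := by
        rw [← hs1]
        exact min_le_right _ _
      have t4 : l * ‖u‖ * s' ≤ 1 * s' := mul_le_mul_of_nonneg_right hu.le hs'0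
      have t5 : l * ‖u‖ * (β - s') ≤ 1 * (β - s') :=
        mul_le_mul_of_nonneg_right hu.le (by linarith)
      have e1 : ((y, τ y) : B × ℝ) + s' • ((u, 1) : B × ℝ) = (y + s' • u, τ y + s') := by
        refine Prod.ext rfl ?_
        show τ y + s' • (1 : ℝ) = τ y + s'
        rw [smul_eq_mul, mul_one]
      rw [e1]
      refine ⟨?_, ?_, ?_⟩
      · show τ (y + s' • u) < σ (y + s' • u)
        rcases hs'0.eq_or_lt with h0 | h0
        · have t6 : l * ‖u‖ * (β - s') < 1 * (β - s') :=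
            mul_lt_mul_of_pos_right hu (by linarith)
          linarith
        · have t6 : l * ‖u‖ * s' < 1 * s' := mul_lt_mul_of_pos_right hu h0
          linarith
      · show τ (y + s' • u) ≤ τ y + s'
        linarith
      · show τ y + s' ≤ σ (y + s' • u)
        linarith

theorem el_inv {h : Equiv.Perm (B × ℝ)} {l : ℝ} (hl : 0 ≤ l) (hA : Adm (h : B × ℝ → B × ℝ) l)
    {M : Subgroup (Equiv.Perm (B × ℝ))} (hM : ⁅GG B, GG B⁆ ≤ M) (hM' : M ≤ GG B)
    {u u' : B} (hu : l * ‖u‖ < 1) {τ σ : B → ℝ} (hτ : TL l τ) (hσ : TL l σ)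
    (hle : ∀ x, τ x ≤ σ x) (R : ℝ) (hR : ∀ x, R < ‖x‖ → τ x = σ x)
    (hI : Inv (h : B × ℝ → B × ℝ) (Reg τ σ) u u') : Cong M (h : B × ℝ → B × ℝ) τ σ := by
  obtain ⟨E, hE, hE'⟩ := hA τ hτ
  obtain ⟨F, hF, hF'⟩ := hA σ hσ
  obtain ⟨mτ, a1, a2, a3⟩ := exists_shear hl hu hτ
  obtain ⟨mσ, b1, b2, b3⟩ := exists_shear hl hu hσ
  set P : Equiv.Perm (B × ℝ) := mσ⁻¹ * mτ with hP
  have hmP : ∀ z, mσ (P z) = mτ z := by
    intro z
    show mσ (mσ⁻¹ (mτ z)) = mτ z
    exact mσ.apply_symm_apply _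
  have hP2 : ∀ z, (P z).2 = z.2 := by
    intro z
    have h1 := congrArg Prod.snd (hmP z)
    rw [b3, a3] at h1
    exact h1
  have hP1 : ∀ z : B × ℝ, (P z).1 - min z.2 (σ (P z).1) • u = z.1 - min z.2 (τ z.1) • u := by
    intro z
    have h1 := congrArg Prod.fst (hmP z)
    rw [b3, a3] at h1
    simp only at h1
    rwa [hP2 z] at h1
  have hPeq : ∀ (y : B) (t : ℝ) (x : B), x - min t (σ x) • u = y - min t (τ y) • u →
      P (y, t) = (x, t) := by
    intro y t x hx
    apply mσ.injective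
    rw [hmP, a3, b3]
    exact Prod.ext hx.symm rfl
  -- `P` is in `GG B`
  have hPG : P ∈ GG B := by
    set K : ℝ := max |τ 0| |σ 0| + l * |R| with hK
    have hKτ : ∀ y : B, ‖y‖ ≤ R → |τ y| ≤ K := by
      intro y hy
      have h1 := hτ.2 y 0
      rw [sub_zero] at h1
      have h2 : l * ‖y‖ ≤ l * |R| := mul_le_mul_of_nonneg_left (hy.trans (le_abs_self R)) hl
      have h3 : |τ y| ≤ |τ y - τ 0| + |τ 0| := by
        have := abs_add_le (τ y - τ 0) (τ 0)
        rwa [sub_add_cancel] at this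
      have h4 := le_max_left |τ 0| |σ 0|
      linarith
    have hKσ : ∀ y : B, ‖y‖ ≤ R → |σ y| ≤ K := by
      intro y hy
      have h1 := hσ.2 y 0
      rw [sub_zero] at h1
      have h2 : l * ‖y‖ ≤ l * |R| := mul_le_mul_of_nonneg_left (hy.trans (le_abs_self R)) hl
      have h3 : |σ y| ≤ |σ y - σ 0| + |σ 0| := by
        have := abs_add_le (σ y - σ 0) (σ 0)
        rwa [sub_add_cancel] at this
      have h4 := le_max_right |τ 0| |σ 0|
      linarith
    have hfar : ∀ (y : B) (t : ℝ), R < ‖y‖ → P (y, t) = (y, t) := by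
      intro y t hy
      apply hPeq
      rw [hR y hy]
    apply mem_GG_of (R := max R K + 1)
    · exact b2.comp a1
    · rw [hP, mul_inv_rev, inv_inv]
      exact a2.comp b1
    · exact hP2
    · rintro ⟨y, t⟩ hy
      apply hfar
      have := le_max_left R K
      simp only at hy
      linarith
    · rintro ⟨y, t⟩ ht
      simp only at ht
      rcases lt_or_ge R ‖y‖ with hy | hy
      · exact hfar y t hy
      · apply hPeq
        have h1 := (abs_le.1 (hKτ y hy)).1
        have h2 := (abs_le.1 (hKσ y hy)).1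
        have h3 := le_max_right R K
        rw [min_eq_left (by linarith), min_eq_left (by linarith)]
    · intro y t ht
      rcases lt_or_ge R ‖y‖ with hy | hy
      · rw [hfar y t hy, hfar y _ hy]
      · have h3 := le_max_right R K
        obtain ⟨x, hx⟩ : ∃ x, x = (P (y, max R K + 1)).1 := ⟨_, rfl⟩
        have e0 := hP1 (y, max R K + 1)
        simp only at e0
        rw [← hx] at e0
        have hxR : ‖x‖ ≤ R := by
          by_contra hcon
          push Not at hcon
          have e1 : P (x, max R K + 1) = (x, max R K + 1) := hfar x _ hcon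
          have e2 : P (y, max R K + 1) = (x, max R K + 1) :=
            Prod.ext hx.symm (hP2 _)
          have e3 : ((y, max R K + 1) : B × ℝ) = (x, max R K + 1) :=
            P.injective (e2.trans e1.symm)
          have e4 : y = x := congrArg Prod.fst e3
          rw [e4] at hy
          linarith
        have k1 := (abs_le.1 (hKτ y hy)).2
        have k2 := (abs_le.1 (hKσ x hxR)).2
        rw [min_eq_right (by linarith), min_eq_right (by linarith)] at e0
        have e5 : P (y, t) = (x, t) := by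
          apply hPeq
          rw [min_eq_right (by linarith), min_eq_right (by linarith)]
          exact e0
        rw [e5]
        exact hx
  have hkey := fun (y : B) (t : ℝ) =>
    L07_key hl hu hτ hσ hle hI (hP1 (y, t))
  have hPc : P ∈ ⁅GG B, GG B⁆ := by
    apply line_mem hPG u
    rintro ⟨y, t⟩
    refine ⟨min t (σ (P (y, t)).1) - min t (τ y), Prod.ext (hkey y t).1 ?_⟩
    rw [hP2]
    show t = t + (min t (σ (P (y, t)).1) - min t (τ y)) • (0 : ℝ)
    rw [smul_zero, add_zero]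
  set A : Equiv.Perm (B × ℝ) := F * P * E⁻¹ with hAd
  have hAG : A ∈ GG B := mul_mem (mul_mem hF hPG) (inv_mem hE)
  have hAc : A ∈ ⁅GG B, GG B⁆ := by
    apply line_mem hAG u'
    intro q
    obtain ⟨⟨y, t⟩, rfl⟩ := E.surjective q
    have e1 : A (E (y, t)) = F (P (y, t)) := by
      show F (P (E⁻¹ (E (y, t)))) = F (P (y, t))
      have e2 : E⁻¹ (E (y, t)) = (y, t) := E.symm_apply_apply _
      rw [e2]
    refine ⟨min t (σ (P (y, t)).1) - min t (τ y), ?_⟩
    rw [e1, hF', hE']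
    have h2 := congrArg Prod.fst (hkey y t).2
    simp only at h2
    refine Prod.ext ?_ ?_
    · show (h ((P (y, t)).1, min (P (y, t)).2 (σ (P (y, t)).1))).1 =
        (h (y, min t (τ y))).1 + (min t (σ (P (y, t)).1) - min t (τ y)) • u'
      rw [hP2]
      exact h2
    · show (P (y, t)).2 = t + (min t (σ (P (y, t)).1) - min t (τ y)) • (0 : ℝ)
      rw [hP2, smul_zero, add_zero]
  refine Cong.mk' hM hM' hE hE' hF' (hM hAc) (hM (inv_mem hPc)) ?_
  rw [hAd]
  group

/-- the elementary step -/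
theorem el_good {h : Equiv.Perm (B × ℝ)} {l : ℝ} (hl : 0 ≤ l) (hA : Adm (h : B × ℝ → B × ℝ) l)
    {M : Subgroup (Equiv.Perm (B × ℝ))} (hM : ⁅GG B, GG B⁆ ≤ M) (hM' : M ≤ GG B) {τ σ : B → ℝ} (hτ : TL l τ) (hσ : TL l σ) (hle : ∀ x, τ x ≤ σ x) (R : ℝ)
    (hR : ∀ x, R < ‖x‖ → τ x = σ x) (hI : Good (h : B × ℝ → B × ℝ) l (Reg τ σ)) :
    Cong M (h : B × ℝ → B × ℝ) τ σ := by
  rcases hI with hI | ⟨u, u', hu, hI⟩
  · refine Cong.of_eq hA hτ fun x => ?_
    obtain ⟨x, t⟩ := x
    have key : (h (x, min t (τ x))).1 = (h (x, min t (σ x))).1 := by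
      rcases (hle x).lt_or_eq with hx | hx
      · rcases le_total t (τ x) with ht | ht
        · rw [min_eq_left ht, min_eq_left (ht.trans (hle x))]
        · rw [min_eq_right ht, hI (x, τ x) ⟨hx, le_rfl, hx.le⟩,
            hI (x, min t (σ x)) ⟨hx, le_min ht hx.le, min_le_right _ _⟩]
      · rw [hx]
    exact Prod.ext key rfl
  · exact el_inv hl hA hM hM' hu hτ hσ hle R hR hI

end PLH
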