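import Pool.Agent.Lib.MP_6a1069_gt.PP.Defs

/-!
L08: barycentric coordinates of a triangulation in hat functions.

`ht_combo`: field `full` gives `y ∈ D` with `φ v y = t v` for `v < N`, and `y = ∑ t v • p v` by `bary`.

`ht_shift`: apply `ht_combo` to `t v = φ v z` for `v ≠ a, b`, `t a = φ a z - s`, `t b = φ b z + s`
(same support as `φ · z`, since `φ a z > s`, `φ b z > 0`; sum `1` by `sum_one`).  The sum
`∑ t v • p v` is `z + s • (p b - p a)` (write `t v = φ v z + s * ([v = b] - [v = a])` and use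
`Finset.sum_ite_eq`).

`ht_hom`: apply `ht_combo` to `t v = ρ * φ v z` for `v ≠ w`, `t w = 1 - ρ * (1 - φ w z) > 0`; that is
`t v = ρ * φ v z + (1 - ρ) * [v = w]`; same support, sum `ρ + (1 - ρ)`; the point is
`ρ • z + (1 - ρ) • p w = p w + ρ • (z - p w)`.

`ht_le_one`: `φ v x ≤ ∑ φ w x = 1`.
-/

namespace PLH

variable {E : Type*} [NormedAddCommGroup E] [NormedSpace ℝ E] {D : Set E} {N : ℕ} {p : ℕ → E}
  {φ : ℕ → E → ℝ}

theorem ht_combo (H : IsHT D N p φ) {z : E} (hz : z ∈ D) {t : ℕ → ℝ} (h0 : ∀ v < N, 0 ≤ t v)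
    (h1 : ∑ v ∈ Finset.range N, t v = 1) (hs : ∀ v < N, t v ≠ 0 ↔ φ v z ≠ 0) :
    ∑ v ∈ Finset.range N, t v • p v ∈ D ∧
      ∀ v < N, φ v (∑ v ∈ Finset.range N, t v • p v) = t v := by
  obtain ⟨y, hy, hyt⟩ := H.full z hz t h0 h1 hs
  have h2 : ∑ v ∈ Finset.range N, t v • p v = y := by
    conv_rhs => rw [← H.bary y hy]
    exact Finset.sum_congr rfl fun v hv => by rw [hyt v (Finset.mem_range.1 hv)]
  rw [h2]
  exact ⟨hy, hyt⟩

theorem ht_le_one (H : IsHT D N p φ) {z : E} (hz : z ∈ D) {v : ℕ} (hv : v < N) : φ v z ≤ 1 := by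
  rw [← H.sum_one z hz]
  exact Finset.single_le_sum (f := fun v => φ v z)
    (fun u hu => H.nonneg u (Finset.mem_range.1 hu) z hz) (Finset.mem_range.2 hv)

theorem ht_shift (H : IsHT D N p φ) {z : E} (hz : z ∈ D) {a b : ℕ} (ha : a < N) (hb : b < N)
    (hab : a ≠ b) (hbz : φ b z ≠ 0) {s : ℝ} (hs : 0 ≤ s) (hs' : s < φ a z) :
    z + s • (p b - p a) ∈ D ∧ φ a (z + s • (p b - p a)) = φ a z - s ∧
      φ b (z + s • (p b - p a)) = φ b z + s ∧
      ∀ v < N, v ≠ a → v ≠ b → φ v (z + s • (p b - p a)) = φ v z := by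
  classical
  set t : ℕ → ℝ := fun v => φ v z + s * ((if v = b then (1 : ℝ) else 0) - if v = a then 1 else 0)
    with ht
  have hta : t a = φ a z - s := by
    simp only [ht, if_neg hab, if_true]
    ring
  have htb : t b = φ b z + s := by
    simp only [ht, if_neg hab.symm, if_true]
    ring
  have hto : ∀ v, v ≠ a → v ≠ b → t v = φ v z := by
    intro v hva hvb
    simp only [ht, if_neg hva, if_neg hvb]
    ring
  have hsum : ∑ v ∈ Finset.range N, t v = 1 := by
    simp only [ht]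
    rw [Finset.sum_add_distrib, H.sum_one z hz, ← Finset.mul_sum, Finset.sum_sub_distrib,
      Finset.sum_ite_eq', Finset.sum_ite_eq', if_pos (Finset.mem_range.2 hb),
      if_pos (Finset.mem_range.2 ha), sub_self, mul_zero, add_zero]
  have hpt : ∑ v ∈ Finset.range N, t v • p v = z + s • (p b - p a) := by
    simp only [ht, add_smul, mul_smul, sub_smul, ite_smul, one_smul, zero_smul]
    rw [Finset.sum_add_distrib, H.bary z hz, ← Finset.smul_sum, Finset.sum_sub_distrib,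
      Finset.sum_ite_eq', Finset.sum_ite_eq', if_pos (Finset.mem_range.2 hb),
      if_pos (Finset.mem_range.2 ha)]
  have hb0 : 0 < φ b z := lt_of_le_of_ne (H.nonneg b hb z hz) (Ne.symm hbz)
  have hnn : ∀ v < N, 0 ≤ t v := by
    intro v hv
    by_cases hva : v = a
    · rw [hva, hta]; linarith
    by_cases hvb : v = b
    · rw [hvb, htb]; linarith
    rw [hto v hva hvb]
    exact H.nonneg v hv z hz
  have hsupp : ∀ v < N, t v ≠ 0 ↔ φ v z ≠ 0 := by
    intro v hv
    by_cases hva : v = a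
    · rw [hva, hta]
      have e1 : 0 < φ a z := by linarith
      have e2 : 0 < φ a z - s := by linarith
      exact ⟨fun _ => e1.ne', fun _ => e2.ne'⟩
    by_cases hvb : v = b
    · rw [hvb, htb]
      have e1 : 0 < φ b z + s := by linarith
      exact ⟨fun _ => hbz, fun _ => e1.ne'⟩
    rw [hto v hva hvb]
  obtain ⟨c1, c2⟩ := ht_combo H hz hnn hsum hsupp
  rw [hpt] at c1 c2
  exact ⟨c1, by rw [c2 a ha, hta], by rw [c2 b hb, htb],
    fun v hv hva hvb => by rw [c2 v hv, hto v hva hvb]⟩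

theorem ht_hom (H : IsHT D N p φ) {z : E} (hz : z ∈ D) {w : ℕ} (hw : w < N) (hwz : φ w z ≠ 0)
    {ρ : ℝ} (h0 : 0 < ρ) (h1 : ρ * (1 - φ w z) < 1) :
    p w + ρ • (z - p w) ∈ D ∧ φ w (p w + ρ • (z - p w)) = 1 - ρ * (1 - φ w z) ∧
      ∀ v < N, v ≠ w → φ v (p w + ρ • (z - p w)) = ρ * φ v z := by
  classical
  set t : ℕ → ℝ := fun v => ρ * φ v z + (1 - ρ) * (if v = w then (1 : ℝ) else 0) with ht
  have htw : t w = 1 - ρ * (1 - φ w z) := by
    simp only [ht, if_true]
    ring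
  have hto : ∀ v, v ≠ w → t v = ρ * φ v z := by
    intro v hv
    simp only [ht, if_neg hv]
    ring
  have hsum : ∑ v ∈ Finset.range N, t v = 1 := by
    simp only [ht]
    rw [Finset.sum_add_distrib, ← Finset.mul_sum, H.sum_one z hz, ← Finset.mul_sum,
      Finset.sum_ite_eq', if_pos (Finset.mem_range.2 hw)]
    ring
  have hpt : ∑ v ∈ Finset.range N, t v • p v = p w + ρ • (z - p w) := by
    simp only [ht, add_smul, mul_smul, ite_smul, one_smul, zero_smul]
    rw [Finset.sum_add_distrib, ← Finset.smul_sum, H.bary z hz, ← Finset.smul_sum,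
      Finset.sum_ite_eq', if_pos (Finset.mem_range.2 hw), sub_smul, one_smul, smul_sub]
    abel
  have hw0 : 0 < φ w z := lt_of_le_of_ne (H.nonneg w hw z hz) (Ne.symm hwz)
  have hnn : ∀ v < N, 0 ≤ t v := by
    intro v hv
    by_cases hvw : v = w
    · rw [hvw, htw]; linarith
    rw [hto v hvw]
    exact mul_nonneg h0.le (H.nonneg v hv z hz)
  have hsupp : ∀ v < N, t v ≠ 0 ↔ φ v z ≠ 0 := by
    intro v hv
    by_cases hvw : v = w
    · rw [hvw, htw]
      have h3 : 1 - ρ * (1 - φ w z) ≠ 0 := by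
        have : 0 < 1 - ρ * (1 - φ w z) := by linarith
        exact this.ne'
      exact ⟨fun _ => hwz, fun _ => h3⟩
    rw [hto v hvw]
    exact ⟨fun h => right_ne_zero_of_mul h, fun h => mul_ne_zero h0.ne' h⟩
  obtain ⟨c1, c2⟩ := ht_combo H hz hnn hsum hsupp
  rw [hpt] at c1 c2
  exact ⟨c1, by rw [c2 w hw, htw], fun v hv hvw => by rw [c2 v hv, hto v hvw]⟩

end PLH
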