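import Pool.Agent.Lib.MP_6a1069_gt.PP.L08

/-!
L09: invariance of `h` under translations in the direction of an edge, and homogeneity at a vertex.

`tri_hom`: `h z = ∑ φ v z • q v` and `h z' = ∑ φ v z' • q v` for `z' = p w + ρ • (z - p w) ∈ D` with
the coordinates of `ht_hom`: `∑ φ v z' • q v = (1 - ρ) • q w + ρ • h z`.

`tri_inv`: let `d = (p b).2 - (p a).2 > 0`, so `a ≠ b`, `(u, 1) = d⁻¹ • (p b - p a)`,
`(u', 1) = d⁻¹ • (q b - q a)` (`lev`).  Let `z`, `s` as in `Inv`; with `s' = 0`: `z ∈ W`.  If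
`s < d * φ a z`: `z + s • (u, 1) = z + (s / d) • (p b - p a)`, and `ht_shift` and `lin` give
`h (z + s • (u, 1)) = h z + (s / d) • (q b - q a)`.  Otherwise let `s₁ = d * φ a z ≤ s`,
`z₁ = z + s₁ • (u, 1) ∈ W`; by `ht_shift` `φ a (z + s' • (u, 1)) = φ a z - s' / d` for
`0 ≤ s' < s₁`, so by continuity of `φ a` (`H.ht.pl`), `φ a z₁ = 0` (`s₁ > 0`), a contradiction to
`z₁ ∈ W`.
-/

namespace PLH

variable {B : Type*} [NormedAddCommGroup B] [NormedSpace ℝ B] {h : Equiv.Perm (B × ℝ)}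
  {D : Set (B × ℝ)} {N : ℕ} {p q : ℕ → B × ℝ} {φ : ℕ → B × ℝ → ℝ} {S : Set ℕ}

theorem tri_hom (H : Tri h D N p q φ S) {z : B × ℝ} (hz : z ∈ D) {w : ℕ} (hw : w < N)
    (hwz : φ w z ≠ 0) {ρ : ℝ} (h0 : 0 < ρ) (h1 : ρ * (1 - φ w z) < 1) :
    h (p w + ρ • (z - p w)) = q w + ρ • (h z - q w) := by
  classical
  obtain ⟨c1, c2, c3⟩ := ht_hom H.ht hz hw hwz h0 h1
  rw [H.lin _ c1, H.lin z hz]
  have h2 : ∀ v ∈ Finset.range N, φ v (p w + ρ • (z - p w)) • q v =
      ρ • (φ v z • q v) + (if v = w then (1 - ρ) • q v else 0) := by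
    intro v hv
    by_cases hvw : v = w
    · subst hvw
      rw [c2, if_pos rfl, smul_smul, ← add_smul]
      congr 1
      ring
    · rw [c3 v (Finset.mem_range.1 hv) hvw, if_neg hvw, add_zero, smul_smul]
  rw [Finset.sum_congr rfl h2, Finset.sum_add_distrib, ← Finset.smul_sum, Finset.sum_ite_eq',
    if_pos (Finset.mem_range.2 hw), sub_smul, one_smul, smul_sub]
  abel

theorem tri_inv (H : Tri h D N p q φ S) {a b : ℕ} (ha : a < N) (hb : b < N)
    (hab : (p a).2 < (p b).2) :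
    Inv (h : B × ℝ → B × ℝ) {x | x ∈ D ∧ φ a x ≠ 0 ∧ φ b x ≠ 0}
      (((p b).2 - (p a).2)⁻¹ • ((p b).1 - (p a).1)) (((p b).2 - (p a).2)⁻¹ • ((q b).1 - (q a).1)) := by
  classical
  set d : ℝ := (p b).2 - (p a).2 with hd
  have hd0 : 0 < d := sub_pos.2 hab
  have hne : a ≠ b := by
    rintro rfl
    exact lt_irrefl _ hab
  set u : B := d⁻¹ • ((p b).1 - (p a).1) with hu
  set u' : B := d⁻¹ • ((q b).1 - (q a).1) with hu'
  have e1 : ((u, 1) : B × ℝ) = d⁻¹ • (p b - p a) := by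
    refine Prod.ext rfl ?_
    show (1 : ℝ) = d⁻¹ * ((p b).2 - (p a).2)
    rw [← hd, inv_mul_cancel₀ hd0.ne']
  have e2 : ((u', 1) : B × ℝ) = d⁻¹ • (q b - q a) := by
    refine Prod.ext rfl ?_
    show (1 : ℝ) = d⁻¹ * ((q b).2 - (q a).2)
    rw [H.lev b hb, H.lev a ha, ← hd, inv_mul_cancel₀ hd0.ne']
  intro z s hs hz
  have hz0 : z ∈ {x | x ∈ D ∧ φ a x ≠ 0 ∧ φ b x ≠ 0} := by
    have := hz 0 ⟨le_rfl, hs⟩
    rwa [zero_smul, add_zero] at this
  obtain ⟨hzD, hza, hzb⟩ := hz0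
  have hpt : ∀ s' : ℝ, z + s' • ((u, 1) : B × ℝ) = z + (s' / d) • (p b - p a) := by
    intro s'
    rw [e1, smul_smul, div_eq_mul_inv]
  have hlt : s < d * φ a z := by
    by_contra hcon
    have hcon' : d * φ a z ≤ s := not_lt.1 hcon
    have ha0 : 0 < φ a z := lt_of_le_of_ne (H.ht.nonneg a ha z hzD) (Ne.symm hza)
    have hs1 : 0 < d * φ a z := mul_pos hd0 ha0
    have hcl : IsClosed {s' : ℝ | φ a (z + s' • ((u, 1) : B × ℝ)) = φ a z - s' / d} := by
      have hc1 : Continuous fun s' : ℝ => φ a (z + s' • ((u, 1) : B × ℝ)) :=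
        (H.ht.pl a ha).1.comp (by fun_prop)
      exact isClosed_eq hc1 (by fun_prop)
    have hsub : Set.Ico 0 (d * φ a z) ⊆
        {s' : ℝ | φ a (z + s' • ((u, 1) : B × ℝ)) = φ a z - s' / d} := by
      intro s' hs'
      have h3 := (ht_shift H.ht hzD ha hb hne hzb (s := s' / d) (div_nonneg hs'.1 hd0.le)
        (by rw [div_lt_iff₀ hd0, mul_comm]; exact hs'.2)).2.1
      show φ a (z + s' • ((u, 1) : B × ℝ)) = φ a z - s' / d
      rw [hpt, h3]
    have hmem := hcl.closure_subset_iff.2 hsub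
      (by rw [closure_Ico hs1.ne]; exact ⟨hs1.le, le_rfl⟩ :
        d * φ a z ∈ closure (Set.Ico 0 (d * φ a z)))
    have h4 : φ a (z + (d * φ a z) • ((u, 1) : B × ℝ)) = φ a z - (d * φ a z) / d := hmem
    rw [mul_div_cancel_left₀ _ hd0.ne', sub_self] at h4
    exact (hz (d * φ a z) ⟨hs1.le, hcon'⟩).2.1 h4
  have hsd : s / d < φ a z := by
    rw [div_lt_iff₀ hd0, mul_comm]
    exact hlt
  obtain ⟨c1, c2, c3, c4⟩ := ht_shift H.ht hzD ha hb hne hzb (s := s / d)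
    (div_nonneg hs hd0.le) hsd
  show h (z + s • ((u, 1) : B × ℝ)) = h z + s • ((u', 1) : B × ℝ)
  rw [hpt, H.lin _ c1, H.lin z hzD, e2, smul_smul, ← div_eq_mul_inv]
  have h2 : ∀ v ∈ Finset.range N, φ v (z + (s / d) • (p b - p a)) • q v =
      φ v z • q v + ((if v = b then (s / d) • q v else 0) -
        (if v = a then (s / d) • q v else 0)) := by
    intro v hv
    by_cases hva : v = a
    · subst hva
      rw [c2, if_neg hne, if_pos rfl, sub_smul, zero_sub, sub_eq_add_neg]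
    · by_cases hvb : v = b
      · subst hvb
        rw [c3, if_pos rfl, if_neg hva, add_smul, sub_zero]
      · rw [c4 v (Finset.mem_range.1 hv) hva hvb, if_neg hva, if_neg hvb, sub_zero, add_zero]
  rw [Finset.sum_congr rfl h2, Finset.sum_add_distrib, Finset.sum_sub_distrib,
    Finset.sum_ite_eq', Finset.sum_ite_eq', if_pos (Finset.mem_range.2 hb),
    if_pos (Finset.mem_range.2 ha), smul_sub]

end PLH
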