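import Pool.Agent.Lib.MP_6a1069_gt.PP.L09

/-!
L10: every point which is not a vertex of `S` has a good neighbourhood.

Choose `l₀ > 0` with `l₀ * ‖((p b).2 - (p a).2)⁻¹ • ((p b).1 - (p a).1)‖ < 1` for all `a, b < N`
(finitely many).  Let `z` be given.
(1) `z ∉ D`: `W = Dᶜ`, `h` is the identity there.
(2) `z ∈ D` and `φ v z ≠ 0` for some `v < N`, `v ∉ S`: `W = Dᶜ ∪ {x | φ v x ≠ 0}`, open (`H.closed`,
`φ v` continuous), and `h` is the identity on it (`out`, `idv`).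
(3) otherwise all `v < N` with `φ v z ≠ 0` are in `S`.  If there is only one such `v = w` then
`φ w z = 1` (`sum_one`) and `z = p w` (`bary`), excluded.  (There is at least one.)  So there are
`a ≠ b` in `S` with `φ a z ≠ 0`, `φ b z ≠ 0`; `(p a).2 ≠ (p b).2` by `gen`; exchange them to get
`(p a).2 < (p b).2`.  `W = {x | x ∈ D ∧ φ a x ≠ 0 ∧ φ b x ≠ 0} = {x | φ a x ≠ 0 ∧ φ b x ≠ 0}` (`inner`),
open; good by `tri_inv`.
The second statement: `l * ‖u‖ ≤ l₀ * ‖u‖`.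
-/

namespace PLH

variable {B : Type*} [NormedAddCommGroup B] [NormedSpace ℝ B] {h : Equiv.Perm (B × ℝ)}
  {D : Set (B × ℝ)} {N : ℕ} {p q : ℕ → B × ℝ} {φ : ℕ → B × ℝ → ℝ} {S : Set ℕ}

theorem good_cover (H : Tri h D N p q φ S) :
    ∃ l₀ > 0, (∀ z : B × ℝ, (∀ w < N, w ∈ S → z ≠ p w) →
        ∃ W : Set (B × ℝ), IsOpen W ∧ z ∈ W ∧ Good (h : B × ℝ → B × ℝ) l₀ W) ∧
      ∀ a < N, ∀ b < N, (p a).2 < (p b).2 →
        Good (h : B × ℝ → B × ℝ) l₀ {x | x ∈ D ∧ φ a x ≠ 0 ∧ φ b x ≠ 0} := by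
  classical
  set U : ℕ → ℕ → B := fun a b => ((p b).2 - (p a).2)⁻¹ • ((p b).1 - (p a).1) with hU
  set M : ℝ := ∑ a ∈ Finset.range N, ∑ b ∈ Finset.range N, ‖U a b‖ with hM
  have hM0 : 0 ≤ M := Finset.sum_nonneg fun a _ => Finset.sum_nonneg fun b _ => norm_nonneg _
  have hUM : ∀ a < N, ∀ b < N, ‖U a b‖ ≤ M := by
    intro a ha b hb
    have h1 : ‖U a b‖ ≤ ∑ b ∈ Finset.range N, ‖U a b‖ :=
      Finset.single_le_sum (f := fun b => ‖U a b‖) (fun b _ => norm_nonneg _)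
        (Finset.mem_range.2 hb)
    have h2 : ∑ b ∈ Finset.range N, ‖U a b‖ ≤ M :=
      Finset.single_le_sum (f := fun a => ∑ b ∈ Finset.range N, ‖U a b‖)
        (fun a _ => Finset.sum_nonneg fun b _ => norm_nonneg _) (Finset.mem_range.2 ha)
    exact h1.trans h2
  have hM1 : 0 < M + 1 := by linarith
  have hgood : ∀ a < N, ∀ b < N, (p a).2 < (p b).2 →
      Good (h : B × ℝ → B × ℝ) (M + 1)⁻¹ {x | x ∈ D ∧ φ a x ≠ 0 ∧ φ b x ≠ 0} := by
    intro a ha b hb hab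
    refine Or.inr ⟨_, _, ?_, tri_inv H ha hb hab⟩
    have h1 := hUM a ha b hb
    have h2 : (M + 1)⁻¹ * (M + 1) = 1 := inv_mul_cancel₀ hM1.ne'
    have h3 : 0 < (M + 1)⁻¹ := inv_pos.2 hM1
    have h4 : (M + 1)⁻¹ * ‖U a b‖ < (M + 1)⁻¹ * (M + 1) :=
      mul_lt_mul_of_pos_left (by linarith) h3
    rw [h2] at h4
    exact h4
  refine ⟨(M + 1)⁻¹, inv_pos.2 hM1, fun z hz => ?_, hgood⟩
  by_cases hzD : z ∈ D
  swap
  · exact ⟨Dᶜ, H.closed.isOpen_compl, hzD, Or.inl fun x hx => H.out x hx⟩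
  by_cases hex : ∃ v, v < N ∧ v ∉ S ∧ φ v z ≠ 0
  · obtain ⟨v, hv, hvS, hvz⟩ := hex
    refine ⟨Dᶜ ∪ {x | φ v x ≠ 0}, H.closed.isOpen_compl.union
      (isOpen_ne_fun (H.ht.pl v hv).continuous continuous_const), Or.inr hvz, Or.inl ?_⟩
    rintro x (hx | hx)
    · exact H.out x hx
    · by_cases hxD : x ∈ D
      · exact H.idv v hv hvS x hxD hx
      · exact H.out x hxD
  push Not at hex
  have hsum := H.ht.sum_one z hzD
  obtain ⟨a, ha, haz⟩ : ∃ a ∈ Finset.range N, φ a z ≠ 0 := by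
    by_contra hc
    push Not at hc
    rw [Finset.sum_eq_zero hc] at hsum
    exact zero_ne_one hsum
  have haN := Finset.mem_range.1 ha
  have haS : a ∈ S := by
    by_contra hc
    exact haz (hex a haN hc)
  obtain ⟨b, hb, hba, hbz⟩ : ∃ b ∈ Finset.range N, b ≠ a ∧ φ b z ≠ 0 := by
    by_contra hc
    push Not at hc
    have e1 : φ a z = 1 := by
      rw [← hsum]
      exact (Finset.sum_eq_single a (fun b hb hba => hc b hb hba) fun h => absurd ha h).symm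
    have e2 : z = p a := by
      rw [← H.ht.bary z hzD]
      rw [Finset.sum_eq_single a, e1, one_smul]
      · intro b hb hba
        rw [hc b hb hba, zero_smul]
      · exact fun h => absurd ha h
    exact hz a haN haS e2
  have hbN := Finset.mem_range.1 hb
  have hbS : b ∈ S := by
    by_contra hc
    exact hbz (hex b hbN hc)
  have hopen : ∀ a b, a < N → b < N → a ∈ S →
      IsOpen {x | x ∈ D ∧ φ a x ≠ 0 ∧ φ b x ≠ 0} := by
    intro a b ha hb haS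
    have e : {x | x ∈ D ∧ φ a x ≠ 0 ∧ φ b x ≠ 0} = {x | φ a x ≠ 0} ∩ {x | φ b x ≠ 0} := by
      ext x
      constructor
      · rintro ⟨-, h1, h2⟩
        exact ⟨h1, h2⟩
      · rintro ⟨h1, h2⟩
        refine ⟨?_, h1, h2⟩
        by_contra hc
        exact h1 (H.inner a ha haS x hc)
    rw [e]
    exact (isOpen_ne_fun (H.ht.pl a ha).continuous continuous_const).inter
      (isOpen_ne_fun (H.ht.pl b hb).continuous continuous_const)
  rcases lt_or_gt_of_ne (H.gen a haN b hbN hbS hba.symm) with hlt | hlt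
  · exact ⟨_, hopen a b haN hbN haS, ⟨hzD, haz, hbz⟩, hgood a haN b hbN hlt⟩
  · exact ⟨_, hopen b a hbN haN hbS, ⟨hzD, hbz, haz⟩, hgood b hbN a haN hlt⟩

theorem Good.antitone {h : B × ℝ → B × ℝ} {l l₀ : ℝ} (hl : l ≤ l₀) {W : Set (B × ℝ)}
    (H : Good h l₀ W) : Good h l W := by
  rcases H with H | ⟨u, u', hu, H⟩
  · exact Or.inl H
  · exact Or.inr ⟨u, u', (mul_le_mul_of_nonneg_right hl (norm_nonneg _)).trans_lt hu, H⟩

end PLH
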