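import Pool.Agent.Lib.MP_6a1069_gt.PP.L07

/-!
L11: thin regions without vertices.

Tents: for `c : ℝ`, `y : Fin n → ℝ` the function `x ↦ c - l * ‖x - y‖` is `TL l` (the maximum norm of
`Fin n → ℝ` is PL: it is the maximum of the `|x i|`; prove `IsPL (fun x : Fin n → ℝ => ‖x‖)` first, for
instance through `‖x‖ = Finset.univ.sup' ..` or by induction over a finite set of coordinates with
`pi_norm_le_iff_of_nonneg`; for `n = 0` the norm is `0`).

Proof.  By compactness (`lebesgue_number_lemma_of_metric` for the compact set `K ×ˢ {r}` and the open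
cover by good sets) there is `δ > 0` such that for every `y ∈ K` the ball of radius `δ` around `(y, r)`
is contained in a good set; so it is good (`Good.mono`).  If `K` is empty then `stopFun h τ = stopFun h σ`
by `hoff` (in case `hoff` gives `∀ t, h (x, t) = (x, t)` both sides are `(x, t)`): `Cong.of_eq`.
Let `η > 0` with `3 * η < l * δ` and `η < δ`.  Let `τ`, `σ` be given.  Choose `y_1, ..., y_M ∈ K` such
that the balls of radius `η / l` around the `y_i` cover `K` (`IsCompact.finite_cover_balls`), and put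
`θ_i x = r + 2 * η - l * ‖x - y_i‖`, `τ_0 = τ`, `τ_{i+1} = min σ (max τ_i θ_{i+1})` (a recursion over the
list of the `y_i`); all `TL l`, `τ ≤ τ_i ≤ τ_{i+1} ≤ σ`.
Step `i`: if `τ_i x < τ_{i+1} x` then `θ_{i+1} x > τ_i x ≥ τ x ≥ r - η`, so `l * ‖x - y_{i+1}‖ < 3 * η`,
`‖x - y_{i+1}‖ < δ`; and `τ_i x ≤ t ≤ τ_{i+1} x` implies `|t - r| ≤ η < δ`.  So `Reg τ_i τ_{i+1}` is
contained in the ball of radius `δ` around `(y_{i+1}, r)`, good; and `τ_i = τ_{i+1}` outside a bounded
set.  `el_good`: `Cong M h τ_i τ_{i+1}`.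
End: `stopFun h τ_M = stopFun h σ`: if `x ∈ K` then `‖x - y_i‖ < η / l` for some `i`, so
`θ_i x ≥ r + η ≥ σ x` and `τ_M x ≥ τ_i x = σ x`; if `x ∉ K` and `τ x = σ x` then `τ_M x = σ x`;
otherwise `h (x, t) = (x, t)` for all `t`, so both sides are `(x, t)`.  `Cong.of_eq`, `Cong.trans`.
(It is convenient to prove by induction over a list `L` of points of `K`: for all `TL l` functions
`ρ` with `τ ≤ ρ ≤ σ` there is a `TL l` function `ρ'` with `ρ ≤ ρ' ≤ σ`, `Cong M h ρ ρ'` and
`min (σ x) (r + 2 * η - l * ‖x - y‖) ≤ ρ' x` for all `y ∈ L` and all `x`.)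
-/

namespace PLH

/-- the maximum norm is PL -/
private theorem L11_norm (n : ℕ) : IsPL (fun x : Fin n → ℝ => ‖x‖) := by
  classical
  have hcoord : ∀ i : Fin n, IsPL (fun x : Fin n → ℝ => ‖x i‖) := by
    intro i
    have h1 : IsPL (fun x : Fin n → ℝ => x i) :=
      IsPL.clm (ContinuousLinearMap.proj (R := ℝ) (φ := fun _ : Fin n => ℝ) i)
    refine (h1.max h1.neg).congr fun x => ?_
    rw [Real.norm_eq_abs]
    rfl
  have key : ∀ s : Finset (Fin n),
      IsPL (fun x : Fin n → ℝ => ((s.sup fun b => ‖x b‖₊ : NNReal) : ℝ)) := by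
    intro s
    induction s using Finset.induction with
    | empty =>
      refine (IsPL.const (E := Fin n → ℝ) (0 : ℝ)).congr fun x => ?_
      simp
    | insert a s ha ih =>
      refine ((hcoord a).max ih).congr fun x => ?_
      rw [Finset.sup_insert, NNReal.coe_max, coe_nnnorm]
  exact (key Finset.univ).congr fun x => Pi.norm_def x

private theorem L11_tent {n : ℕ} {l : ℝ} (hl : 0 < l) (c : ℝ) (y : Fin n → ℝ) :
    TL l (fun x : Fin n → ℝ => c - l * ‖x - y‖) := by
  refine ⟨?_, fun x x' => ?_⟩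
  · have h1 : IsPL (fun x : Fin n → ℝ => x - y) := IsPL.id.sub (IsPL.const y)
    exact (IsPL.const c).sub (((L11_norm n).comp h1).const_mul l)
  · have h1 := abs_norm_sub_norm_le (x - y) (x' - y)
    rw [sub_sub_sub_cancel_right] at h1
    rw [show c - l * ‖x - y‖ - (c - l * ‖x' - y‖) = -(l * (‖x - y‖ - ‖x' - y‖)) by ring, abs_neg,
      abs_mul, abs_of_pos hl]
    exact mul_le_mul_of_nonneg_left h1 hl.le

theorem glc {n : ℕ} {h : Equiv.Perm ((Fin n → ℝ) × ℝ)} {l : ℝ} (hl : 0 < l)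
    (hA : Adm (h : (Fin n → ℝ) × ℝ → (Fin n → ℝ) × ℝ) l)
    {M : Subgroup (Equiv.Perm ((Fin n → ℝ) × ℝ))} (hM : ⁅GG (Fin n → ℝ), GG (Fin n → ℝ)⁆ ≤ M)
    (hM' : M ≤ GG (Fin n → ℝ)) (r : ℝ) (K : Set (Fin n → ℝ))
    (hK : IsCompact K)
    (hgood : ∀ x ∈ K, ∃ W : Set ((Fin n → ℝ) × ℝ), IsOpen W ∧ (x, r) ∈ W ∧
      Good (h : (Fin n → ℝ) × ℝ → (Fin n → ℝ) × ℝ) l W) :
    ∃ η > 0, ∀ τ σ : (Fin n → ℝ) → ℝ, TL l τ → TL l σ → (∀ x, τ x ≤ σ x) →
      (∀ x, |τ x - r| ≤ η) → (∀ x, |σ x - r| ≤ η) →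
      (∀ x, x ∉ K → τ x = σ x ∨ ∀ t, h (x, t) = (x, t)) →
      Cong M (h : (Fin n → ℝ) × ℝ → (Fin n → ℝ) × ℝ) τ σ := by
  classical
  -- a Lebesgue number
  obtain ⟨δ, hδ, hball⟩ : ∃ δ > 0, ∀ y ∈ K,
      Good (h : (Fin n → ℝ) × ℝ → (Fin n → ℝ) × ℝ) l (Metric.ball (y, r) δ) := by
    have h1 : IsCompact (K ×ˢ ({r} : Set ℝ)) := hK.prod isCompact_singleton
    obtain ⟨δ, hδ, hδ2⟩ := lebesgue_number_lemma_of_metric
      (c := fun W : {W : Set ((Fin n → ℝ) × ℝ) // IsOpen W ∧
        Good (h : (Fin n → ℝ) × ℝ → (Fin n → ℝ) × ℝ) l W} => W.1) h1 (fun W => W.2.1)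
      (by
        rintro ⟨x, t⟩ ⟨hx, ht⟩
        obtain rfl : t = r := ht
        obtain ⟨W, hW, hxW, hg⟩ := hgood x hx
        exact Set.mem_iUnion.2 ⟨⟨W, hW, hg⟩, hxW⟩)
    refine ⟨δ, hδ, fun y hy => ?_⟩
    obtain ⟨W, hW⟩ := hδ2 (y, r) ⟨hy, rfl⟩
    exact Good.mono hW W.2.2
  refine ⟨min (l * δ / 4) (δ / 2), lt_min (by positivity) (by positivity), ?_⟩
  set η := min (l * δ / 4) (δ / 2) with hη
  have hη0 : 0 < η := lt_min (by positivity) (by positivity)
  have hη1 : 3 * η < l * δ := by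
    have := min_le_left (l * δ / 4) (δ / 2)
    have h2 : 0 < l * δ := by positivity
    linarith
  have hη2 : η < δ := by
    have := min_le_right (l * δ / 4) (δ / 2)
    linarith
  intro τ σ hτ hσ hle hτr hσr hoff
  -- the induction over a finite set
  have key : ∀ L : Finset (Fin n → ℝ), (∀ y ∈ L, y ∈ K) → ∀ ρ : (Fin n → ℝ) → ℝ, TL l ρ →
      (∀ x, τ x ≤ ρ x) → (∀ x, ρ x ≤ σ x) → ∃ ρ' : (Fin n → ℝ) → ℝ, TL l ρ' ∧
      (∀ x, ρ x ≤ ρ' x) ∧ (∀ x, ρ' x ≤ σ x) ∧
      Cong M (h : (Fin n → ℝ) × ℝ → (Fin n → ℝ) × ℝ) ρ ρ' ∧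
      ∀ y ∈ L, ∀ x, min (σ x) (r + 2 * η - l * ‖x - y‖) ≤ ρ' x := by
    intro L
    induction L using Finset.induction with
    | empty =>
      intro _ ρ hρ _ h2
      exact ⟨ρ, hρ, fun _ => le_rfl, h2, Cong.refl hA hρ, fun y hy => absurd hy (Finset.notMem_empty y)⟩
    | insert y L _ ih =>
      intro hLK ρ hρ h1 h2
      have hθ := L11_tent hl (r + 2 * η) y
      have hρ₁ := TL.min hσ (TL.max hρ hθ)
      have a1 : ∀ x, ρ x ≤ min (σ x) (max (ρ x) (r + 2 * η - l * ‖x - y‖)) :=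
        fun x => le_min (h2 x) (le_max_left _ _)
      have a2 : ∀ x, min (σ x) (max (ρ x) (r + 2 * η - l * ‖x - y‖)) ≤ σ x :=
        fun x => min_le_left _ _
      have a3 : ∀ x, ρ x < min (σ x) (max (ρ x) (r + 2 * η - l * ‖x - y‖)) → ‖x - y‖ < δ := by
        intro x hx
        have b1 := (lt_min_iff.1 hx).2
        have b2 : ρ x < r + 2 * η - l * ‖x - y‖ := by
          rcases lt_max_iff.1 b1 with b | b
          · exact absurd b (lt_irrefl _)
          · exact b
        have b3 := (abs_le.1 (hτr x)).1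
        have b4 := h1 x
        have b5 : l * ‖x - y‖ < l * δ := by linarith
        exact lt_of_mul_lt_mul_left b5 hl.le
      have hCong : Cong M (h : (Fin n → ℝ) × ℝ → (Fin n → ℝ) × ℝ) ρ
          (fun x => min (σ x) (max (ρ x) (r + 2 * η - l * ‖x - y‖))) := by
        refine el_good hl.le hA hM hM' hρ hρ₁ a1 (δ + ‖y‖) ?_ ?_
        · intro x hx
          rcases (a1 x).lt_or_eq with b | b
          · exfalso
            have b1 := a3 x b
            have b2 : ‖x‖ ≤ ‖x - y‖ + ‖y‖ := by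
              have := norm_add_le (x - y) y
              rwa [sub_add_cancel] at this
            linarith
          · exact b
        · refine Good.mono ?_ (hball y (hLK y (Finset.mem_insert_self _ _)))
          rintro ⟨x, t⟩ ⟨c1, c2, c3⟩
          have d1 := a3 x c1
          have d2 := (abs_le.1 (hτr x)).1
          have d3 := (abs_le.1 (hσr x)).2
          have d4 := h1 x
          have d5 := a2 x
          have c2' : ρ x ≤ t := c2
          have c3' : t ≤ min (σ x) (max (ρ x) (r + 2 * η - l * ‖x - y‖)) := c3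
          rw [Metric.mem_ball, Prod.dist_eq, max_lt_iff]
          refine ⟨?_, ?_⟩
          · show dist x y < δ
            rw [dist_eq_norm]
            exact d1
          · show dist t r < δ
            rw [Real.dist_eq, abs_lt]
            constructor <;> linarith
      obtain ⟨ρ', e1, e2, e3, e4, e5⟩ := ih (fun z hz => hLK z (Finset.mem_insert_of_mem hz)) _ hρ₁
        (fun x => (h1 x).trans (a1 x)) a2
      refine ⟨ρ', e1, fun x => (a1 x).trans (e2 x), e3, hCong.trans e4, ?_⟩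
      intro z hz x
      rcases Finset.mem_insert.1 hz with hz | hz
      · rw [hz]
        refine le_trans ?_ (e2 x)
        exact le_min (min_le_left _ _) ((min_le_right _ _).trans (le_max_right _ _))
      · exact e5 z hz x
  obtain ⟨t, htK, htf, htc⟩ := hK.finite_cover_balls (show 0 < η / l by positivity)
  obtain ⟨ρ', e1, e2, e3, e4, e5⟩ := key htf.toFinset
    (fun y hy => htK (htf.mem_toFinset.1 hy)) τ hτ (fun _ => le_rfl) hle
  refine e4.trans (Cong.of_eq hA e1 ?_)
  rintro ⟨x, s⟩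
  have heq : ρ' x = σ x ∨ ∀ t, h (x, t) = (x, t) := by
    by_cases hx : x ∈ K
    · left
      obtain ⟨y, hy, hxy⟩ := Set.mem_iUnion₂.1 (htc hx)
      have f1 := e5 y (htf.mem_toFinset.2 hy) x
      have f2 : l * ‖x - y‖ < η := by
        rw [Metric.mem_ball, dist_eq_norm, lt_div_iff₀ hl] at hxy
        linarith
      have f3 := (abs_le.1 (hσr x)).2
      rw [min_eq_left (by linarith)] at f1
      exact le_antisymm (e3 x) f1
    · rcases hoff x hx with g | g
      · left
        refine le_antisymm (e3 x) ?_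
        rw [← g]
        exact e2 x
      · exact Or.inr g
  rcases heq with g | g
  · show ((h (x, min s (ρ' x))).1, s) = ((h (x, min s (σ x))).1, s)
    rw [g]
  · show ((h (x, min s (ρ' x))).1, s) = ((h (x, min s (σ x))).1, s)
    rw [g, g]

end PLH
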