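import Pool.Agent.Lib.MP_6a1069_gt.PP.L09

/-!
L12: at the level of a vertex `w ∈ S` the coordinates of the vertices above control `1 - φ w`.

Proof.  `r = (p w).2`.  All `v < N`, `v ≠ w`, have `(p v).2 ≠ r` (`gen`).  Let `δ₁ > 0`, `δ₂` be such
that `δ₁ ≤ |(p v).2 - r| ≤ δ₂` for all these `v` (finitely many; if there are none take `1`).  For
`z = (x, r) ∈ D`: the second coordinate of `bary` is `∑ φ v z * (p v).2 = r`, so with `sum_one`
`∑ φ v z * ((p v).2 - r) = 0`: `∑_{above} φ v z * ((p v).2 - r) = ∑_{below} φ v z * (r - (p v).2)`.  So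
`δ₁ * ∑_{below} φ ≤ δ₂ * ∑_{above} φ` and the same with above and below exchanged; and
`1 - φ w z = ∑_{v ≠ w} φ v z = ∑_{above} φ + ∑_{below} φ`.  `C = 1 + δ₂ / δ₁`.
-/

namespace PLH

variable {B : Type*} [NormedAddCommGroup B] [NormedSpace ℝ B] {h : Equiv.Perm (B × ℝ)}
  {D : Set (B × ℝ)} {N : ℕ} {p q : ℕ → B × ℝ} {φ : ℕ → B × ℝ → ℝ} {S : Set ℕ}

theorem updown (H : Tri h D N p q φ S) {w : ℕ} (hw : w < N) (hwS : w ∈ S) :
    ∃ C > 0, ∀ x : B, (x, (p w).2) ∈ D →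
      1 - φ w (x, (p w).2) ≤ C * ∑ v ∈ (Finset.range N).filter (fun v => (p w).2 < (p v).2),
        φ v (x, (p w).2) ∧
      1 - φ w (x, (p w).2) ≤ C * ∑ v ∈ (Finset.range N).filter (fun v => (p v).2 < (p w).2),
        φ v (x, (p w).2) := by
  classical
  set r : ℝ := (p w).2 with hr
  have hne : ∀ v ∈ Finset.range N, v ≠ w → (p v).2 - r ≠ 0 := fun v hv hvw =>
    sub_ne_zero.2 (H.gen v (Finset.mem_range.1 hv) w hw hwS hvw)
  obtain ⟨δ₁, hδ₁, hδ₁'⟩ : ∃ δ > 0, ∀ v ∈ Finset.range N, v ≠ w → δ ≤ |(p v).2 - r| := by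
    rcases ((Finset.range N).filter (fun v => v ≠ w)).eq_empty_or_nonempty with h0 | h0
    · refine ⟨1, one_pos, fun v hv hvw => ?_⟩
      have : v ∈ (Finset.range N).filter (fun v => v ≠ w) := Finset.mem_filter.2 ⟨hv, hvw⟩
      rw [h0] at this
      exact absurd this (Finset.notMem_empty v)
    · obtain ⟨v₀, hv₀, hmin⟩ := Finset.exists_min_image _ (fun v => |(p v).2 - r|) h0
      obtain ⟨hv1, hv2⟩ := Finset.mem_filter.1 hv₀
      exact ⟨|(p v₀).2 - r|, abs_pos.2 (hne v₀ hv1 hv2),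
        fun v hv hvw => hmin v (Finset.mem_filter.2 ⟨hv, hvw⟩)⟩
  set δ₂ : ℝ := ∑ v ∈ Finset.range N, |(p v).2 - r| with hδ₂
  have hδ₂' : ∀ v ∈ Finset.range N, |(p v).2 - r| ≤ δ₂ := fun v hv =>
    Finset.single_le_sum (f := fun v => |(p v).2 - r|) (fun _ _ => abs_nonneg _) hv
  have hδ₂0 : 0 ≤ δ₂ := Finset.sum_nonneg fun _ _ => abs_nonneg _
  refine ⟨1 + δ₂ / δ₁, by positivity, fun x hx => ?_⟩
  set z : B × ℝ := (x, r) with hz
  set U := (Finset.range N).filter (fun v => r < (p v).2) with hU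
  set L := (Finset.range N).filter (fun v => (p v).2 < r) with hL
  have hsplit : ∀ g : ℕ → ℝ, ∑ v ∈ Finset.range N, g v = ∑ v ∈ U, g v + ∑ v ∈ L, g v + g w := by
    intro g
    have h1 : g w = ∑ v ∈ Finset.range N, if v = w then g v else 0 := by
      rw [Finset.sum_ite_eq' , if_pos (Finset.mem_range.2 hw)]
    rw [h1, hU, hL, Finset.sum_filter, Finset.sum_filter, ← Finset.sum_add_distrib,
      ← Finset.sum_add_distrib]
    refine Finset.sum_congr rfl fun v hv => ?_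
    by_cases hvw : v = w
    · subst hvw
      simp [hr]
    · have h2 := hne v hv hvw
      rcases lt_or_gt_of_ne (sub_ne_zero.1 h2) with h3 | h3
      · simp [hvw, h3, not_lt.2 h3.le]
      · simp [hvw, h3, not_lt.2 h3.le]
  have hs1 : ∑ v ∈ Finset.range N, φ v z = 1 := H.ht.sum_one z hx
  have hs2 : ∑ v ∈ Finset.range N, φ v z * (p v).2 = r := by
    have h1 := congrArg Prod.snd (H.ht.bary z hx)
    rw [Prod.snd_sum] at h1
    simpa [hz, smul_eq_mul] using h1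
  have hs3 : ∑ v ∈ Finset.range N, φ v z * ((p v).2 - r) = 0 := by
    simp_rw [mul_sub]
    rw [Finset.sum_sub_distrib, hs2, ← Finset.sum_mul, hs1, one_mul, sub_self]
  have hp1 := hsplit (fun v => φ v z)
  have hp3 := hsplit (fun v => φ v z * ((p v).2 - r))
  have hw0 : φ w z * ((p w).2 - r) = 0 := by rw [hr, sub_self, mul_zero]
  rw [hs1] at hp1
  rw [hs3] at hp3
  simp only [hw0, add_zero] at hp3
  have hUr : ∀ v ∈ U, v ∈ Finset.range N ∧ r < (p v).2 := fun v hv => Finset.mem_filter.1 hv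
  have hLr : ∀ v ∈ L, v ∈ Finset.range N ∧ (p v).2 < r := fun v hv => Finset.mem_filter.1 hv
  have nn : ∀ v ∈ Finset.range N, 0 ≤ φ v z := fun v hv =>
    H.ht.nonneg v (Finset.mem_range.1 hv) z hx
  have u1 : ∑ v ∈ U, φ v z * ((p v).2 - r) ≤ δ₂ * ∑ v ∈ U, φ v z := by
    rw [Finset.mul_sum]
    refine Finset.sum_le_sum fun v hv => ?_
    rw [mul_comm]
    exact mul_le_mul_of_nonneg_right ((le_abs_self _).trans (hδ₂' v (hUr v hv).1))
      (nn v (hUr v hv).1)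
  have u2 : δ₁ * ∑ v ∈ U, φ v z ≤ ∑ v ∈ U, φ v z * ((p v).2 - r) := by
    rw [Finset.mul_sum]
    refine Finset.sum_le_sum fun v hv => ?_
    rw [mul_comm (φ v z)]
    refine mul_le_mul_of_nonneg_right ?_ (nn v (hUr v hv).1)
    have h1 := (hUr v hv).2
    have h2 := hδ₁' v (hUr v hv).1 (by rintro rfl; exact lt_irrefl _ h1)
    rwa [abs_of_pos (sub_pos.2 h1)] at h2
  have l1 : -(∑ v ∈ L, φ v z * ((p v).2 - r)) ≤ δ₂ * ∑ v ∈ L, φ v z := by
    rw [Finset.mul_sum, ← Finset.sum_neg_distrib]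
    refine Finset.sum_le_sum fun v hv => ?_
    rw [← mul_neg, mul_comm]
    exact mul_le_mul_of_nonneg_right ((neg_le_abs _).trans (hδ₂' v (hLr v hv).1))
      (nn v (hLr v hv).1)
  have l2 : δ₁ * ∑ v ∈ L, φ v z ≤ -(∑ v ∈ L, φ v z * ((p v).2 - r)) := by
    rw [Finset.mul_sum, ← Finset.sum_neg_distrib]
    refine Finset.sum_le_sum fun v hv => ?_
    rw [← mul_neg, mul_comm (φ v z)]
    refine mul_le_mul_of_nonneg_right ?_ (nn v (hLr v hv).1)
    have h1 := (hLr v hv).2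
    have h2 := hδ₁' v (hLr v hv).1 (by rintro rfl; exact lt_irrefl _ h1)
    rwa [abs_of_neg (sub_neg.2 h1)] at h2
  have k1 : ∑ v ∈ L, φ v z ≤ δ₂ / δ₁ * ∑ v ∈ U, φ v z := by
    rw [div_mul_eq_mul_div, le_div_iff₀ hδ₁, mul_comm]
    linarith
  have k2 : ∑ v ∈ U, φ v z ≤ δ₂ / δ₁ * ∑ v ∈ L, φ v z := by
    rw [div_mul_eq_mul_div, le_div_iff₀ hδ₁, mul_comm]
    linarith
  constructor
  · rw [add_mul, one_mul]
    linarith
  · rw [add_mul, one_mul]
    linarith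

end PLH
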