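import Pool.Agent.Lib.MP_6a1069_gt.PP.L10
import Pool.Agent.Lib.MP_6a1069_gt.PP.L11
import Pool.Agent.Lib.MP_6a1069_gt.PP.L12

/-!
L14: from the hill `Tdn r e c g`, `g x = φ w (x, r)`, up to the level `r` of a vertex `w`.
Mirror image of L13: the lower vertices `a` (`(p a).2 < r`) take the place of the upper ones.


Write `g x = φ w (x, r)`.  Facts: `φ w = 0` outside `D` (`inner`), `0 ≤ g ≤ 1` (`nonneg`, `ht_le_one`),
all `φ v`, `v < N`, are Lipschitz with one constant `L ≥ 1` on `B × ℝ` (`IsPL.lipschitz`), so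
`|φ v (x, t) - φ v (x, s)| ≤ L |t - s|` and `g` is PL and `L`-Lipschitz.  `w ∈ S` is the only vertex
at the level `r` (`gen`).  Let `C` be as in `updown`, `C₁ = C * N`, so that
`1 - g x ≤ C₁ * φ a (x, r)` for the lower vertex `a` with the largest `φ a (x, r)`, if `(x, r) ∈ D`.
Choose `c > 0` with `c * L ≤ l`, `c * C₁ * L ≤ l`, `c * C₁ * L < 1 / 2`; `c₁ = c * C₁`.
For a lower vertex `a` (`a < N`, `(p a).2 < r`) let `m_a x = max 0 (min (φ a (x, r)) (g x - 1/2))`;
it is PL, `L`-Lipschitz, `0` if `g x ≤ 1/2`.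
Enumerate the lower vertices `a_1, ..., a_k`; `σ_0 = r`,
`σ_i = max (Tdn r e c g) (min σ_{i-1} (r - c₁ * m_{a_i}))`, all `TL l`, `r - e ≤ Tdn ≤ σ_i ≤ σ_{i-1} ≤ r`.
Step: if `σ_i x < σ_{i-1} x` and `σ_i x ≤ t ≤ σ_{i-1} x` then `r - c₁ * m x ≤ t ≤ r`, `m = m_{a_i}`,
`m x > 0`, `r - e ≤ t`; so `g x > 1/2`, `φ a (x, r) ≥ m x`, `φ w (x, t) ≥ 1/2 - L * e > 0` if
`L * e < 1/2`, `(x, t) ∈ D` (`inner`), and `φ a (x, t) ≥ m x - L * c₁ * m x > 0`.  So
`Reg σ_i σ_{i-1} ⊆ {x ∈ D, φ a x ≠ 0, φ w x ≠ 0}`, which is good with the constant `l₀ ≥ l`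
(`good_cover`, second part, with `(a, w)` for `(a, b)`; `Good.antitone`).  `σ_{i-1} = σ_i` outside a
bounded set, since `g = 0` outside (`D` is bounded, `φ w = 0` outside `D`).  `el_good`:
`Cong M h σ_i σ_{i-1}`.
End: `Cong M h (Tdn r e c g) σ_k` by `glc` for the compact set `K = {x | ‖x‖ ≤ R₀, g x ≤ 3/4}`, exactly
as in L13.
-/

namespace PLH

variable {n : ℕ} {h : Equiv.Perm ((Fin n → ℝ) × ℝ)} {D : Set ((Fin n → ℝ) × ℝ)} {N : ℕ}
  {p q : ℕ → (Fin n → ℝ) × ℝ} {φ : ℕ → (Fin n → ℝ) × ℝ → ℝ} {S : Set ℕ}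

private theorem L14_lip (H : Tri h D N p q φ S) :
    ∃ L : ℝ, 1 ≤ L ∧ ∀ v < N, ∀ z z', |φ v z - φ v z'| ≤ L * ‖z - z'‖ := by
  have h1 : ∀ v, ∃ C : ℝ, 0 ≤ C ∧ (v < N → ∀ z z', ‖φ v z - φ v z'‖ ≤ C * ‖z - z'‖) := by
    intro v
    by_cases hv : v < N
    · obtain ⟨C, h0, hC⟩ := (H.ht.pl v hv).lipschitz
      exact ⟨C, h0, fun _ => hC⟩
    · exact ⟨0, le_rfl, fun h => absurd h hv⟩
  choose C hC0 hC using h1
  refine ⟨1 + ∑ v ∈ Finset.range N, C v, ?_, ?_⟩
  · have := Finset.sum_nonneg fun v (_ : v ∈ Finset.range N) => hC0 v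
    linarith
  · intro v hv z z'
    have h2 := hC v hv z z'
    rw [Real.norm_eq_abs] at h2
    refine h2.trans (mul_le_mul_of_nonneg_right ?_ (norm_nonneg _))
    have h3 := Finset.single_le_sum (fun v (_ : v ∈ Finset.range N) => hC0 v)
      (Finset.mem_range.2 hv)
    linarith

/-- the bump functions -/
private noncomputable def L14_m (φ : ℕ → (Fin n → ℝ) × ℝ → ℝ) (w b : ℕ) (r : ℝ)
    (x : Fin n → ℝ) : ℝ :=
  max 0 (min (φ b (x, r)) (φ w (x, r) - 1 / 2))

private theorem L14_norm (x : Fin n → ℝ) (s t : ℝ) :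
    ‖((x, s) : (Fin n → ℝ) × ℝ) - (x, t)‖ = |s - t| := by
  rw [Prod.mk_sub_mk, sub_self, Prod.norm_mk, norm_zero, Real.norm_eq_abs,
    max_eq_right (abs_nonneg _)]

private theorem L14_norm' (x y : Fin n → ℝ) (s : ℝ) :
    ‖((x, s) : (Fin n → ℝ) × ℝ) - (y, s)‖ = ‖x - y‖ := by
  rw [Prod.mk_sub_mk, sub_self, Prod.norm_mk, norm_zero, max_eq_left (norm_nonneg _)]

/-- a triangulation has a constant `l₀` such that everything works for `l ≤ l₀` -/
theorem pin_dn (H : Tri h D N p q φ S)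
    {M : Subgroup (Equiv.Perm ((Fin n → ℝ) × ℝ))} (hM : ⁅GG (Fin n → ℝ), GG (Fin n → ℝ)⁆ ≤ M)
    (hM' : M ≤ GG (Fin n → ℝ)) :
    ∃ l₀ > 0, ∀ l, 0 < l → l ≤ l₀ → Adm (h : (Fin n → ℝ) × ℝ → (Fin n → ℝ) × ℝ) l →
      ∀ w < N, w ∈ S → ∃ c > 0, ∃ e₀ > 0, ∀ e, 0 < e → e ≤ e₀ →
        TL l (Tdn (p w).2 e c (fun x => φ w (x, (p w).2))) ∧
        Cong M (h : (Fin n → ℝ) × ℝ → (Fin n → ℝ) × ℝ) (Tdn (p w).2 e c (fun x => φ w (x, (p w).2)))
          (fun _ => (p w).2) := by
  classical
  obtain ⟨l₀, hl₀, hcov, hgd⟩ := good_cover H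
  refine ⟨l₀, hl₀, fun l hl hll hA w hw hwS => ?_⟩
  obtain ⟨L, hL1, hL⟩ := L14_lip H
  obtain ⟨C, hC, hud⟩ := updown H hw hwS
  obtain ⟨R₀, hR₀⟩ := H.bdd.exists_norm_le
  set r := (p w).2 with hr
  set g : (Fin n → ℝ) → ℝ := fun x => φ w (x, r) with hg
  -- basic facts
  have hL0 : 0 < L := by linarith
  have gout : ∀ z, z ∉ D → φ w z = 0 := H.inner w hw hwS
  have gD : ∀ z, φ w z ≠ 0 → z ∈ D := fun z hz => by
    by_contra hcon
    exact hz (gout z hcon)
  have g0 : ∀ x, 0 ≤ g x := fun x => by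
    by_cases hx : (x, r) ∈ D
    · exact H.ht.nonneg w hw _ hx
    · exact (gout _ hx).ge
  have g1 : ∀ x, g x ≤ 1 := fun x => by
    by_cases hx : (x, r) ∈ D
    · exact ht_le_one H.ht hx hw
    · rw [hg]
      simp only
      rw [gout _ hx]
      norm_num
  have hfar : ∀ (x : Fin n → ℝ) (t : ℝ), R₀ < ‖x‖ → (x, t) ∉ D := by
    intro x t hx hcon
    have h1 := hR₀ _ hcon
    have h2 : ‖x‖ ≤ ‖((x, t) : (Fin n → ℝ) × ℝ)‖ := norm_fst_le (x, t)
    linarith
  have gfar : ∀ x, R₀ < ‖x‖ → g x = 0 := fun x hx => gout _ (hfar x r hx)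
  have gpl : IsPL g := (H.ht.pl w hw).comp (IsPL.id.prodMk (IsPL.const r))
  have glip : ∀ x y, |g x - g y| ≤ L * ‖x - y‖ := fun x y => by
    have := hL w hw (x, r) (y, r)
    rwa [L14_norm'] at this
  -- constants
  set C₁ := C * (N + 1) with hC₁
  have hC₁0 : 0 < C₁ := by positivity
  set c := min l (1 / 4) / (L * (1 + C₁)) with hc
  have hden : 0 < L * (1 + C₁) := by positivity
  have hmin0 : 0 < min l (1 / 4) := lt_min hl (by norm_num)
  have hc0 : 0 < c := div_pos hmin0 hden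
  have hcc : c * (L * (1 + C₁)) = min l (1 / 4) := div_mul_cancel₀ _ hden.ne'
  have hcL : c * L ≤ l := by
    have h1 : 0 ≤ c * (L * C₁) := by positivity
    have h2 : c * (L * (1 + C₁)) = c * L + c * (L * C₁) := by ring
    linarith [min_le_left l (1 / 4)]
  set c₁ := c * C₁ with hc₁
  have hc₁0 : 0 < c₁ := by positivity
  have hc₁l : c₁ * L ≤ l := by
    have h1 : 0 ≤ c * L := by positivity
    have h2 : c * (L * (1 + C₁)) = c * L + c₁ * L := by rw [hc₁]; ring
    linarith [min_le_left l (1 / 4)]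
  have hc₁4 : c₁ * L ≤ 1 / 4 := by
    have h1 : 0 ≤ c * L := by positivity
    have h2 : c * (L * (1 + C₁)) = c * L + c₁ * L := by rw [hc₁]; ring
    linarith [min_le_right l (1 / 4)]
  -- the compact set
  set K : Set (Fin n → ℝ) := {x | ‖x‖ ≤ R₀ ∧ g x ≤ 3 / 4} with hK
  have hKc : IsCompact K := by
    have h1 : K = Metric.closedBall 0 R₀ ∩ {x | g x ≤ 3 / 4} := by
      ext x
      simp [hK]
    rw [h1]
    exact (isCompact_closedBall _ _).inter_right (isClosed_le gpl.continuous continuous_const)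
  have hKg : ∀ x ∈ K, ∃ W : Set ((Fin n → ℝ) × ℝ), IsOpen W ∧ (x, r) ∈ W ∧
      Good (h : (Fin n → ℝ) × ℝ → (Fin n → ℝ) × ℝ) l W := by
    intro x hx
    obtain ⟨W, hW, hxW, hWg⟩ := hcov (x, r) (by
      intro v hv hvS hcon
      by_cases hvw : v = w
      · subst hvw
        have h1 : g x = 1 := by
          rw [hg]
          simp only
          rw [hcon]
          exact H.live v hv hvS
        have h2 := hx.2
        rw [h1] at h2
        norm_num at h2
      · have h1 := H.gen v hv w hw hwS hvw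
        apply h1
        rw [← hcon])
    exact ⟨W, hW, hxW, Good.antitone hll hWg⟩
  obtain ⟨η, hη, hglc⟩ := glc hl hA hM hM' r K hKc hKg
  refine ⟨c, hc0, min η (1 / (2 * L)), lt_min hη (by positivity), fun e he hee => ?_⟩
  have heη : e ≤ η := hee.trans (min_le_left _ _)
  have heL : L * e ≤ 1 / 2 := by
    have h1 : e ≤ 1 / (2 * L) := hee.trans (min_le_right _ _)
    rw [le_div_iff₀ (by positivity)] at h1
    linarith
  set T : (Fin n → ℝ) → ℝ := Tdn r e c g with hT
  have Tx : ∀ x, T x = r - min e (c * (1 - g x)) := fun x => rfl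
  have Tr : ∀ x, T x ≤ r := fun x => by
    rw [Tx]
    have h1 : 0 ≤ c * (1 - g x) := mul_nonneg hc0.le (by linarith [g1 x])
    linarith [le_min he.le h1]
  have Te : ∀ x, r - e ≤ T x := fun x => by
    rw [Tx]
    linarith [min_le_left e (c * (1 - g x))]
  have Tc : ∀ x, r - c * (1 - g x) ≤ T x := fun x => by
    rw [Tx]
    linarith [min_le_right e (c * (1 - g x))]
  have TTL : TL l T := by
    refine ⟨(IsPL.const r).sub ((IsPL.const e).min (((IsPL.const 1).sub gpl).const_mul c)), ?_⟩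
    intro x y
    rw [Tx, Tx, sub_sub_sub_cancel_left, abs_sub_comm]
    refine (abs_min_sub_min_le_max _ _ _ _).trans ?_
    rw [sub_self, abs_zero]
    apply max_le
    · positivity
    · have h1 : c * (1 - g x) - c * (1 - g y) = -(c * (g x - g y)) := by ring
      rw [h1, abs_neg, abs_mul, abs_of_pos hc0]
      calc c * |g x - g y| ≤ c * (L * ‖x - y‖) := mul_le_mul_of_nonneg_left (glip x y) hc0.le
        _ = c * L * ‖x - y‖ := by ring
        _ ≤ l * ‖x - y‖ := mul_le_mul_of_nonneg_right hcL (norm_nonneg _)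
  -- the bump functions
  have mTL : ∀ b < N, TL l (fun x => r - c₁ * L14_m φ w b r x) := by
    intro b hb
    have bpl : IsPL (fun x : Fin n → ℝ => φ b (x, r)) :=
      (H.ht.pl b hb).comp (IsPL.id.prodMk (IsPL.const r))
    refine ⟨(IsPL.const r).sub (((IsPL.const 0).max
      (bpl.min (gpl.sub (IsPL.const (1 / 2))))).const_mul c₁), ?_⟩
    intro x y
    rw [sub_sub_sub_cancel_left, abs_sub_comm, ← mul_sub, abs_mul, abs_of_pos hc₁0]
    have hb1 : |φ b (x, r) - φ b (y, r)| ≤ L * ‖x - y‖ := by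
      have := hL b hb (x, r) (y, r)
      rwa [L14_norm'] at this
    have h0 : 0 ≤ L * ‖x - y‖ := by positivity
    have h1 : |L14_m φ w b r x - L14_m φ w b r y| ≤ L * ‖x - y‖ := by
      unfold L14_m
      refine (abs_max_sub_max_le_max _ _ _ _).trans (max_le ?_ ?_)
      · rw [sub_self, abs_zero]
        exact h0
      · refine (abs_min_sub_min_le_max _ _ _ _).trans (max_le hb1 ?_)
        have h2 : φ w (x, r) - 1 / 2 - (φ w (y, r) - 1 / 2) = g x - g y := by
          rw [hg]
          ring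
        rw [h2]
        exact glip x y
    calc c₁ * |L14_m φ w b r x - L14_m φ w b r y| ≤ c₁ * (L * ‖x - y‖) :=
          mul_le_mul_of_nonneg_left h1 hc₁0.le
      _ = c₁ * L * ‖x - y‖ := by ring
      _ ≤ l * ‖x - y‖ := mul_le_mul_of_nonneg_right hc₁l (norm_nonneg _)
  have mfar : ∀ b x, R₀ < ‖x‖ → L14_m φ w b r x = 0 := by
    intro b x hx
    unfold L14_m
    apply max_eq_left
    have h1 : φ w (x, r) = 0 := gfar x hx
    rw [h1]
    exact (min_le_right _ _).trans (by norm_num)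
  -- one step
  have step : ∀ b < N, (p b).2 < r → ∀ ρ : (Fin n → ℝ) → ℝ, TL l ρ → (∀ x, ρ x ≤ r) →
      (∀ x, T x ≤ ρ x) →
      Cong M (h : (Fin n → ℝ) × ℝ → (Fin n → ℝ) × ℝ)
        (fun x => max (T x) (min (ρ x) (r - c₁ * L14_m φ w b r x))) ρ := by
    intro b hb hbr ρ hρ hρr hρT
    apply el_good hl.le hA hM hM' (TTL.max (hρ.min (mTL b hb))) hρ ?_ R₀
    · intro x hx
      rw [mfar b x hx, mul_zero, sub_zero, min_eq_left (hρr x), max_eq_right (hρT x)]
    · apply Good.mono _ (Good.antitone hll (hgd b hb w hw hbr))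
      rintro ⟨x, t⟩ ⟨k1, k2, k3⟩
      simp only at k1 k2 k3
      have k4 : min (ρ x) (r - c₁ * L14_m φ w b r x) < ρ x := (le_max_right _ _).trans_lt k1
      have k5 : r - c₁ * L14_m φ w b r x < ρ x := by
        rcases min_lt_iff.1 k4 with k | k
        · exact absurd k (lt_irrefl _)
        · exact k
      have k6 : r - c₁ * L14_m φ w b r x ≤ t := by
        have := (le_max_right _ _).trans k2
        rwa [min_eq_right k5.le] at this
      have k7 : r - e ≤ t := (Te x).trans ((le_max_left _ _).trans k2)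
      have k8 : t ≤ r := k3.trans (hρr x)
      have k9 : 0 < L14_m φ w b r x := by
        have h1 : 0 < c₁ * L14_m φ w b r x := by linarith [hρr x]
        exact (mul_pos_iff_of_pos_left hc₁0).1 h1
      obtain ⟨m, hm⟩ : ∃ m, m = L14_m φ w b r x := ⟨_, rfl⟩
      rw [← hm] at k6 k9
      have k10 : m ≤ min (φ b (x, r)) (φ w (x, r) - 1 / 2) := by
        unfold L14_m at hm
        rcases max_choice 0 (min (φ b (x, r)) (φ w (x, r) - 1 / 2)) with h1 | h1
        · rw [h1] at hm
          linarith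
        · rw [hm, h1]
      have k11 : m ≤ φ b (x, r) := k10.trans (min_le_left _ _)
      have k12 : m ≤ φ w (x, r) - 1 / 2 := k10.trans (min_le_right _ _)
      have k13 : |t - r| ≤ e := by
        rw [abs_of_nonpos (by linarith)]
        linarith
      have k14 : |t - r| ≤ c₁ * m := by
        rw [abs_of_nonpos (by linarith)]
        linarith
      have k15 : 0 < φ w (x, t) := by
        have h1 := hL w hw (x, t) (x, r)
        rw [L14_norm] at h1
        have h2 := (abs_le.1 h1).1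
        have h3 : L * |t - r| ≤ L * e := mul_le_mul_of_nonneg_left k13 hL0.le
        linarith
      have k16 : 0 < φ b (x, t) := by
        have h1 := hL b hb (x, t) (x, r)
        rw [L14_norm] at h1
        have h2 := (abs_le.1 h1).1
        have h3 : L * |t - r| ≤ L * (c₁ * m) := mul_le_mul_of_nonneg_left k14 hL0.le
        have h4 : L * (c₁ * m) = c₁ * L * m := by ring
        have h5 : c₁ * L * m ≤ 1 / 4 * m := mul_le_mul_of_nonneg_right hc₁4 k9.le
        linarith
      exact ⟨gD _ k15.ne', k16.ne', k15.ne'⟩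
    · intro x
      exact max_le (hρT x) (min_le_left _ _)
  -- all steps
  have steps : ∀ Ls : List ℕ, (∀ b ∈ Ls, b < N ∧ (p b).2 < r) →
      ∀ ρ : (Fin n → ℝ) → ℝ, TL l ρ → (∀ x, ρ x ≤ r) → (∀ x, T x ≤ ρ x) →
      ∃ ρ' : (Fin n → ℝ) → ℝ, TL l ρ' ∧ (∀ x, ρ' x ≤ ρ x) ∧ (∀ x, T x ≤ ρ' x) ∧
        Cong M (h : (Fin n → ℝ) × ℝ → (Fin n → ℝ) × ℝ) ρ' ρ ∧
        ∀ b ∈ Ls, ∀ x, ρ' x ≤ max (T x) (r - c₁ * L14_m φ w b r x) := by
    intro Ls
    induction Ls with
    | nil =>
      intro _ ρ hρ _ hρT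
      exact ⟨ρ, hρ, fun x => le_rfl, hρT, Cong.refl hA hρ, by simp⟩
    | cons b Ls ih =>
      intro hLs ρ hρ hρr hρT
      obtain ⟨hb, hbr⟩ := hLs b (by simp)
      have st := step b hb hbr ρ hρ hρr hρT
      have up : ∀ x, max (T x) (min (ρ x) (r - c₁ * L14_m φ w b r x)) ≤ ρ x :=
        fun x => max_le (hρT x) (min_le_left _ _)
      obtain ⟨ρ', a1, a2, a3, a4, a5⟩ := ih (fun b' hb' => hLs b' (by simp [hb'])) _
        (TTL.max (hρ.min (mTL b hb))) (fun x => (up x).trans (hρr x)) (fun x => le_max_left _ _)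
      refine ⟨ρ', a1, fun x => (a2 x).trans (up x), a3, a4.trans st, ?_⟩
      intro b' hb' x
      rcases List.mem_cons.1 hb' with h1 | h1
      · rw [h1]
        exact (a2 x).trans (max_le_max le_rfl (min_le_right _ _))
      · exact a5 b' h1 x
  set U : Finset ℕ := (Finset.range N).filter (fun v => (p v).2 < r) with hU
  have memU : ∀ b, b ∈ U ↔ b < N ∧ (p b).2 < r := by
    intro b
    rw [hU, Finset.mem_filter, Finset.mem_range]
  obtain ⟨ρ, a1, a2, a3, a4, a5⟩ := steps U.toList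
    (fun b hb => (memU b).1 (Finset.mem_toList.1 hb)) (fun _ => r) (TL.const hl.le r)
    (fun x => le_rfl) Tr
  refine ⟨TTL, Cong.trans ?_ a4⟩
  apply hglc T ρ TTL a1 a3
  · intro x
    rw [abs_of_nonpos (by linarith [Tr x])]
    linarith [Te x]
  · intro x
    rw [abs_of_nonpos (by linarith [a2 x])]
    linarith [a3 x, Te x]
  · intro x hxK
    by_cases hx : R₀ < ‖x‖
    · exact Or.inr fun t => H.out _ (hfar x t hx)
    · left
      push Not at hx
      have hgx : 3 / 4 < g x := by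
        by_contra hcon
        push Not at hcon
        exact hxK ⟨hx, hcon⟩
      have hxD : (x, r) ∈ D := gD _ (by
        intro h1
        have h2 : g x = 0 := h1
        rw [h2] at hgx
        norm_num at hgx)
      apply le_antisymm (a3 x)
      by_contra hcon
      push Not at hcon
      have hpos : 0 < c * (1 - g x) := by
        have h1 : ρ x ≤ r := a2 x
        linarith [Tc x]
      have hm : ∀ b ∈ U, c₁ * φ b (x, r) ≤ c * (1 - g x) := by
        intro b hb
        obtain ⟨hbN, hbr⟩ := (memU b).1 hb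
        have hbw : b ≠ w := by
          rintro rfl
          exact lt_irrefl _ hbr
        have h1 := a5 b (Finset.mem_toList.2 hb) x
        have h2 : ρ x ≤ r - c₁ * L14_m φ w b r x := by
          rcases max_choice (T x) (r - c₁ * L14_m φ w b r x) with h3 | h3
          · rw [h3] at h1
            linarith
          · rwa [h3] at h1
        have h3 : φ b (x, r) + g x ≤ 1 := by
          have h4 := H.ht.sum_one _ hxD
          have h5 : ∑ v ∈ ({b, w} : Finset ℕ), φ v (x, r) ≤
              ∑ v ∈ Finset.range N, φ v (x, r) := by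
            apply Finset.sum_le_sum_of_subset_of_nonneg
            · intro v hv
              rw [Finset.mem_insert, Finset.mem_singleton] at hv
              rw [Finset.mem_range]
              rcases hv with rfl | rfl
              · exact hbN
              · exact hw
            · intro v hv _
              exact H.ht.nonneg v (Finset.mem_range.1 hv) _ hxD
          rw [Finset.sum_pair hbw, h4] at h5
          exact h5
        have h4 : 0 ≤ φ b (x, r) := H.ht.nonneg b hbN _ hxD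
        have h5 : L14_m φ w b r x = φ b (x, r) := by
          unfold L14_m
          have h6 : φ w (x, r) = g x := rfl
          rw [h6, min_eq_left (by linarith), max_eq_right h4]
        rw [h5] at h2
        linarith [Tc x]
      have hsum : c₁ * ∑ v ∈ U, φ v (x, r) ≤ N * (c * (1 - g x)) := by
        rw [Finset.mul_sum]
        calc ∑ v ∈ U, c₁ * φ v (x, r) ≤ ∑ v ∈ U, c * (1 - g x) := Finset.sum_le_sum hm
          _ = U.card * (c * (1 - g x)) := by rw [Finset.sum_const, nsmul_eq_mul]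
          _ ≤ N * (c * (1 - g x)) := by
              apply mul_le_mul_of_nonneg_right _ hpos.le
              have h1 : U.card ≤ N := by
                have := Finset.card_filter_le (Finset.range N) (fun v => (p v).2 < r)
                rwa [Finset.card_range] at this
              exact_mod_cast h1
      have hlow := (hud x hxD).2
      have h1 : c * (N + 1) * (1 - g x) ≤ c * (N + 1) * (C * ∑ v ∈ U, φ v (x, r)) :=
        mul_le_mul_of_nonneg_left hlow (by positivity)
      have h2 : c * (N + 1) * (C * ∑ v ∈ U, φ v (x, r)) = c₁ * ∑ v ∈ U, φ v (x, r) := by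
        rw [hc₁, hC₁]
        ring
      have h3 : c * (N + 1) * (1 - g x) = N * (c * (1 - g x)) + c * (1 - g x) := by ring
      linarith

end PLH
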