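import Pool.Agent.Lib.MP_6a1069_gt.PP.L09
import Pool.Agent.Lib.MP_6a1069_gt.PP.L05

/-!
L15: filling the notch, from `Tup r e c g` to the level `r + e`.

Notation: `r = (p w).2`, `a = (p w).1`, `a' = (q w).1`, `g x = φ w (x, r)`, `T = Tup r e c g`,
`E`, `F` : `h` stopped at `T` and at the constant `r + e` (`hA`); `kE x = (h (x, T x)).1`,
`kF x = (h (x, r + e)).1`: these are the tops of `E`, `F` (values for large `t`), elements of `PLc B`
(from the definition of `GG B`), with `kE x - x ∈ V`, `kF x - x ∈ V`.  Put `κ = kE⁻¹ * kF ∈ PLc B`;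
`κ x - x ∈ V` (`kE (κ x) = kF x`), so `κ ∈ VPc V`.
Let `L ≥ 1` be a Lipschitz constant of `φ w`; `e₀ > 0` such that `e₀ / c + L * e₀ < 1/2`.
`Q = {y | c * (1 - g y) < e}`; for `y ∉ Q`: `T y = r + e`, `kE y = kF y`, `κ y = y`; so `κ` maps `Q`
onto `Q`.  For `y ∈ Q` and `|t - r| ≤ e`: `φ w (y, t) ≥ g y - L * e > 0`, so `(y, t) ∈ D` (`inner`).
CLAIM: `F (x, t) = E (coneFun a κ (θ t) x, t)` with `θ t = min (max ((t - r) / e) 0) 1`.
* `t ≤ r`: `θ t = 0`, and `min t (T x) = t = min t (r + e)`.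
* `t ≥ r + e`: `θ t = 1`, `coneFun a κ 1 x = κ x`; `F (x, t) = (kF x, t)`, `E (κ x, t) = (kE (κ x), t)`
  as `T ≤ r + e ≤ t`.
* `r < t < r + e`: `ρ = θ t ∈ (0, 1)`, `t = r + ρ * e`, `y = a + ρ⁻¹ • (x - a)`, so `x = a + ρ • (y - a)`.
  (i) `y ∈ Q`: `(x, t) = p w + ρ • ((y, r + e) - p w)`, so by `tri_hom` (its hypothesis
  `ρ * (1 - φ w ..) < 1` holds as `ρ ≤ 1`, `φ w .. > 0`)
  `(h (x, t)).1 = a' + ρ • (kF y - a')`.  Let `y' = κ y ∈ Q`, `x' = a + ρ • (y' - a)` = the value of
  `coneFun`.  By `ht_hom` for `(y', r)`: `1 - g x' = ρ * (1 - g y')`, so `c * (1 - g x') < ρ * e`,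
  `T x' = r + ρ * (T y' - r) < t`, `(x', T x') = p w + ρ • ((y', T y') - p w)` and by `tri_hom`
  `(h (x', T x')).1 = a' + ρ • (kE y' - a') = a' + ρ • (kF y - a')`.  Equal.
  (ii) `y ∉ Q`: `κ y = y`, `coneFun a κ ρ x = x`; to show: `t ≤ T x`, i.e. `ρ * e ≤ c * (1 - g x)`.
  If not, `1 - g x < ρ * e / c < 1` so `g x > 0`, `(x, r) ∈ D`, and `ρ⁻¹ * (1 - g x) < e / c < 1`, so by
  `ht_hom` (factor `ρ⁻¹`) for `z = (x, r)`: `(y, r) = p w + ρ⁻¹ • ((x, r) - p w)` has
  `1 - g y = ρ⁻¹ * (1 - g x) < e / c`, that is `y ∈ Q`, a contradiction.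
`θ` is a ramp, so there is `g ∈ GG B` with `g (x, t) = (coneFun a κ (θ t) x, t)` (`exists_cone`),
`g ∈ M` by `hV`, and `F = E * g`: `Cong.mk'` with `A = 1`, `C = g`.
-/

namespace PLH

variable {B : Type*} [NormedAddCommGroup B] [NormedSpace ℝ B] [FiniteDimensional ℝ B]
  {h : Equiv.Perm (B × ℝ)} {D : Set (B × ℝ)} {N : ℕ} {p q : ℕ → B × ℝ} {φ : ℕ → B × ℝ → ℝ}
  {S : Set ℕ}

theorem cone_up (H : Tri h D N p q φ S) {M : Subgroup (Equiv.Perm (B × ℝ))}
    (hM : ⁅GG B, GG B⁆ ≤ M) (hM' : M ≤ GG B) {V : Submodule ℝ B} (hV : ConeIn M V)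
    (hp : ∀ x, (h x).1 - x.1 ∈ V) (hlev : ∀ x, (h x).2 = x.2) {l : ℝ} (hl : 0 < l)
    (hA : Adm (h : B × ℝ → B × ℝ) l) {w : ℕ} (hw : w < N) (hwS : w ∈ S) {c : ℝ} (hc : 0 < c) :
    ∃ e₀ > 0, ∀ e, 0 < e → e ≤ e₀ → TL l (Tup (p w).2 e c (fun x => φ w (x, (p w).2))) →
      Cong M (h : B × ℝ → B × ℝ) (Tup (p w).2 e c (fun x => φ w (x, (p w).2)))
        (fun _ => (p w).2 + e) := by
  obtain ⟨L, hL0, hL⟩ := (H.ht.pl w hw).lipschitz
  have hD : ∀ z, φ w z ≠ 0 → z ∈ D := by
    intro z hz
    by_contra hcon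
    exact hz (H.inner w hw hwS z hcon)
  set e₀ : ℝ := 1 / (4 * (1 / c + L)) with he₀
  have hcL : 0 < 1 / c + L := by positivity
  have he₀pos : 0 < e₀ := by positivity
  have he₀' : e₀ * (1 / c + L) = 1 / 4 := by
    rw [he₀]
    field_simp
  refine ⟨e₀, he₀pos, fun e he hee₀ hT => ?_⟩
  have hbound : e / c + L * e < 1 / 2 := by
    have h1 : e * (1 / c + L) ≤ e₀ * (1 / c + L) := mul_le_mul_of_nonneg_right hee₀ hcL.le
    have h2 : e / c + L * e = e * (1 / c + L) := by ring
    rw [h2]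
    linarith
  have hLe : 0 ≤ L * e := mul_nonneg hL0 he.le
  have hec : 0 < e / c := div_pos he hc
  set r : ℝ := (p w).2 with hr
  set a : B := (p w).1 with ha
  have hpw : p w = (a, r) := rfl
  have hqw : (q w).2 = r := H.lev w hw
  set T : B → ℝ := Tup r e c (fun x => φ w (x, r)) with hTdef
  have hTx : ∀ x, T x = r + min e (c * (1 - φ w (x, r))) := fun x => rfl
  obtain ⟨E, hE, hEx⟩ := hA T hT
  obtain ⟨F, hF, hFx⟩ := hA (fun _ => r + e) (TL.const hl.le _)
  have hEx' : ∀ x t, E (x, t) = ((h (x, min t (T x))).1, t) := fun x t => hEx (x, t)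
  have hFx' : ∀ x t, F (x, t) = ((h (x, min t (r + e))).1, t) := fun x t => hFx (x, t)
  -- basic facts on T
  have hmemQ : ∀ y, c * (1 - φ w (y, r)) < e → 1 / 2 < φ w (y, r) - L * e ∧
      T y = r + c * (1 - φ w (y, r)) := by
    intro y hy
    have h1 : 1 - φ w (y, r) < e / c := by
      rw [lt_div_iff₀ hc, mul_comm]
      exact hy
    refine ⟨by linarith, ?_⟩
    rw [hTx, min_eq_right hy.le]
  have hnear : ∀ y t, c * (1 - φ w (y, r)) < e → |t - r| ≤ e → 0 < φ w (y, t) := by
    intro y t hy ht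
    have h1 := (hmemQ y hy).1
    have h2 := hL (y, t) (y, r)
    have h3 : ‖((y, t) : B × ℝ) - (y, r)‖ ≤ e := by
      rw [Prod.norm_def]
      refine max_le ?_ ?_
      · show ‖y - y‖ ≤ e
        rw [sub_self, norm_zero]
        exact he.le
      · exact ht
    have h4 : L * ‖((y, t) : B × ℝ) - (y, r)‖ ≤ L * e := mul_le_mul_of_nonneg_left h3 hL0
    rw [Real.norm_eq_abs] at h2
    have h5 := neg_abs_le (φ w (y, t) - φ w (y, r))
    linarith
  have hle1 : ∀ z, 0 < φ w z → ∀ ρ : ℝ, 0 < ρ → ρ < 1 → ρ * (1 - φ w z) < 1 := by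
    intro z hz ρ hρ hρ1
    have h1 : ρ * (1 - φ w z) ≤ ρ * 1 := mul_le_mul_of_nonneg_left (by linarith) hρ.le
    linarith
  have hThigh : ∀ x, T x ≤ r + e := by
    intro x
    rw [hTx]
    have := min_le_left e (c * (1 - φ w (x, r)))
    linarith
  have hTr : ∀ x, r ≤ T x := by
    intro x
    rw [hTx]
    have h1 : 0 ≤ min e (c * (1 - φ w (x, r))) := by
      refine le_min he.le (mul_nonneg hc.le ?_)
      by_cases hx : (x, r) ∈ D
      · have := ht_le_one H.ht hx hw
        linarith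
      · rw [H.inner w hw hwS _ hx]
        norm_num
    linarith
  have hnotQ : ∀ y, ¬ c * (1 - φ w (y, r)) < e → T y = r + e := by
    intro y hy
    rw [hTx, min_eq_left (not_lt.1 hy)]
  -- the tops
  obtain ⟨kE, hkE, hkEx⟩ : ∃ k ∈ PLc B, ∀ x, k x = (h (x, T x)).1 := by
    obtain ⟨-, -, R, -, -, k, hk, h3⟩ := hE
    refine ⟨k, hk, fun x => ?_⟩
    have h4 := h3 x (max R (r + e)) (le_max_left _ _)
    rw [hEx', min_eq_right ((hThigh x).trans (le_max_right _ _))] at h4
    exact (congrArg Prod.fst h4).symm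
  obtain ⟨kF, hkF, hkFx⟩ : ∃ k ∈ PLc B, ∀ x, k x = (h (x, r + e)).1 := by
    obtain ⟨-, -, R, -, -, k, hk, h3⟩ := hF
    refine ⟨k, hk, fun x => ?_⟩
    have h4 := h3 x (max R (r + e)) (le_max_left _ _)
    rw [hFx', min_eq_right (le_max_right _ _)] at h4
    exact (congrArg Prod.fst h4).symm
  set κ : Equiv.Perm B := kE⁻¹ * kF with hκ
  have hkκ : ∀ x, kE (κ x) = kF x := by
    intro x
    show kE (kE⁻¹ (kF x)) = kF x
    exact kE.apply_symm_apply _
  have hκPL : κ ∈ PLc B := mul_mem (inv_mem hkE) hkF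
  have hκV : κ ∈ VPc V := by
    refine ⟨hκPL, fun x => ?_⟩
    have h1 : kF x - x ∈ V := by
      rw [hkFx]
      exact hp (x, r + e)
    have h2 : kE (κ x) - κ x ∈ V := by
      rw [hkEx]
      exact hp (κ x, T (κ x))
    have h3 := V.sub_mem h1 h2
    rw [hkκ] at h3
    have h4 : kF x - x - (kF x - κ x) = κ x - x := by abel
    rwa [h4] at h3
  have hκfix : ∀ y, ¬ c * (1 - φ w (y, r)) < e → κ y = y := by
    intro y hy
    apply kE.injective
    rw [hkκ, hkFx, hkEx, hnotQ y hy]
  have hκQ : ∀ y, c * (1 - φ w (y, r)) < e → c * (1 - φ w (κ y, r)) < e := by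
    intro y hy
    by_contra hcon
    have h1 := hκfix _ hcon
    have h2 := κ.injective h1
    rw [h2] at hcon
    exact hcon hy
  -- homogeneity of g
  have hgom : ∀ (y : B) (ρ : ℝ), c * (1 - φ w (y, r)) < e → 0 < ρ → ρ < 1 →
      φ w (a + ρ • (y - a), r) = 1 - ρ * (1 - φ w (y, r)) := by
    intro y ρ hy hρ hρ1
    have hpos : 0 < φ w (y, r) := by
      have := (hmemQ y hy).1
      linarith
    have h1 := (ht_hom H.ht (hD _ hpos.ne') hw hpos.ne' hρ (hle1 _ hpos ρ hρ hρ1)).2.1
    have h2 : p w + ρ • (((y, r) : B × ℝ) - p w) = (a + ρ • (y - a), r) := by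
      rw [hpw]
      refine Prod.ext rfl ?_
      show r + ρ • (r - r) = r
      rw [sub_self, smul_zero, add_zero]
    rwa [h2] at h1
  have hTom : ∀ (y : B) (ρ : ℝ), c * (1 - φ w (y, r)) < e → 0 < ρ → ρ < 1 →
      T (a + ρ • (y - a)) = r + ρ * (T y - r) := by
    intro y ρ hy hρ hρ1
    have h1 := hgom y ρ hy hρ hρ1
    have h2 : c * (1 - φ w (a + ρ • (y - a), r)) = ρ * (c * (1 - φ w (y, r))) := by
      rw [h1]
      ring
    have h3 : ρ * (c * (1 - φ w (y, r))) ≤ ρ * e := mul_le_mul_of_nonneg_left hy.le hρ.le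
    have h4 : ρ * e ≤ 1 * e := mul_le_mul_of_nonneg_right hρ1.le he.le
    rw [hTx, h2, min_eq_right (by linarith), (hmemQ y hy).2]
    ring
  have hhom : ∀ (y : B) (t ρ : ℝ), c * (1 - φ w (y, r)) < e → |t - r| ≤ e → 0 < ρ → ρ < 1 →
      (h (a + ρ • (y - a), r + ρ * (t - r))).1 = (q w).1 + ρ • ((h (y, t)).1 - (q w).1) := by
    intro y t ρ hy ht hρ hρ1
    have hpos := hnear y t hy ht
    have h1 := tri_hom H (hD _ hpos.ne') hw hpos.ne' hρ (hle1 _ hpos ρ hρ hρ1)
    have h2 : p w + ρ • (((y, t) : B × ℝ) - p w) = (a + ρ • (y - a), r + ρ * (t - r)) := rfl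
    rw [h2] at h1
    rw [h1]
    rfl
  -- the ramp
  set θ : ℝ → ℝ := fun t => min (max ((t - r) / e) 0) 1 with hθ
  have hr₁ : IsRamp θ := Or.inl ⟨r, e, he, fun t => rfl⟩
  obtain ⟨g, hg, hgx⟩ := exists_cone a hκPL hr₁
  have hgM : g ∈ M := hV g hg ⟨a, κ, θ, hκV, hr₁, hgx⟩
  have hcone1 : ∀ x, coneFun a κ 1 x = κ x := by
    intro x
    unfold coneFun
    rw [if_neg (by norm_num), inv_one, one_smul, one_smul, add_sub_cancel, add_sub_cancel]
  have hcone0 : ∀ x, coneFun a κ 0 x = x := by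
    intro x
    unfold coneFun
    rw [if_pos le_rfl]
  have hclaim : ∀ x t, F (x, t) = E (coneFun a κ (θ t) x, t) := by
    intro x t
    rw [hFx', hEx']
    refine Prod.ext ?_ rfl
    show (h (x, min t (r + e))).1 =
      (h (coneFun a κ (θ t) x, min t (T (coneFun a κ (θ t) x)))).1
    rcases le_or_gt t r with ht | ht
    · have h1 : θ t = 0 := by
        show min (max ((t - r) / e) 0) 1 = 0
        have h2 : (t - r) / e ≤ 0 := div_nonpos_of_nonpos_of_nonneg (by linarith) he.le
        rw [max_eq_right h2, min_eq_left zero_le_one]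
      rw [h1, hcone0, min_eq_left (ht.trans (hTr x)), min_eq_left (by linarith)]
    · rcases le_or_gt (r + e) t with hte | hte
      · have h1 : θ t = 1 := by
          show min (max ((t - r) / e) 0) 1 = 1
          have h2 : 1 ≤ (t - r) / e := by
            rw [le_div_iff₀ he]
            linarith
          exact min_eq_right (le_max_of_le_left h2)
        rw [h1, hcone1, min_eq_right hte, min_eq_right ((hThigh _).trans hte), ← hkEx, hkκ, hkFx]
      · rw [min_eq_left hte.le]
        set ρ : ℝ := (t - r) / e with hρdef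
        have hρ : 0 < ρ := div_pos (by linarith) he
        have hρ1 : ρ < 1 := by
          rw [hρdef, div_lt_one he]
          linarith
        have hθρ : θ t = ρ := by
          show min (max ((t - r) / e) 0) 1 = ρ
          rw [← hρdef, max_eq_left hρ.le, min_eq_left hρ1.le]
        have htρ : t = r + ρ * e := by
          rw [hρdef, div_mul_cancel₀ _ he.ne']
          ring
        rw [hθρ]
        set y : B := a + ρ⁻¹ • (x - a) with hy
        have hxy : x = a + ρ • (y - a) := by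
          rw [hy, add_sub_cancel_left, smul_inv_smul₀ hρ.ne', add_sub_cancel]
        have hx'' : coneFun a κ ρ x = a + ρ • (κ y - a) := by
          unfold coneFun
          rw [if_neg (not_le.2 hρ)]
        rw [hx'']
        by_cases hyQ : c * (1 - φ w (y, r)) < e
        · have hy'Q := hκQ y hyQ
          have hTy' := (hmemQ (κ y) hy'Q).2
          have hTxt : T (a + ρ • (κ y - a)) < t := by
            rw [hTom (κ y) ρ hy'Q hρ hρ1, hTy', htρ]
            have h1 : ρ * (c * (1 - φ w (κ y, r))) < ρ * e := mul_lt_mul_of_pos_left hy'Q hρ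
            linarith
          rw [min_eq_right hTxt.le]
          have e1 : (h (x, t)).1 = (q w).1 + ρ • (kF y - (q w).1) := by
            have h1 := hhom y (r + e) ρ hyQ (by rw [add_sub_cancel_left, abs_of_pos he])
              hρ hρ1
            rw [← hxy, show r + ρ * (r + e - r) = t by rw [htρ]; ring, ← hkFx] at h1
            exact h1
          have e2 : (h (a + ρ • (κ y - a), T (a + ρ • (κ y - a)))).1 =
              (q w).1 + ρ • (kE (κ y) - (q w).1) := by
            have hab : |T (κ y) - r| ≤ e := by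
              rw [abs_le]
              have h1 := hThigh (κ y)
              have h2 := hTr (κ y)
              constructor <;> linarith
            have h1 := hhom (κ y) (T (κ y)) ρ hy'Q hab hρ hρ1
            rw [hTom (κ y) ρ hy'Q hρ hρ1, h1, ← hkEx]
          rw [e1, e2, hkκ]
        · rw [hκfix y hyQ, ← hxy]
          have hTt : t ≤ T x := by
            rw [hTx, htρ]
            have h1 : ρ * e ≤ min e (c * (1 - φ w (x, r))) := by
              refine le_min ?_ ?_
              · have := mul_le_mul_of_nonneg_right hρ1.le he.le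
                linarith
              · by_contra hcon
                have hcon' := not_le.1 hcon
                apply hyQ
                have h2 : ρ⁻¹ * (c * (1 - φ w (x, r))) < ρ⁻¹ * (ρ * e) :=
                  mul_lt_mul_of_pos_left hcon' (inv_pos.2 hρ)
                rw [inv_mul_cancel_left₀ hρ.ne'] at h2
                have h3 : ρ * e < 1 * e := mul_lt_mul_of_pos_right hρ1 he
                have hxQ : c * (1 - φ w (x, r)) < e := by linarith
                have hpos : 0 < φ w (x, r) := by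
                  have := (hmemQ x hxQ).1
                  linarith
                have h4 : ρ⁻¹ * (1 - φ w (x, r)) < e / c := by
                  rw [lt_div_iff₀ hc]
                  linarith
                have h5 := (ht_hom H.ht (hD _ hpos.ne') hw hpos.ne' (inv_pos.2 hρ)
                  (by linarith)).2.1
                have h6 : p w + ρ⁻¹ • (((x, r) : B × ℝ) - p w) = (y, r) := by
                  rw [hpw]
                  refine Prod.ext rfl ?_
                  show r + ρ⁻¹ • (r - r) = r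
                  rw [sub_self, smul_zero, add_zero]
                rw [h6] at h5
                rw [h5]
                have h7 : c * (1 - (1 - ρ⁻¹ * (1 - φ w (x, r)))) =
                    ρ⁻¹ * (c * (1 - φ w (x, r))) := by ring
                rw [h7]
                exact h2
            linarith
          rw [min_eq_left hTt]
  refine Cong.mk' hM hM' hE hEx hFx (one_mem M) hgM ?_
  refine Equiv.ext fun x => ?_
  obtain ⟨x, t⟩ := x
  rw [hclaim, one_mul]
  show _ = E (g (x, t))
  rw [hgx]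

end PLH
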