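import Pool.Agent.Lib.MP_6a1069_gt.PP.L02
import Pool.Agent.Lib.MP_6a1069_gt.PP.L13
import Pool.Agent.Lib.MP_6a1069_gt.PP.L14
import Pool.Agent.Lib.MP_6a1069_gt.PP.L15
import Pool.Agent.Lib.MP_6a1069_gt.PP.L16

/-!
L17: the class of `h` stopped at the level `r` is a locally constant function of `r`.

Proof.  Let `l` be the minimum of the constants of `good_cover`, `pin_up`, `pin_dn` and of the given
`l₁` with `Adm h l₁` (`Adm.mono`).
Case 1: there is `w < N`, `w ∈ S` with `(p w).2 = r`.  `pin_up` gives `c`, `e₀`, then `cone_up` for this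
`c` gives `e₀'`; for `0 < e ≤ min e₀ e₀'`: `Cong M h r (Tup ..)`, `Cong M h (Tup ..) (r + e)`, so
`Cong M h r (r + e)`.  The same with `pin_dn`, `cone_dn`: `Cong M h (r - e) r`.
Case 2: there is none.  `glc` for `K` = the closed ball of radius `R₀`, where `h x = x` for `‖x‖ > R₀`:
every `(x, r)` is good (`good_cover`, since `(x, r) ≠ p w` for `w ∈ S`; `Good.antitone`).  For
`0 < e ≤ η`: `Cong M h r (r + e)` with `τ = r`, `σ = r + e`, and `Cong M h (r - e) r` with `τ = r - e`,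
`σ = r`.
For `r'` with `|r' - r| < ε`: `r' = r` (`Cong.refl`), `r' = r + e` or `r' = r - e` (`Cong.symm`).
-/

namespace PLH

variable {n : ℕ} {h : Equiv.Perm ((Fin n → ℝ) × ℝ)} {D : Set ((Fin n → ℝ) × ℝ)} {N : ℕ}
  {p q : ℕ → (Fin n → ℝ) × ℝ} {φ : ℕ → (Fin n → ℝ) × ℝ → ℝ} {S : Set ℕ}

theorem loc_const (H : Tri h D N p q φ S) {M : Subgroup (Equiv.Perm ((Fin n → ℝ) × ℝ))}
    (hM : ⁅GG (Fin n → ℝ), GG (Fin n → ℝ)⁆ ≤ M) (hM' : M ≤ GG (Fin n → ℝ))
    {V : Submodule ℝ (Fin n → ℝ)} (hV : ConeIn M V)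
    (hh : h ∈ PLc ((Fin n → ℝ) × ℝ)) (hp : ∀ x, (h x).1 - x.1 ∈ V) (hlev : ∀ x, (h x).2 = x.2)
    (r : ℝ) :
    ∃ ε > 0, ∀ r', |r' - r| < ε →
      Cong M (h : (Fin n → ℝ) × ℝ → (Fin n → ℝ) × ℝ) (fun _ => r) (fun _ => r') := by
  obtain ⟨l₁, hl₁, hgc, -⟩ := good_cover H
  obtain ⟨l₂, hl₂, hup⟩ := pin_up H hM hM'
  obtain ⟨l₃, hl₃, hdn⟩ := pin_dn H hM hM'
  obtain ⟨l₄, hl₄, hadm⟩ := exists_adm hh hlev
  set l : ℝ := min (min l₁ l₂) (min l₃ l₄) with hl
  have hl0 : 0 < l := lt_min (lt_min hl₁ hl₂) (lt_min hl₃ hl₄)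
  have hll₁ : l ≤ l₁ := (min_le_left _ _).trans (min_le_left _ _)
  have hll₂ : l ≤ l₂ := (min_le_left _ _).trans (min_le_right _ _)
  have hll₃ : l ≤ l₃ := (min_le_right _ _).trans (min_le_left _ _)
  have hll₄ : l ≤ l₄ := (min_le_right _ _).trans (min_le_right _ _)
  have hA : Adm (h : (Fin n → ℝ) × ℝ → (Fin n → ℝ) × ℝ) l := hadm.mono hll₄
  have key : ∃ ε > 0, ∀ e, 0 < e → e ≤ ε →
      Cong M (h : (Fin n → ℝ) × ℝ → (Fin n → ℝ) × ℝ) (fun _ => r) (fun _ => r + e) ∧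
      Cong M (h : (Fin n → ℝ) × ℝ → (Fin n → ℝ) × ℝ) (fun _ => r - e) (fun _ => r) := by
    by_cases hex : ∃ w, w < N ∧ w ∈ S ∧ (p w).2 = r
    · obtain ⟨w, hw, hwS, rfl⟩ := hex
      obtain ⟨c, hc, e₀, he₀, h1⟩ := hup l hl0 hll₂ hA w hw hwS
      obtain ⟨e₁, he₁, h2⟩ := cone_up H hM hM' hV hp hlev hl0 hA hw hwS hc
      obtain ⟨c', hc', e₂, he₂, h3⟩ := hdn l hl0 hll₃ hA w hw hwS
      obtain ⟨e₃, he₃, h4⟩ := cone_dn H hM hM' hV hp hlev hl0 hA hw hwS hc'
      refine ⟨min (min e₀ e₁) (min e₂ e₃), lt_min (lt_min he₀ he₁) (lt_min he₂ he₃),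
        fun e he hle => ⟨?_, ?_⟩⟩
      · obtain ⟨h5, h6⟩ := h1 e he (hle.trans ((min_le_left _ _).trans (min_le_left _ _)))
        exact h6.trans (h2 e he (hle.trans ((min_le_left _ _).trans (min_le_right _ _))) h5)
      · obtain ⟨h5, h6⟩ := h3 e he (hle.trans ((min_le_right _ _).trans (min_le_left _ _)))
        exact (h4 e he (hle.trans ((min_le_right _ _).trans (min_le_right _ _))) h5).trans h6
    · obtain ⟨R₀, hR₀⟩ := hh.2.2
      obtain ⟨η, hη, h1⟩ := glc hl0 hA hM hM' r (Metric.closedBall 0 R₀)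
        (isCompact_closedBall 0 R₀) (fun x _ => by
          obtain ⟨W, hW1, hW2, hW3⟩ := hgc (x, r) (fun w hw hwS he =>
            hex ⟨w, hw, hwS, (congrArg Prod.snd he).symm⟩)
          exact ⟨W, hW1, hW2, Good.antitone hll₁ hW3⟩)
      have hoff : ∀ x : Fin n → ℝ, x ∉ Metric.closedBall 0 R₀ → ∀ t : ℝ, h (x, t) = (x, t) := by
        intro x hx t
        rw [mem_closedBall_zero_iff, not_le] at hx
        exact hR₀ _ (hx.trans_le (norm_fst_le (x, t)))
      refine ⟨η, hη, fun e he hle => ⟨?_, ?_⟩⟩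
      · refine h1 _ _ (TL.const hl0.le r) (TL.const hl0.le (r + e)) (fun _ => by linarith)
          (fun _ => by rw [sub_self, abs_zero]; exact hη.le)
          (fun _ => by rw [add_sub_cancel_left, abs_of_pos he]; exact hle)
          (fun x hx => Or.inr (hoff x hx))
      · refine h1 _ _ (TL.const hl0.le (r - e)) (TL.const hl0.le r) (fun _ => by linarith)
          (fun _ => by rw [show r - e - r = -e by ring, abs_neg, abs_of_pos he]; exact hle)
          (fun _ => by rw [sub_self, abs_zero]; exact hη.le)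
          (fun x hx => Or.inr (hoff x hx))
  obtain ⟨ε, hε, hk⟩ := key
  refine ⟨ε, hε, fun r' hr' => ?_⟩
  rcases lt_trichotomy r' r with h1 | h1 | h1
  · have h2 := (hk (r - r') (by linarith)
      (by rw [abs_of_neg (by linarith)] at hr'; linarith)).2
    rw [sub_sub_cancel] at h2
    exact h2.symm
  · subst h1
    exact Cong.refl hA (TL.const hl0.le r')
  · have h2 := (hk (r' - r) (by linarith)
      (by rw [abs_of_pos (by linarith)] at hr'; linarith)).1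
    rw [add_sub_cancel] at h2
    exact h2

end PLH
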