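import Pool.Agent.Lib.MP_6a1069_gt.PP.L02
import Pool.Agent.Lib.MP_6a1069_gt.PP.L17

/-!
L18: a level preserving, `V`-preserving homeomorphism with a triangulation in general position is in
`M`.

Proof.  Let `R > 0`, `h x = x` for `R < ‖x‖`, `r₀ = -R - 1`.  The set `{r | Cong h r₀ r}` contains
`r₀` (`Cong.refl`, `exists_adm`), is open and its complement is open (`loc_const`, `Cong.symm`,
`Cong.trans`), so it is everything (`ℝ` is connected: `IsClopen.eq_univ`).  Take `r = R + 1`: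
`E * F⁻¹ ∈ M` with `E x = stopFun h r₀ x = x` (`min t r₀ ≤ -R - 1`, where `h` is the
identity: `|min t r₀| ≤ ‖(x, min t r₀)‖`) and `F x = stopFun h (R + 1) x = h x` (for `t ≤ R + 1` by
`hlev`; for `t > R + 1`: `h (x, R + 1) = (x, R + 1)` and `h (x, t) = (x, t)`).  So `E = 1`, `F = h`,
`h⁻¹ ∈ M`, `h ∈ M`.
-/

namespace PLH

variable {n : ℕ} {h : Equiv.Perm ((Fin n → ℝ) × ℝ)} {D : Set ((Fin n → ℝ) × ℝ)} {N : ℕ}
  {p q : ℕ → (Fin n → ℝ) × ℝ} {φ : ℕ → (Fin n → ℝ) × ℝ → ℝ} {S : Set ℕ}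

theorem sweep (H : Tri h D N p q φ S) {M : Subgroup (Equiv.Perm ((Fin n → ℝ) × ℝ))}
    (hM : ⁅GG (Fin n → ℝ), GG (Fin n → ℝ)⁆ ≤ M) (hM' : M ≤ GG (Fin n → ℝ))
    {V : Submodule ℝ (Fin n → ℝ)} (hV : ConeIn M V)
    (hh : h ∈ PLc ((Fin n → ℝ) × ℝ)) (hp : ∀ x, (h x).1 - x.1 ∈ V) (hlev : ∀ x, (h x).2 = x.2) :
    h ∈ M := by
  obtain ⟨l, hl, hadm⟩ := exists_adm hh hlev
  obtain ⟨R₁, hR₁⟩ := hh.2.2
  set R : ℝ := max R₁ 0 with hRdef
  have hR0 : 0 ≤ R := le_max_right _ _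
  have hR : ∀ x, R < ‖x‖ → h x = x := fun x hx => hR₁ x ((le_max_left _ _).trans_lt hx)
  set r₀ : ℝ := -R - 1 with hr₀
  set f : (Fin n → ℝ) × ℝ → (Fin n → ℝ) × ℝ := fun x => h x with hf
  set A : Set ℝ := {r | Cong M f (fun _ => r₀) (fun _ => r)} with hA
  have hloc : ∀ r, ∃ ε > 0, ∀ r', |r' - r| < ε → Cong M f (fun _ => r) (fun _ => r') :=
    fun r => loc_const H hM hM' hV hh hp hlev r
  have h0A : r₀ ∈ A := Cong.refl hadm (TL.const hl.le r₀)
  have hopen : IsOpen A := by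
    rw [Metric.isOpen_iff]
    intro r hr
    obtain ⟨ε, hε, h1⟩ := hloc r
    refine ⟨ε, hε, fun r' hr' => ?_⟩
    exact Cong.trans hr (h1 r' (by rwa [Metric.mem_ball, Real.dist_eq] at hr'))
  have hclosed : IsClosed A := by
    rw [← isOpen_compl_iff, Metric.isOpen_iff]
    intro r hr
    obtain ⟨ε, hε, h1⟩ := hloc r
    refine ⟨ε, hε, fun r' hr' hA' => hr ?_⟩
    exact Cong.trans hA' (h1 r' (by rwa [Metric.mem_ball, Real.dist_eq] at hr')).symm
  have huniv : A = Set.univ := IsClopen.eq_univ ⟨hclosed, hopen⟩ ⟨r₀, h0A⟩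
  have hmem : (R + 1) ∈ A := by rw [huniv]; trivial
  obtain ⟨E, hE, F, hF, h1, h2, h3⟩ := hmem
  have hnorm : ∀ (x : Fin n → ℝ) (t : ℝ), R < |t| → h (x, t) = (x, t) := by
    intro x t ht
    refine hR _ (ht.trans_le ?_)
    rw [← Real.norm_eq_abs]
    exact norm_snd_le (x, t)
  have hE1 : E = 1 := by
    refine Equiv.ext fun x => ?_
    rw [h1]
    have hm : R < |min x.2 r₀| := by
      have h4 : min x.2 r₀ ≤ -R - 1 := min_le_right _ _
      have h5 : min x.2 r₀ < 0 := by linarith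
      rw [abs_of_neg h5]
      linarith
    show ((h (x.1, min x.2 r₀)).1, x.2) = x
    rw [hnorm x.1 _ hm]
  have hF1 : F = h := by
    refine Equiv.ext fun x => ?_
    rw [h2]
    show ((h (x.1, min x.2 (R + 1))).1, x.2) = h x
    rcases le_or_gt x.2 (R + 1) with h4 | h4
    · rw [min_eq_left h4]
      exact Prod.ext rfl (hlev x).symm
    · rw [min_eq_right h4.le, hnorm x.1 (R + 1) (by rw [abs_of_pos (by linarith)]; linarith)]
      exact (hnorm x.1 x.2 (by rw [abs_of_pos (by linarith)]; linarith)).symm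
  rw [hE1, hF1, one_mul] at h3
  have := inv_mem h3
  rwa [inv_inv] at this

end PLH
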