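import Mathlib

/-!
L19: small perturbations make finitely many real numbers different.

Proof.  Prove by induction over finite sets `s ⊆ {w ∈ range N | w ∈ S}`: there is `ε` with
`|ε v| < δ`, `ε v = 0` for `v ∉ s`, and `a v + ε v ≠ a w + ε w` for all `w ∈ s` and all `v < N` with
`v ≠ w` and (`v ∉ S` or `v ∈ s`).  Step `insert w s`: change `ε w` to a number in `(-δ, δ)` which avoids
the finitely many values `a v + ε v - a w`, `v < N` (`Set.Infinite.exists_notMem_finite` for the
infinite set `Set.Ioo (-δ) δ`).  Take `s` everything.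
-/

namespace PLH

private theorem exists_eps_aux (N : ℕ) (a : ℕ → ℝ) (S : Set ℕ) {δ : ℝ} (hδ : 0 < δ) (n : ℕ)
    (hn : n ≤ N) : ∃ ε : ℕ → ℝ, (∀ v, |ε v| < δ) ∧ (∀ v, v ∉ S → ε v = 0) ∧
      ∀ v < N, ∀ w < n, w ∈ S → (v ∉ S ∨ v < n) → v ≠ w → a v + ε v ≠ a w + ε w := by
  induction n with
  | zero =>
    refine ⟨fun _ => 0, fun v => by rw [abs_zero]; exact hδ, fun v _ => rfl, ?_⟩
    intro v _ w hw
    exact absurd hw (Nat.not_lt_zero w)
  | succ n ih =>
    obtain ⟨ε, h1, h2, h3⟩ := ih (Nat.le_of_succ_le hn)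
    by_cases hS : n ∈ S
    · have hfin : (Set.Finite ((fun v => a v + ε v - a n) '' Set.Iio N)) :=
        (Set.finite_Iio N).image _
      have hinf : (Set.Ioo (-δ) δ).Infinite := Set.Ioo_infinite (by linarith)
      obtain ⟨e, he, he'⟩ := hinf.exists_notMem_finite hfin
      have hne : ∀ v < N, a v + ε v ≠ a n + e := by
        intro v hv h
        exact he' ⟨v, hv, by simp only; linarith⟩
      refine ⟨Function.update ε n e, fun v => ?_, fun v hv => ?_, ?_⟩
      · by_cases hv : v = n
        · rw [hv, Function.update_self, abs_lt]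
          exact he
        · rw [Function.update_of_ne hv]
          exact h1 v
      · have hvn : v ≠ n := fun h => hv (h ▸ hS)
        rw [Function.update_of_ne hvn]
        exact h2 v hv
      · intro v hv w hw hwS hvv hvw
        by_cases hwn : w = n
        · subst hwn
          rw [Function.update_of_ne hvw, Function.update_self]
          exact hne v hv
        · have hwn' : w < n := lt_of_le_of_ne (Nat.lt_succ_iff.mp hw) hwn
          by_cases hvn : v = n
          · subst hvn
            rw [Function.update_self, Function.update_of_ne hwn]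
            exact (hne w (lt_of_lt_of_le hw hn)).symm
          · rw [Function.update_of_ne hwn, Function.update_of_ne hvn]
            refine h3 v hv w hwn' hwS ?_ hvw
            rcases hvv with hvv | hvv
            · exact Or.inl hvv
            · exact Or.inr (lt_of_le_of_ne (Nat.lt_succ_iff.mp hvv) hvn)
    · refine ⟨ε, h1, h2, ?_⟩
      intro v hv w hw hwS hvv hvw
      have hwn : w ≠ n := fun h => hS (h ▸ hwS)
      have hwn' : w < n := lt_of_le_of_ne (Nat.lt_succ_iff.mp hw) hwn
      refine h3 v hv w hwn' hwS ?_ hvw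
      rcases hvv with hvv | hvv
      · exact Or.inl hvv
      · by_cases hvn : v = n
        · exact Or.inl (hvn ▸ hS)
        · exact Or.inr (lt_of_le_of_ne (Nat.lt_succ_iff.mp hvv) hvn)

theorem exists_eps (N : ℕ) (a : ℕ → ℝ) (S : Set ℕ) {δ : ℝ} (hδ : 0 < δ) :
    ∃ ε : ℕ → ℝ, (∀ v, |ε v| < δ) ∧ (∀ v, v ∉ S → ε v = 0) ∧
      ∀ v < N, ∀ w < N, w ∈ S → v ≠ w → a v + ε v ≠ a w + ε w := by
  obtain ⟨ε, h1, h2, h3⟩ := exists_eps_aux N a S hδ N le_rfl
  exact ⟨ε, h1, h2, fun v hv w hw hwS hvw => h3 v hv w hw hwS (Or.inr hv) hvw⟩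

end PLH
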