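import Pool.Agent.Lib.MP_6a1069_gt.HatAd
import Pool.Agent.Lib.MP_6a1069_gt.PP.L08

/-!
L20: adapted triangulations, with one more property.

`adapted2`: the theorem `PLH.adapted` (file `HatAd`) with the additional conclusion that `h` is the
identity outside of the cube `Qk n k`.  Copy the proof of `adapted`; the additional conclusion is
`hfixQ` in that proof (private helpers of `HatAd` are in the namespace `PLH.HatAd`, which can be opened;
the lemmas in front of `adapted` are public).

`ht_vertex`: let `z ∈ D`, `φ v z ≠ 0`.  By `ht_hom` with `w = v` and `0 < ρ < 1`: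
`φ v (p v + ρ • (z - p v)) = 1 - ρ * (1 - φ v z)`.  Let `ρ → 0` (`φ v` is continuous).

`id_star`: let `y ∈ Dk n k`, `φ v y ≠ 0`, `p v ∉ Qk n k`.  For `0 < ρ < 1` the point
`y_ρ = p v + ρ • (y - p v)` is in `Dk n k` and `h y_ρ = h (p v) + ρ • (h y - h (p v))` (coordinates of
`ht_hom`, linearity `hlin`).  `Qk n k` is closed, so for small `ρ` the point `y_ρ` is not in it, and
`h y_ρ = y_ρ`; also `h (p v) = p v`.  So `ρ • h y = ρ • y`.
-/

namespace PLH

open HatAd

theorem adapted2 {n : ℕ} {h : Equiv.Perm (Fin n → ℝ)} (hh : h ∈ PLc (Fin n → ℝ)) :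
    ∃ (k N : ℕ) (p : ℕ → Fin n → ℝ) (φ : ℕ → (Fin n → ℝ) → ℝ), IsHT (Dk n k) N p φ ∧
      (∀ x ∈ Dk n k, h x = ∑ v ∈ Finset.range N, φ v x • h (p v)) ∧
      (∀ x, x ∉ Qk n k → h x = x) := by
  obtain ⟨hpl, -, R, hR⟩ := hh
  obtain ⟨k, hk⟩ := exists_nat_gt (R + 1)
  have hfix : ∀ (y : Fin n → ℝ) (l : (Fin n → ℝ) →ᵃ[ℝ] ℝ), l ∈ L1 n k → l y ≤ 0 → h y = y := by
    intro y l hl hly
    obtain ⟨s, i, hs, rfl⟩ := mem_L1.mp hl
    rw [lc_apply] at hly
    apply hR
    have e1 : |y i| ≤ ‖y‖ := norm_le_pi_norm y i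
    have e2 : s * y i ≤ |y i| := by
      rcases hs with rfl | rfl
      · rw [one_mul]; exact le_abs_self _
      · rw [neg_one_mul]; exact neg_le_abs _
    linarith
  have hfixQ : ∀ y : Fin n → ℝ, y ∉ Qk n k → h y = y := by
    intro y hy
    by_contra hc
    apply hy
    apply mem_Qk
    intro i
    constructor
    · by_contra hcc
      push Not at hcc
      exact hc (hfix y (lc k 1 i) (mem_L1.mpr ⟨1, i, Or.inl rfl, rfl⟩) hcc.le)
    · by_contra hcc
      push Not at hcc
      exact hc (hfix y (lc k (-1) i) (mem_L1.mpr ⟨-1, i, Or.inr rfl, rfl⟩) hcc.le)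
  obtain ⟨p0, φ0, hHT0, hrat0⟩ := init_HT n k
  obtain ⟨N1, p1, φ1, hHT1, -, -, -, hgood1, -, hrat1⟩ :=
    subdivide (Dk_convex n k) (L1 n k) (convex_univ (𝕜 := ℝ) (E := Fin n → ℝ)) hHT0
  have hrat : ∀ v < N1, IsRat (p1 v) :=
    hrat1 (fun l hl x hx => rat_L1 hl x hx) hrat0
  obtain ⟨L2, hL2⟩ := exists_tests hpl
  obtain ⟨N, p, φ, hHT, hN, hpp, hpQ, hgood, hkeep, -⟩ :=
    subdivide (Dk_convex n k) L2 (Qk_convex n k) hHT1
  have hgood' : ∀ l ∈ L1 n k, GoodFor (Dk n k) N p φ Set.univ l := fun l hl =>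
    hkeep _ l (Set.subset_univ _) (hgood1 l hl)
  refine ⟨k, N, p, φ, hHT, ?_, hfixQ⟩
  · intro x hx
    have hsum := hHT.sum_one x hx
    have hbary := hHT.bary x hx
    have hval : ∀ l : (Fin n → ℝ) →ᵃ[ℝ] ℝ, l x = ∑ v ∈ Finset.range N, φ v x * l (p v) := by
      intro l
      have := aff_sum l N (fun v => φ v x) p hsum
      simp only [smul_eq_mul] at this
      rw [← this, hbary]
    by_cases hcase : ∃ l ∈ L1 n k, l x ≤ 0
    · obtain ⟨l, hl, hlx⟩ := hcase
      rw [hfix x l hl hlx]
      conv_lhs => rw [← hbary]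
      refine Finset.sum_congr rfl fun v hv => ?_
      have hv' := Finset.mem_range.mp hv
      by_cases hz : φ v x = 0
      · rw [hz, zero_smul, zero_smul]
      · rw [hfix (p v) l hl ?_]
        by_contra hc
        push Not at hc
        have hs := good_sign (hgood' l hl) hx (fun _ _ _ => Set.mem_univ _) hv' hz hc
        have e1 : φ v x * l (p v) ≤ ∑ w ∈ Finset.range N, φ w x * l (p w) := by
          refine Finset.single_le_sum (f := fun w => φ w x * l (p w)) (fun w hw => ?_) hv
          have hw' := Finset.mem_range.mp hw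
          by_cases hz' : φ w x = 0
          · simp only [hz', zero_mul]; exact le_refl _
          · exact mul_nonneg (hHT.nonneg w hw' x hx) (hs w hw' hz')
        have e2 : 0 < φ v x * l (p v) :=
          mul_pos (lt_of_le_of_ne (hHT.nonneg v hv' x hx) (Ne.symm hz)) hc
        rw [hval l] at hlx
        linarith
    · push Not at hcase
      have hQ : ∀ v < N, φ v x ≠ 0 → p v ∈ Qk n k := by
        intro v hv hvx
        have hpos : ∀ l ∈ L1 n k, 0 ≤ l (p v) := by
          intro l hl
          have h1 := hcase l hl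
          rw [hval l] at h1
          obtain ⟨w, hw, hwp⟩ := Finset.exists_lt_of_sum_lt
            (s := Finset.range N) (f := fun _ => (0 : ℝ)) (g := fun w => φ w x * l (p w))
            (by simpa using h1)
          have hw' := Finset.mem_range.mp hw
          have hwx : φ w x ≠ 0 := by
            intro hz
            rw [hz, zero_mul] at hwp
            exact lt_irrefl _ hwp
          have hlw : 0 < l (p w) := by
            by_contra hc
            push Not at hc
            have := mul_nonpos_of_nonneg_of_nonpos (hHT.nonneg w hw' x hx) hc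
            linarith
          exact good_sign (hgood' l hl) hx (fun _ _ _ => Set.mem_univ _) hw' hwx hlw v hv hvx
        exact mem_Qk fun i => ⟨hpos _ (mem_L1.mpr ⟨1, i, Or.inl rfl, rfl⟩),
          hpos _ (mem_L1.mpr ⟨-1, i, Or.inr rfl, rfl⟩)⟩
      have hxC : x ∈ cell N p (fun v => φ v x) :=
        ⟨fun v => φ v x, fun v hv => hHT.nonneg v hv x hx, fun v hv => Iff.rfl, hsum, hbary.symm⟩
      obtain ⟨a, ha⟩ := hL2 (cell N p (fun v => φ v x)) (cell_convex _ _ _) ⟨x, hxC⟩ (by
        intro l hl
        by_cases hp : ∃ w < N, φ w x ≠ 0 ∧ 0 < l (p w)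
        · obtain ⟨w, hw, hwx, hlw⟩ := hp
          have hs := good_sign (hgood l hl) hx hQ hw hwx hlw
          left
          rintro y ⟨t, ht0, htf, hts, rfl⟩
          rw [aff_sum l N t p hts]
          simp only [smul_eq_mul]
          have e1 : t w * l (p w) ≤ ∑ v ∈ Finset.range N, t v * l (p v) := by
            refine Finset.single_le_sum (f := fun v => t v * l (p v)) (fun v hv => ?_)
              (Finset.mem_range.mpr hw)
            have hv' := Finset.mem_range.mp hv
            by_cases hz' : t v = 0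
            · simp only [hz', zero_mul]; exact le_refl _
            · exact mul_nonneg (ht0 v hv') (hs v hv' ((htf v hv').mp hz'))
          have e2 : 0 < t w := lt_of_le_of_ne (ht0 w hw) (Ne.symm ((htf w hw).mpr hwx))
          have e3 := mul_pos e2 hlw
          linarith
        · push Not at hp
          by_cases hp' : ∃ w < N, φ w x ≠ 0 ∧ l (p w) < 0
          · obtain ⟨w, hw, hwx, hlw⟩ := hp'
            right; right
            rintro y ⟨t, ht0, htf, hts, rfl⟩
            rw [aff_sum l N t p hts]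
            simp only [smul_eq_mul]
            have e1 : t w * (-l (p w)) ≤ ∑ v ∈ Finset.range N, t v * (-l (p v)) := by
              refine Finset.single_le_sum (f := fun v => t v * (-l (p v))) (fun v hv => ?_)
                (Finset.mem_range.mpr hw)
              have hv' := Finset.mem_range.mp hv
              by_cases hz' : t v = 0
              · simp only [hz', zero_mul]; exact le_refl _
              · exact mul_nonneg (ht0 v hv')
                  (by have := hp v hv' ((htf v hv').mp hz'); linarith)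
            have e2 : 0 < t w := lt_of_le_of_ne (ht0 w hw) (Ne.symm ((htf w hw).mpr hwx))
            have e3 := mul_pos e2 (neg_pos.mpr hlw)
            have e4 : ∑ v ∈ Finset.range N, t v * (-l (p v)) =
                -∑ v ∈ Finset.range N, t v * l (p v) := by
              rw [← Finset.sum_neg_distrib]
              exact Finset.sum_congr rfl fun v _ => by ring
            linarith
          · push Not at hp'
            right; left
            rintro y ⟨t, ht0, htf, hts, rfl⟩
            rw [aff_sum l N t p hts]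
            simp only [smul_eq_mul]
            refine Finset.sum_eq_zero fun v hv => ?_
            have hv' := Finset.mem_range.mp hv
            by_cases hz' : t v = 0
            · rw [hz', zero_mul]
            · have hf := (htf v hv').mp hz'
              rw [le_antisymm (hp v hv' hf) (hp' v hv' hf), mul_zero])
      rw [ha x (subset_closure hxC)]
      conv_lhs => rw [← hbary]
      rw [aff_sum a N (fun v => φ v x) p hsum]
      refine Finset.sum_congr rfl fun v hv => ?_
      have hv' := Finset.mem_range.mp hv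
      by_cases hz : φ v x = 0
      · simp only [hz, zero_smul]
      · rw [ha (p v) (vertex_mem_closure (f := fun v => φ v x)
          (fun w hw => hHT.nonneg w hw x hx) hsum hv' hz)]

theorem ht_vertex {E : Type*} [NormedAddCommGroup E] [NormedSpace ℝ E] {D : Set E} {N : ℕ}
    {p : ℕ → E} {φ : ℕ → E → ℝ} (H : IsHT D N p φ) {v : ℕ} (hv : v < N) {z : E} (hz : z ∈ D)
    (hvz : φ v z ≠ 0) : φ v (p v) = 1 := by
  have hpos : 0 < φ v z := lt_of_le_of_ne (H.nonneg v hv z hz) (Ne.symm hvz)
  have hc : Continuous (φ v) := (H.pl v hv).continuous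
  have hcl : Continuous (fun ρ : ℝ => φ v (p v + ρ • (z - p v))) := by
    exact hc.comp (continuous_const.add (continuous_id.smul continuous_const))
  have h1 : Filter.Tendsto (fun ρ : ℝ => φ v (p v + ρ • (z - p v))) (nhdsWithin 0 (Set.Ioi 0))
      (nhds (φ v (p v))) := by
    have := hcl.tendsto 0
    rw [zero_smul, add_zero] at this
    exact this.mono_left nhdsWithin_le_nhds
  have h2 : Filter.Tendsto (fun ρ : ℝ => 1 - ρ * (1 - φ v z)) (nhdsWithin 0 (Set.Ioi 0))
      (nhds 1) := by
    have hc2 : Continuous (fun ρ : ℝ => 1 - ρ * (1 - φ v z)) :=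
      continuous_const.sub (continuous_id.mul continuous_const)
    have := hc2.tendsto 0
    rw [zero_mul, sub_zero] at this
    exact this.mono_left nhdsWithin_le_nhds
  have h3 : (fun ρ : ℝ => φ v (p v + ρ • (z - p v))) =ᶠ[nhdsWithin 0 (Set.Ioi 0)]
      fun ρ : ℝ => 1 - ρ * (1 - φ v z) := by
    have h4 : Set.Ioo (0 : ℝ) 1 ∈ nhdsWithin (0 : ℝ) (Set.Ioi 0) := Ioo_mem_nhdsGT one_pos
    filter_upwards [h4] with ρ hρ
    have h5 : ρ * (1 - φ v z) < 1 := by nlinarith [hρ.1, hρ.2]
    exact (ht_hom H hz hv hvz hρ.1 h5).2.1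
  exact tendsto_nhds_unique h1 (h2.congr' h3.symm)

theorem L20_Qk_closed (n k : ℕ) : IsClosed (Qk n k) := by
  have : Qk n k = ⋂ i : Fin n, {x : Fin n → ℝ | |x i| ≤ (k : ℝ) - 1} := by
    ext x
    simp [Qk]
  rw [this]
  refine isClosed_iInter fun i => ?_
  exact isClosed_le ((continuous_apply i).abs) continuous_const

theorem id_star {n k N : ℕ} {h : Equiv.Perm (Fin n → ℝ)} {p : ℕ → Fin n → ℝ}
    {φ : ℕ → (Fin n → ℝ) → ℝ} (H : IsHT (Dk n k) N p φ)
    (hlin : ∀ x ∈ Dk n k, h x = ∑ v ∈ Finset.range N, φ v x • h (p v))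
    (hout : ∀ x, x ∉ Qk n k → h x = x) {v : ℕ} (hv : v < N) (hvQ : p v ∉ Qk n k) {y : Fin n → ℝ}
    (hy : y ∈ Dk n k) (hvy : φ v y ≠ 0) : h y = y := by
  have hpos : 0 < φ v y := lt_of_le_of_ne (H.nonneg v hv y hy) (Ne.symm hvy)
  have hcl : Continuous (fun ρ : ℝ => p v + ρ • (y - p v)) :=
    continuous_const.add (continuous_id.smul continuous_const)
  have h1 : ∀ᶠ ρ : ℝ in nhdsWithin 0 (Set.Ioi 0), p v + ρ • (y - p v) ∈ (Qk n k)ᶜ := by
    have ho : IsOpen (Qk n k)ᶜ := (L20_Qk_closed n k).isOpen_compl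
    have h2 := hcl.tendsto 0
    rw [zero_smul, add_zero] at h2
    exact (h2.eventually (ho.mem_nhds hvQ)).filter_mono nhdsWithin_le_nhds
  have h4 : Set.Ioo (0 : ℝ) 1 ∈ nhdsWithin (0 : ℝ) (Set.Ioi 0) := Ioo_mem_nhdsGT one_pos
  obtain ⟨ρ, hρQ, hρ⟩ := (h1.and h4).exists
  have h5 : ρ * (1 - φ v y) < 1 := by nlinarith [hρ.1, hρ.2]
  obtain ⟨h6, h7, h8⟩ := ht_hom H hy hv hvy hρ.1 h5
  have h9 : h (p v + ρ • (y - p v)) = ρ • h y + (1 - ρ) • h (p v) := by
    rw [hlin _ h6, hlin y hy, Finset.smul_sum]
    have h10 : ∀ u ∈ Finset.range N, φ u (p v + ρ • (y - p v)) • h (p u) =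
        ρ • φ u y • h (p u) + (if u = v then (1 - ρ) • h (p v) else 0) := by
      intro u hu
      by_cases huv : u = v
      · subst huv
        rw [h7, if_pos rfl, smul_smul, ← add_smul]
        congr 1
        ring
      · rw [h8 u (Finset.mem_range.1 hu) huv, if_neg huv, add_zero, smul_smul]
    rw [Finset.sum_congr rfl h10, Finset.sum_add_distrib, Finset.sum_ite_eq',
      if_pos (Finset.mem_range.2 hv)]
  rw [hout _ hρQ, hout _ hvQ] at h9
  have h11 : ρ • (h y - y) = 0 := by
    have e1 : ρ • (y - p v) + p v = ρ • h y + (p v - ρ • p v) := by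
      rw [add_comm, h9, sub_smul, one_smul]
    rw [smul_sub] at e1 ⊢
    have e2 : ρ • h y = ρ • y := by
      have e3 : ρ • h y = (ρ • y - ρ • p v + p v) - (p v - ρ • p v) := by
        rw [e1]; abel
      rw [e3]; abel
    rw [e2, sub_self]
  rcases smul_eq_zero.1 h11 with h12 | h12
  · exact absurd h12 hρ.1.ne'
  · exact sub_eq_zero.1 h12

end PLH
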