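import Pool.Agent.Lib.MP_6a1069_gt.PP.L19
import Pool.Agent.Lib.MP_6a1069_gt.PP.L20
import Pool.Agent.Lib.MP_6a1069_gt.HatExt
import Pool.Agent.Lib.MP_6a1069_gt.Cnt

/-!
L21: general position.

Proof (compare `PLH.exists_code`, file `Cnt`).  `adapted2` gives `k`, `N`, `p`, `φ`.
`S = {v | v < N ∧ p v ∈ Qk n k ∧ φ v (p v) = 1}`.  For `v < N` with `p v ∈ Qk n k` let `ψ v` be the PL
extension of `φ v` by zero (`ext_PL`), and `ψ v = 0` for all other `v`.  `small_move` for the functions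
`ψ v` and for `ψ v ∘ h⁻¹` (both vanish outside `Dk n k`; `h⁻¹` is the identity there as
`Qk ⊆ interior Dk`, `Qk_subset`) gives `δ`, `δ'`.  Choose `δ'' > 0` with `δ'' * ‖u‖ < min δ δ'` and such
that `p v + t • u ∈ Dk n k` for `v ∈ S`, `|t| < δ''` (`p v ∈ Qk ⊆ interior Dk`, finitely many `v`).
`exists_eps` for `a v = lam (p v)`, `S`, `δ''` gives `ε`.
`A, C ∈ ⁅PLc, PLc⁆` with `C x = x + ∑ ψ v x • (ε v • u)`, `A y = y + ∑ ψ v (h⁻¹ y) • (ε v • u)`
(`small_move`); for `v ∉ S` the term is zero as `ε v = 0`.  `h' = A * h * C⁻¹`;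
`h⁻¹ * h' = (h⁻¹ * A * h) * C⁻¹ ∈ ⁅PLc, PLc⁆` (`cnt_conj_mem`).
* `h' (C y) - C y = A (h y) - C y = h y - y` (the two sums are equal).  This gives the displacement
  statement (`y = C⁻¹ x`).
* `p' v = p v + ε v • u`, `q' v = h (p v) + ε v • u`, `D = Dk n k`,
  `φ' v = ψ v ∘ C⁻¹` for `v ∈ S`, `φ' v = φ v ∘ C⁻¹` otherwise.  `C` maps `D` onto `D` (identity
  outside, bijective); for `y ∈ D`: `φ' v (C y) = φ v y`, `C y = ∑ φ v y • p' v`,
  `h' (C y) = A (h y) = ∑ φ v y • q' v`.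
* `IsHT D N p' φ'`: PL (`C⁻¹ ∈ PLc`), `p' v ∈ D` (choice of `δ''`, `H.mem`), nonneg, sum, bary, full: all
  from the same properties of `φ` at `y = C⁻¹ x`.
* `closed`, `bdd`: `Dk_closed`, `Dk_bounded`.  `lev`: `lam (h (p v)) = lam (p v)`.  `out`: outside `D`
  all maps are the identity.  `inner`: `ψ v = 0` outside `D`.
* `live`: `v ∈ S`: `C (p v) = ∑ φ w (p v) • p' w = p' v`, because `φ v (p v) = 1` and the other
  coordinates of `p v` are `0` (sum one, nonnegative); so `φ' v (p' v) = φ v (p v) = 1`.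
* `idv`: `v < N`, `v ∉ S`, `x ∈ D`, `y = C⁻¹ x`, `φ v y ≠ 0`.  Then `φ v (p v) = 1` (`ht_vertex`), so
  `p v ∉ Qk`, and `h y = y` (`id_star`); so `h' x = A (h y) = A y`, where
  `A y = y + ∑ ψ w (h⁻¹ y) • .. = C y = x`.
* `gen`: `lam (p' v) = lam (p v) + ε v` (`lam u = 1`) and `exists_eps`.
-/

namespace PLH

private theorem l21_min (N : ℕ) (f : ℕ → ℝ) (hf : ∀ v, 0 < f v) :
    ∃ m : ℝ, 0 < m ∧ ∀ v < N, m ≤ f v := by
  induction N with
  | zero => exact ⟨1, one_pos, fun v hv => absurd hv (Nat.not_lt_zero v)⟩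
  | succ N ih =>
    obtain ⟨m, hm, hm'⟩ := ih
    refine ⟨min m (f N), lt_min hm (hf N), fun v hv => ?_⟩
    rcases Nat.lt_succ_iff_lt_or_eq.1 hv with h | h
    · exact (min_le_left _ _).trans (hm' v h)
    · rw [h]
      exact min_le_right _ _

theorem exists_triL {n : ℕ} (lam : (Fin n → ℝ) →L[ℝ] ℝ) (u : Fin n → ℝ) (hu : lam u = 1)
    {h : Equiv.Perm (Fin n → ℝ)} (hh : h ∈ PLc (Fin n → ℝ)) (hlam : ∀ x, lam (h x) = lam x) :
    ∃ h' ∈ PLc (Fin n → ℝ), h⁻¹ * h' ∈ ⁅PLc (Fin n → ℝ), PLc (Fin n → ℝ)⁆ ∧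
      (∀ x, ∃ y, h' x - x = h y - y) ∧
      ∃ (D : Set (Fin n → ℝ)) (N : ℕ) (p q : ℕ → Fin n → ℝ) (φ : ℕ → (Fin n → ℝ) → ℝ) (S : Set ℕ),
        TriL lam h' D N p q φ S := by
  classical
  obtain ⟨k, N, p, φ, hT, hval, houtQ⟩ := adapted2 hh
  have hQD : Qk n k ⊆ Dk n k := (Qk_subset n k).trans interior_subset
  have hout : ∀ x, x ∉ Dk n k → h x = x := fun x hx => houtQ x fun h => hx (hQD h)
  obtain ⟨R, hR⟩ := (Dk_bounded n k).exists_norm_le
  -- the hat functions of the vertices in the cube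
  have hψ : ∀ v, ∃ ψ : (Fin n → ℝ) → ℝ, IsPL ψ ∧ (∀ x, x ∉ Dk n k → ψ x = 0) ∧
      (v < N → p v ∈ Qk n k → ∀ x ∈ Dk n k, ψ x = φ v x) := by
    intro v
    by_cases hv : v < N ∧ p v ∈ Qk n k
    · obtain ⟨ψ, h1, h2, h3⟩ := ext_PL hT hv.1 hv.2
      exact ⟨ψ, h1, h3, fun _ _ => h2⟩
    · exact ⟨fun _ => 0, IsPL.const 0, fun _ _ => rfl, fun h1 h2 => absurd ⟨h1, h2⟩ hv⟩
  choose ψ hψ1 hψ2 hψ3 using hψ
  have hnotD : ∀ x : Fin n → ℝ, R < ‖x‖ → x ∉ Dk n k := fun x hx hxD =>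
    absurd (hR x hxD) (not_le.2 hx)
  have hinv : ∀ y, y ∉ Dk n k → h⁻¹ y = y := by
    intro y hy
    rw [Equiv.Perm.inv_eq_iff_eq]
    exact (hout y hy).symm
  obtain ⟨δ, hδ, hmove⟩ := small_move (N := N) ψ (fun v _ => hψ1 v) R
    (fun v _ x hx => hψ2 v x (hnotD x hx))
  obtain ⟨δ', hδ', hmove'⟩ := small_move (N := N) (fun v y => ψ v (h⁻¹ y))
    (fun v _ => (hψ1 v).comp hh.2.1) R
    (fun v _ x hx => by
      have h1 := hnotD x hx
      show ψ v (h⁻¹ x) = 0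
      rw [hinv x h1]
      exact hψ2 v x h1)
  -- the size of the perturbation
  have hball : ∀ v, ∃ r : ℝ, 0 < r ∧ (p v ∈ Qk n k → ∀ z : Fin n → ℝ, ‖z‖ < r →
      p v + z ∈ Dk n k) := by
    intro v
    by_cases hv : p v ∈ Qk n k
    · obtain ⟨r, hr, hr'⟩ := Metric.isOpen_iff.1 isOpen_interior (p v) (Qk_subset n k hv)
      refine ⟨r, hr, fun _ z hz => interior_subset (hr' ?_)⟩
      rw [Metric.mem_ball, dist_eq_norm, add_sub_cancel_left]
      exact hz
    · exact ⟨1, one_pos, fun h1 => absurd h1 hv⟩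
  choose r hr hr' using hball
  obtain ⟨m, hm, hm'⟩ := l21_min N r hr
  have hu0 : 0 < ‖u‖ + 1 := by positivity
  set η : ℝ := min m (min δ δ') / (‖u‖ + 1) with hη
  have hmin : 0 < min m (min δ δ') := lt_min hm (lt_min hδ hδ')
  have hη0 : 0 < η := div_pos hmin hu0
  have hηu : ∀ t : ℝ, |t| < η → ‖t • u‖ < min m (min δ δ') := by
    intro t ht
    rw [norm_smul, Real.norm_eq_abs]
    have h1 : |t| * ‖u‖ ≤ η * ‖u‖ := mul_le_mul_of_nonneg_right ht.le (norm_nonneg _)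
    have h2 : η * (‖u‖ + 1) = min m (min δ δ') := by
      rw [hη]
      exact div_mul_cancel₀ _ hu0.ne'
    nlinarith
  set S : Set ℕ := {v | v < N ∧ p v ∈ Qk n k ∧ φ v (p v) = 1} with hS
  obtain ⟨ε, hε1, hε2, hε3⟩ := exists_eps N (fun v => lam (p v)) S hη0
  obtain ⟨C, hC, hCx⟩ := hmove (fun v => ε v • u) fun v _ =>
    (hηu _ (hε1 v)).trans_le ((min_le_right _ _).trans (min_le_left _ _))
  obtain ⟨A, hA, hAx⟩ := hmove' (fun v => ε v • u) fun v _ =>
    (hηu _ (hε1 v)).trans_le ((min_le_right _ _).trans (min_le_right _ _))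
  set σ : (Fin n → ℝ) → (Fin n → ℝ) := fun x => ∑ v ∈ Finset.range N, ψ v x • (ε v • u) with hσ
  have hC' : ∀ x, C x = x + σ x := hCx
  have hA' : ∀ x, A (h x) = h x + σ x := by
    intro x
    rw [hAx (h x)]
    have hxx : h⁻¹ (h x) = x := h.symm_apply_apply x
    simp only [hxx, hσ]
  have hσout : ∀ x, x ∉ Dk n k → σ x = 0 := by
    intro x hx
    rw [hσ]
    refine Finset.sum_eq_zero fun v _ => ?_
    rw [hψ2 v x hx, zero_smul]
  have hσin : ∀ x ∈ Dk n k, σ x = ∑ v ∈ Finset.range N, φ v x • (ε v • u) := by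
    intro x hx
    rw [hσ]
    refine Finset.sum_congr rfl fun v hv => ?_
    by_cases hvS : v ∈ S
    · rw [hψ3 v hvS.1 hvS.2.1 x hx]
    · rw [hε2 v hvS, zero_smul, smul_zero, smul_zero]
  have hCout : ∀ x, x ∉ Dk n k → C x = x := fun x hx => by rw [hC' x, hσout x hx, add_zero]
  have hCiout : ∀ x, x ∉ Dk n k → C⁻¹ x = x := by
    intro x hx
    rw [Equiv.Perm.inv_eq_iff_eq]
    exact (hCout x hx).symm
  have hCC : ∀ x, C (C⁻¹ x) = x := fun x => C.apply_symm_apply x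
  have hCC' : ∀ x, C⁻¹ (C x) = x := fun x => C.symm_apply_apply x
  have hCiD : ∀ x ∈ Dk n k, C⁻¹ x ∈ Dk n k := by
    intro x hx
    by_contra hc
    have h1 := hCout _ hc
    rw [hCC] at h1
    rw [← h1] at hc
    exact hc hx
  have hCD : ∀ x ∈ Dk n k, C x ∈ Dk n k := by
    intro x hx
    by_contra hc
    have h1 := hCiout _ hc
    rw [hCC'] at h1
    rw [← h1] at hc
    exact hc hx
  have hCsum : ∀ x ∈ Dk n k, C x = ∑ v ∈ Finset.range N, φ v x • (p v + ε v • u) := by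
    intro x hx
    rw [hC' x, hσin x hx]
    nth_rewrite 1 [← hT.bary x hx]
    rw [← Finset.sum_add_distrib]
    exact Finset.sum_congr rfl fun v _ => (smul_add _ _ _).symm
  have hAsum : ∀ x ∈ Dk n k, A (h x) = ∑ v ∈ Finset.range N, φ v x • (h (p v) + ε v • u) := by
    intro x hx
    rw [hA' x, hσin x hx]
    nth_rewrite 1 [hval x hx]
    rw [← Finset.sum_add_distrib]
    exact Finset.sum_congr rfl fun v _ => (smul_add _ _ _).symm
  have hh' : ∀ x, (A * h * C⁻¹) x = A (h (C⁻¹ x)) := fun x => rfl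
  have hCPL : C ∈ PLc (Fin n → ℝ) := cnt_comm_le _ hC
  -- the new hat functions
  set φ' : ℕ → (Fin n → ℝ) → ℝ := fun v x => if v ∈ S then ψ v (C⁻¹ x) else φ v (C⁻¹ x) with hφ'
  have hφ'in : ∀ v < N, ∀ x ∈ Dk n k, φ' v x = φ v (C⁻¹ x) := by
    intro v _ x hx
    rw [hφ']
    by_cases hvS : v ∈ S
    · simp only [if_pos hvS]
      exact hψ3 v hvS.1 hvS.2.1 _ (hCiD x hx)
    · simp only [if_neg hvS]
  refine ⟨A * h * C⁻¹, ?_, ?_, fun x => ⟨C⁻¹ x, ?_⟩, Dk n k, N, fun v => p v + ε v • u,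
    fun v => h (p v) + ε v • u, φ', S, ?_⟩
  · exact mul_mem (mul_mem (cnt_comm_le _ hA) hh) (inv_mem hCPL)
  · have e : h⁻¹ * (A * h * C⁻¹) = (h⁻¹ * A * h) * C⁻¹ := by group
    rw [e]
    exact mul_mem (cnt_conj_mem hh hA) (inv_mem hC)
  · rw [hh', hA']
    nth_rewrite 3 [← hCC x]
    rw [hC']
    abel
  · refine ⟨⟨?_, ?_, ?_, ?_, ?_, ?_⟩, Dk_closed n k, Dk_bounded n k, ?_, ?_, ?_, ?_, ?_, ?_, ?_⟩
    · intro v hv
      by_cases hvS : v ∈ S
      · refine IsPL.congr ((hψ1 v).comp hCPL.2.1) fun x => ?_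
        show (if v ∈ S then ψ v (C⁻¹ x) else φ v (C⁻¹ x)) = _
        rw [if_pos hvS]
      · refine IsPL.congr ((hT.pl v hv).comp hCPL.2.1) fun x => ?_
        show (if v ∈ S then ψ v (C⁻¹ x) else φ v (C⁻¹ x)) = _
        rw [if_neg hvS]
    · intro v hv
      by_cases hvS : v ∈ S
      · refine hr' v hvS.2.1 _ ((hηu _ (hε1 v)).trans_le ((min_le_left _ _).trans (hm' v hv)))
      · show p v + ε v • u ∈ Dk n k
        rw [hε2 v hvS, zero_smul, add_zero]
        exact hT.mem v hv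
    · intro v hv x hx
      rw [hφ'in v hv x hx]
      exact hT.nonneg v hv _ (hCiD x hx)
    · intro x hx
      rw [← hT.sum_one _ (hCiD x hx)]
      exact Finset.sum_congr rfl fun v hv => hφ'in v (Finset.mem_range.1 hv) x hx
    · intro x hx
      refine Eq.trans ?_ ((hCsum _ (hCiD x hx)).symm.trans (hCC x))
      refine Finset.sum_congr rfl fun v hv => ?_
      rw [hφ'in v (Finset.mem_range.1 hv) x hx]
    · intro x hx t h0 h1 hs
      obtain ⟨y, hy, hyt⟩ := hT.full _ (hCiD x hx) t h0 h1 fun v hv => by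
        rw [hs v hv, hφ'in v hv x hx]
      refine ⟨C y, hCD y hy, fun v hv => ?_⟩
      rw [hφ'in v hv _ (hCD y hy), hCC', hyt v hv]
    · intro x hx
      rw [hh', hAsum _ (hCiD x hx)]
      refine Finset.sum_congr rfl fun v hv => ?_
      rw [hφ'in v (Finset.mem_range.1 hv) x hx]
    · intro v _
      show lam (h (p v) + ε v • u) = lam (p v + ε v • u)
      rw [map_add, map_add, hlam]
    · intro x hx
      rw [hh', hCiout x hx, hA', hσout x hx, add_zero, hout x hx]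
    · intro v _ hvS x hx
      show (if v ∈ S then ψ v (C⁻¹ x) else φ v (C⁻¹ x)) = 0
      rw [if_pos hvS, hCiout x hx, hψ2 v x hx]
    · intro v hv hvS
      have hpD : p v ∈ Dk n k := hT.mem v hv
      have e1 : C (p v) = p v + ε v • u := by
        rw [hCsum _ hpD]
        have hz : ∀ w ∈ Finset.range N, w ≠ v → φ w (p v) = 0 := by
          intro w hw hwv
          have h1 := hT.sum_one _ hpD
          rw [← Finset.add_sum_erase _ _ (Finset.mem_range.2 hv), hvS.2.2] at h1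
          have h2 : ∑ x ∈ (Finset.range N).erase v, φ x (p v) = 0 := by linarith
          exact (Finset.sum_eq_zero_iff_of_nonneg fun x hx => hT.nonneg x
            (Finset.mem_range.1 (Finset.mem_of_mem_erase hx)) _ hpD).1 h2 w
            (Finset.mem_erase.2 ⟨hwv, hw⟩)
        rw [Finset.sum_eq_single v, hvS.2.2, one_smul]
        · intro w hw hwv
          rw [hz w hw hwv, zero_smul]
        · intro h1
          exact absurd (Finset.mem_range.2 hv) h1
      show φ' v (p v + ε v • u) = 1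
      rw [← e1, hφ'in v hv _ (hCD _ hpD), hCC']
      exact hvS.2.2
    · intro v hv hvS x hx hne
      rw [hφ'in v hv x hx] at hne
      have hy := hCiD x hx
      have h1 := ht_vertex hT hv hy hne
      have h2 : p v ∉ Qk n k := fun h2 => hvS ⟨hv, h2, h1⟩
      have h3 := id_star hT hval houtQ hv h2 hy hne
      rw [hh', hA', h3, ← hC', hCC]
    · intro v hv w hw hwS hvw
      show lam (p v + ε v • u) ≠ lam (p w + ε w • u)
      rw [map_add, map_add, map_smul, map_smul, hu, smul_eq_mul, smul_eq_mul, mul_one, mul_one]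
      exact hε3 v hv w hw hwS hvw

end PLH
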