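import Pool.Agent.Lib.MP_6a1069_gt.PP.Defs

/-!
L22: transport under linear isomorphisms.  `e.toEquiv.permCongr h = e ∘ h ∘ e⁻¹`.

`mem_PLc_congr`: compositions of PL maps (`IsPL.clm`); support: `e` is bounded in both directions
(`x` with `R' < ‖x‖` has `‖e.symm x‖ ≥ ‖e‖⁻¹ ‖x‖`; or use that the image of a bounded set under a
continuous linear map is bounded).
`mem_comm_congr`: `e.toEquiv.permCongr` is a group isomorphism (`Equiv.permCongrHom`) which maps
`PLc E` onto `PLc F`; `Subgroup.map_commutator`.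
`VPc_congr`: combine; `e (h x) - e x = e (h x - x)`.
-/

namespace PLH

variable {E F : Type*} [NormedAddCommGroup E] [NormedSpace ℝ E] [NormedAddCommGroup F]
  [NormedSpace ℝ F]

theorem mem_PLc_congr (e : E ≃L[ℝ] F) {h : Equiv.Perm E} (hh : h ∈ PLc E) :
    e.toEquiv.permCongr h ∈ PLc F := by
  obtain ⟨h1, h2, R, hR⟩ := hh
  have hce : IsPL (fun x : E => e x) := IsPL.clm (e : E →L[ℝ] F)
  have hcs : IsPL (fun x : F => e.symm x) := IsPL.clm (e.symm : F →L[ℝ] E)
  refine ⟨?_, ?_, ‖(e : E →L[ℝ] F)‖ * |R|, ?_⟩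
  · exact hce.comp (h1.comp hcs)
  · exact hce.comp (h2.comp hcs)
  · intro x hx
    have h3 : R < ‖e.symm x‖ := by
      by_contra hcon
      push Not at hcon
      have h4 : ‖x‖ ≤ ‖(e : E →L[ℝ] F)‖ * |R| := by
        calc ‖x‖ = ‖(e : E →L[ℝ] F) (e.symm x)‖ := by
              show ‖x‖ = ‖e (e.symm x)‖
              rw [ContinuousLinearEquiv.apply_symm_apply]
          _ ≤ ‖(e : E →L[ℝ] F)‖ * ‖e.symm x‖ := ContinuousLinearMap.le_opNorm _ _
          _ ≤ ‖(e : E →L[ℝ] F)‖ * |R| :=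
              mul_le_mul_of_nonneg_left (hcon.trans (le_abs_self R)) (norm_nonneg _)
      exact absurd hx (not_lt.2 h4)
    show e (h (e.symm x)) = x
    rw [hR _ h3, ContinuousLinearEquiv.apply_symm_apply]

theorem mem_comm_congr (e : E ≃L[ℝ] F) {h : Equiv.Perm E} (hh : h ∈ ⁅PLc E, PLc E⁆) :
    e.toEquiv.permCongr h ∈ ⁅PLc F, PLc F⁆ := by
  let f : Equiv.Perm E →* Equiv.Perm F := (Equiv.permCongrHom e.toEquiv).toMonoidHom
  have hf : ∀ g, f g = e.toEquiv.permCongr g := fun g => rfl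
  have hmap : (PLc E).map f ≤ PLc F := by
    rintro _ ⟨g, hg, rfl⟩
    rw [hf]
    exact mem_PLc_congr e hg
  have h1 : f h ∈ (⁅PLc E, PLc E⁆).map f := Subgroup.mem_map_of_mem f hh
  rw [Subgroup.map_commutator] at h1
  have h2 := Subgroup.commutator_mono hmap hmap h1
  rw [hf] at h2
  exact h2

/-- the statement `VPc V ≤ ⁅PLc, PLc⁆` is invariant under linear isomorphisms -/
theorem VPc_congr (e : E ≃L[ℝ] F) {V : Submodule ℝ E} {W : Submodule ℝ F}
    (hW : ∀ x, e x ∈ W ↔ x ∈ V) (hV : VPc V ≤ ⁅PLc E, PLc E⁆) : VPc W ≤ ⁅PLc F, PLc F⁆ := by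
  intro f hf
  have h1 : e.symm.toEquiv.permCongr f ∈ VPc V := by
    refine ⟨mem_PLc_congr e.symm hf.1, fun x => ?_⟩
    rw [← hW, map_sub]
    have h2 : e (e.symm.toEquiv.permCongr f x) = f (e x) := by
      show e (e.symm (f (e x))) = f (e x)
      rw [ContinuousLinearEquiv.apply_symm_apply]
    rw [h2]
    exact hf.2 (e x)
  have h3 := mem_comm_congr e (hV h1)
  have h4 : e.toEquiv.permCongr (e.symm.toEquiv.permCongr f) = f := by
    refine Equiv.ext fun x => ?_
    show e (e.symm (f (e (e.symm x)))) = f x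
    rw [ContinuousLinearEquiv.apply_symm_apply, ContinuousLinearEquiv.apply_symm_apply]
  rw [h4] at h3
  exact h3

end PLH
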