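import Pool.Agent.Lib.MP_6a1069_gt.PP.Defs

/-!
L23: transport of triangulations to the product.

`exists_split`: `e x = (fun i => x i.castSucc, x (Fin.last n))`, a linear equivalence between finite
dimensional spaces (`LinearEquiv.toContinuousLinearEquiv`); inverse `(x, t) ↦ Fin.snoc x t`.

`tri_of_triL`: `D' = e '' D` (closed, bounded), `p' v = e (p v)`, `q' v = e (q v)`,
`φ' v = φ v ∘ e.symm`, the same `S`.  All fields are transported directly; PL: compositions with
`e`, `e.symm` (`IsPL.clm`).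
-/

namespace PLH

theorem exists_split (n : ℕ) : ∃ e : (Fin (n + 1) → ℝ) ≃L[ℝ] (Fin n → ℝ) × ℝ,
    ∀ x, (e x).2 = x (Fin.last n) := by
  let f : (Fin (n + 1) → ℝ) ≃ₗ[ℝ] (Fin n → ℝ) × ℝ :=
    { toFun := fun x => (fun i => x i.castSucc, x (Fin.last n))
      map_add' := fun x y => rfl
      map_smul' := fun c x => rfl
      invFun := fun p => Fin.snoc p.1 p.2
      left_inv := fun x => by
        funext i
        refine Fin.lastCases ?_ (fun j => ?_) i
        · simp
        · simp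
      right_inv := fun p => by
        refine Prod.ext ?_ ?_
        · funext i
          simp
        · simp }
  exact ⟨f.toContinuousLinearEquiv, fun x => rfl⟩

theorem tri_of_triL {n : ℕ} {E : Type*} [NormedAddCommGroup E] [NormedSpace ℝ E]
    (e : E ≃L[ℝ] (Fin n → ℝ) × ℝ) {lam : E →L[ℝ] ℝ} (he : ∀ x, (e x).2 = lam x)
    {h : Equiv.Perm E} {D : Set E} {N : ℕ} {p q : ℕ → E} {φ : ℕ → E → ℝ} {S : Set ℕ}
    (H : TriL lam h D N p q φ S) :
    Tri (e.toEquiv.permCongr h) (e '' D) N (fun v => e (p v)) (fun v => e (q v))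
      (fun v x => φ v (e.symm x)) S := by
  have hcs : IsPL (fun x : (Fin n → ℝ) × ℝ => e.symm x) :=
    IsPL.clm (e.symm : (Fin n → ℝ) × ℝ →L[ℝ] E)
  have hmem : ∀ x, x ∉ e '' D → e.symm x ∉ D := by
    intro x hx hx'
    exact hx ⟨e.symm x, hx', e.apply_symm_apply x⟩
  refine ⟨⟨?_, ?_, ?_, ?_, ?_, ?_⟩, ?_, ?_, ?_, ?_, ?_, ?_, ?_, ?_, ?_⟩
  · intro v hv
    exact (H.ht.pl v hv).comp hcs
  · intro v hv
    exact ⟨p v, H.ht.mem v hv, rfl⟩
  · rintro v hv _ ⟨y, hy, rfl⟩
    show 0 ≤ φ v (e.symm (e y))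
    rw [ContinuousLinearEquiv.symm_apply_apply]
    exact H.ht.nonneg v hv y hy
  · rintro _ ⟨y, hy, rfl⟩
    show ∑ v ∈ Finset.range N, φ v (e.symm (e y)) = 1
    rw [ContinuousLinearEquiv.symm_apply_apply]
    exact H.ht.sum_one y hy
  · rintro _ ⟨y, hy, rfl⟩
    show ∑ v ∈ Finset.range N, φ v (e.symm (e y)) • e (p v) = e y
    rw [ContinuousLinearEquiv.symm_apply_apply]
    conv_rhs => rw [← H.ht.bary y hy, map_sum]
    refine Finset.sum_congr rfl fun v _ => ?_
    rw [map_smul]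
  · rintro _ ⟨y, hy, rfl⟩ t ht0 ht1 hts
    obtain ⟨z, hz, hzt⟩ := H.ht.full y hy t ht0 ht1 (fun v hv => by
      have := hts v hv
      simp only [ContinuousLinearEquiv.symm_apply_apply] at this
      exact this)
    refine ⟨e z, ⟨z, hz, rfl⟩, fun v hv => ?_⟩
    show φ v (e.symm (e z)) = t v
    rw [ContinuousLinearEquiv.symm_apply_apply]
    exact hzt v hv
  · exact e.toHomeomorph.isClosedMap _ H.closed
  · exact (e : E →L[ℝ] (Fin n → ℝ) × ℝ).lipschitz.isBounded_image H.bdd
  · rintro _ ⟨y, hy, rfl⟩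
    show e (h (e.symm (e y))) = ∑ v ∈ Finset.range N, φ v (e.symm (e y)) • e (q v)
    rw [ContinuousLinearEquiv.symm_apply_apply, H.lin y hy, map_sum]
    refine Finset.sum_congr rfl fun v _ => ?_
    rw [map_smul]
  · intro v hv
    show (e (q v)).2 = (e (p v)).2
    rw [he, he]
    exact H.lev v hv
  · intro x hx
    show e (h (e.symm x)) = x
    rw [H.out _ (hmem x hx), ContinuousLinearEquiv.apply_symm_apply]
  · intro v hv hvS x hx
    exact H.inner v hv hvS _ (hmem x hx)
  · intro v hv hvS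
    show φ v (e.symm (e (p v))) = 1
    rw [ContinuousLinearEquiv.symm_apply_apply]
    exact H.live v hv hvS
  · rintro v hv hvS _ ⟨y, hy, rfl⟩ hne
    show e (h (e.symm (e y))) = e y
    simp only [ContinuousLinearEquiv.symm_apply_apply] at hne ⊢
    rw [H.idv v hv hvS y hy hne]
  · intro v hv w hw hwS hvw
    show (e (p v)).2 ≠ (e (p w)).2
    rw [he, he]
    exact H.gen v hv w hw hwS hvw

end PLH
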