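import Pool.Agent.Lib.MP_6a1069_gt.PP.L18
import Pool.Agent.Lib.MP_6a1069_gt.PP.L04
import Pool.Agent.Lib.MP_6a1069_gt.PP.L21
import Pool.Agent.Lib.MP_6a1069_gt.PP.L22
import Pool.Agent.Lib.MP_6a1069_gt.PP.L23

/-!
L24: the main step, from dimension `n` to dimension `n + 1`.

Proof.  Let `f ∈ VPc (V.prod ⊥)`: `(f x).2 = x.2` and `(f x).1 - x.1 ∈ V`.  `e` from `exists_split`,
`lam = (snd) ∘ e`, `h = e.symm.toEquiv.permCongr f ∈ PLc (Fin (n + 1) → ℝ)` (`mem_PLc_congr`);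
`lam (h x) = lam x`; `u = e.symm (0, 1)`, `lam u = 1`.  `exists_triL` gives `h'`; let
`f' = e.toEquiv.permCongr h'`.  `f' ∈ PLc`, `f⁻¹ * f' ∈ ⁅PLc, PLc⁆` (`mem_comm_congr`, and
`e.toEquiv.permCongr h = f`), `f' x - x = e (h' y - y) = e (h z - z)` for suitable `y`, `z`, which is
`f (e z) - e z ∈ V.prod ⊥`; so `(f' x).1 - x.1 ∈ V`, `(f' x).2 = x.2`.  `tri_of_triL` and `sweep` for
`M = ⁅GG B, GG B⁆` (`coneIn_comm`, `comm_le_self`): `f' ∈ ⁅GG B, GG B⁆`, so `f' ∈ ⁅PLc, PLc⁆` by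
`cutoff_mem`.  So `f = f' * (f⁻¹ * f')⁻¹ ∈ ⁅PLc, PLc⁆`.
-/

namespace PLH

theorem main_step {n : ℕ} {V : Submodule ℝ (Fin n → ℝ)}
    (hV : VPc V ≤ ⁅PLc (Fin n → ℝ), PLc (Fin n → ℝ)⁆) :
    VPc (V.prod (⊥ : Submodule ℝ ℝ)) ≤ ⁅PLc ((Fin n → ℝ) × ℝ), PLc ((Fin n → ℝ) × ℝ)⁆ := by
  intro f hf
  obtain ⟨hf1, hf2⟩ := hf
  have hfl : ∀ x, (f x).2 = x.2 := fun x => by
    have h0 := (Submodule.mem_prod.1 (hf2 x)).2
    rw [Submodule.mem_bot] at h0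
    exact sub_eq_zero.1 h0
  have hfV : ∀ x, (f x).1 - x.1 ∈ V := fun x => (Submodule.mem_prod.1 (hf2 x)).1
  obtain ⟨e, he⟩ := exists_split n
  obtain ⟨lam, hlam⟩ : ∃ lam : (Fin (n + 1) → ℝ) →L[ℝ] ℝ, ∀ x, (e x).2 = lam x :=
    ⟨(ContinuousLinearMap.snd ℝ (Fin n → ℝ) ℝ).comp (e : (Fin (n + 1) → ℝ) →L[ℝ] _),
      fun x => rfl⟩
  obtain ⟨h, hhd⟩ : ∃ h : Equiv.Perm (Fin (n + 1) → ℝ), h = e.symm.toEquiv.permCongr f :=
    ⟨_, rfl⟩
  have hval : ∀ x, e (h x) = f (e x) := fun x => by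
    rw [hhd]
    show e (e.symm (f (e x))) = f (e x)
    rw [e.apply_symm_apply]
  have hhP : h ∈ PLc (Fin (n + 1) → ℝ) := by
    rw [hhd]
    exact mem_PLc_congr e.symm hf1
  have hhlam : ∀ x, lam (h x) = lam x := fun x => by
    rw [← hlam, ← hlam, hval, hfl]
  have hu : lam (e.symm ((0 : Fin n → ℝ), (1 : ℝ))) = 1 := by
    rw [← hlam, e.apply_symm_apply]
  obtain ⟨h', hh', hc, hd, D, N, p, q, φ, S, HT⟩ := exists_triL lam _ hu hhP hhlam
  have hT := tri_of_triL e hlam HT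
  have hfP : e.toEquiv.permCongr h' ∈ PLc ((Fin n → ℝ) × ℝ) := mem_PLc_congr e hh'
  have hfc := mem_comm_congr e hc
  have hval' : ∀ x, e.toEquiv.permCongr h' (e x) = e (h' x) := fun x => by
    show e (h' (e.symm (e x))) = e (h' x)
    rw [e.symm_apply_apply]
  have hfeq : e.toEquiv.permCongr (h⁻¹ * h') = f⁻¹ * e.toEquiv.permCongr h' := by
    have h1 : f * e.toEquiv.permCongr (h⁻¹ * h') = e.toEquiv.permCongr h' := by
      refine Equiv.ext fun x => ?_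
      show f (e (h⁻¹ (h' (e.symm x)))) = e (h' (e.symm x))
      rw [← hval]
      show e (h (h.symm (h' (e.symm x)))) = e (h' (e.symm x))
      rw [h.apply_symm_apply]
    rw [← h1, ← mul_assoc, inv_mul_cancel, one_mul]
  rw [hfeq] at hfc
  have hdisp : ∀ x, ∃ z, e.toEquiv.permCongr h' x - x = f z - z := fun x => by
    obtain ⟨y, hy⟩ := hd (e.symm x)
    refine ⟨e y, ?_⟩
    have h1 := hval' (e.symm x)
    rw [e.apply_symm_apply] at h1
    rw [h1, ← hval, ← map_sub, ← hy, map_sub, e.apply_symm_apply]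
  have hsw := sweep hT (M := ⁅GG (Fin n → ℝ), GG (Fin n → ℝ)⁆) le_rfl (comm_le_self _)
    (coneIn_comm hV) hfP
    (fun x => by
      obtain ⟨z, hz⟩ := hdisp x
      have h1 := congrArg Prod.fst hz
      have h2 : (e.toEquiv.permCongr h' x).1 - x.1 = (f z).1 - z.1 := h1
      rw [h2]
      exact hfV z)
    (fun x => by
      obtain ⟨z, hz⟩ := hdisp x
      have h1 := congrArg Prod.snd hz
      have h2 : (e.toEquiv.permCongr h' x).2 - x.2 = (f z).2 - z.2 := h1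
      rw [hfl z, sub_self] at h2
      exact sub_eq_zero.1 h2)
  have hcut := cutoff_mem hfP hsw
  have hfin : f = e.toEquiv.permCongr h' * (f⁻¹ * e.toEquiv.permCongr h')⁻¹ := by group
  rw [hfin]
  exact mul_mem hcut (inv_mem hfc)

end PLH
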