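import Pool.Agent.Lib.MP_6a1069_gt.PP.L24

/-!
L25: all dimensions.

Proof.  Induction on `n ≥ m` (`Nat.le_induction`), for all `W` with `finrank W = m`.
`n = m`: `W = ⊤` (`Submodule.eq_top_of_finrank_eq`), `VPc ⊤ ≤ PLc ≤ ⁅PLc, PLc⁆`.
`n + 1`: `finrank W = m ≤ n < n + 1`.  Choose a linear functional `lam ≠ 0` on `Fin (n + 1) → ℝ` which
vanishes on `W` (`Submodule.exists_le_ker_of_lt_top` for `W < ⊤`); its kernel `H` has dimension `n`,
`u` with `lam u = 1`.  `Fin (n + 1) → ℝ = H ⊕ ℝ u`, and `H ≃ Fin n → ℝ` by a basis; this gives a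
continuous linear isomorphism `e : (Fin n → ℝ) × ℝ ≃L (Fin (n + 1) → ℝ)`, with `e (x, t) ∈ H` iff
`t = 0`.  Let `V = {x | e (x, 0) ∈ W}` (comap), of dimension `m` as `W ≤ H`.  By the induction
hypothesis and `main_step`, `VPc (V.prod ⊥) ≤ ⁅PLc, PLc⁆`; `VPc_congr e` with
`e (x, t) ∈ W ↔ (x, t) ∈ V.prod ⊥` (if `e (x, t) ∈ W ≤ H` then `t = 0`).
-/

namespace PLH

theorem L25_split {n : ℕ} {W : Submodule ℝ (Fin (n + 1) → ℝ)} (hW : Module.finrank ℝ W < n + 1) :
    ∃ (e : ((Fin n → ℝ) × ℝ) ≃L[ℝ] (Fin (n + 1) → ℝ)) (V : Submodule ℝ (Fin n → ℝ)),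
      Module.finrank ℝ V = Module.finrank ℝ W ∧
      ∀ x, e x ∈ W ↔ x ∈ V.prod (⊥ : Submodule ℝ ℝ) := by
  have hlt : W < ⊤ := by
    refine lt_top_iff_ne_top.2 ?_
    intro h0
    rw [h0, finrank_top, Module.finrank_fin_fun] at hW
    exact lt_irrefl _ hW
  obtain ⟨lam, hlam, hWk⟩ := Submodule.exists_le_ker_of_lt_top W hlt
  obtain ⟨x0, hx0⟩ : ∃ x, lam x ≠ 0 := by
    by_contra hcon
    push Not at hcon
    exact hlam (LinearMap.ext hcon)
  set u : Fin (n + 1) → ℝ := (lam x0)⁻¹ • x0 with hu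
  have hlu : lam u = 1 := by
    rw [hu, map_smul, smul_eq_mul, inv_mul_cancel₀ hx0]
  have hsurj : Function.Surjective lam := fun t => ⟨t • u, by rw [map_smul, hlu, smul_eq_mul, mul_one]⟩
  have hfin : Module.finrank ℝ (LinearMap.ker lam) = n := by
    have h1 := LinearMap.finrank_range_add_finrank_ker lam
    rw [LinearMap.range_eq_top.2 hsurj, finrank_top, Module.finrank_self, Module.finrank_fin_fun] at h1
    omega
  let φ : (Fin n → ℝ) ≃ₗ[ℝ] LinearMap.ker lam := LinearEquiv.ofFinrankEq _ _ (by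
    rw [Module.finrank_fin_fun, hfin])
  let j : (Fin n → ℝ) →ₗ[ℝ] (Fin (n + 1) → ℝ) := (LinearMap.ker lam).subtype ∘ₗ φ.toLinearMap
  have hjapp : ∀ x, j x = (φ x : Fin (n + 1) → ℝ) := fun x => rfl
  have hjk : ∀ x, lam (j x) = 0 := fun x => (φ x).2
  have hjinj : Function.Injective j := by
    intro x y hxy
    exact φ.injective (Subtype.ext hxy)
  let L : ((Fin n → ℝ) × ℝ) →ₗ[ℝ] (Fin (n + 1) → ℝ) :=
    LinearMap.coprod j (LinearMap.toSpanSingleton ℝ _ u)
  have hL : ∀ x t, L (x, t) = j x + t • u := by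
    intro x t
    show j x + (LinearMap.toSpanSingleton ℝ _ u) t = _
    rw [LinearMap.toSpanSingleton_apply]
  have hlamL : ∀ x t, lam (L (x, t)) = t := by
    intro x t
    rw [hL, map_add, hjk, map_smul, hlu, smul_eq_mul, mul_one, zero_add]
  have hLinj : Function.Injective L := by
    rintro ⟨x, t⟩ ⟨y, s⟩ hxy
    have h1 : t = s := by rw [← hlamL x t, hxy, hlamL y s]
    subst h1
    rw [hL, hL] at hxy
    have h2 := hjinj (add_right_cancel hxy)
    rw [h2]
  have hLsurj : Function.Surjective L := by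
    intro y
    have hy : y - lam y • u ∈ LinearMap.ker lam := by
      rw [LinearMap.mem_ker, map_sub, map_smul, hlu, smul_eq_mul, mul_one, sub_self]
    refine ⟨(φ.symm ⟨y - lam y • u, hy⟩, lam y), ?_⟩
    rw [hL, hjapp, LinearEquiv.apply_symm_apply]
    show y - lam y • u + lam y • u = y
    rw [sub_add_cancel]
  let e := (LinearEquiv.ofBijective L ⟨hLinj, hLsurj⟩).toContinuousLinearEquiv
  have he : ∀ x, e x = L x := fun x => rfl
  refine ⟨e, W.comap j, ?_, ?_⟩
  · have hmap : (W.comap j).map j = W := by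
      rw [Submodule.map_comap_eq, inf_eq_right]
      intro y hy
      have hyk : y ∈ LinearMap.ker lam := hWk hy
      refine ⟨φ.symm ⟨y, hyk⟩, ?_⟩
      rw [hjapp, LinearEquiv.apply_symm_apply]
    have h1 := (Submodule.equivMapOfInjective j hjinj (W.comap j)).finrank_eq
    rw [h1, hmap]
  · rintro ⟨x, t⟩
    rw [he, Submodule.mem_prod, Submodule.mem_bot]
    show L (x, t) ∈ W ↔ j x ∈ W ∧ t = 0
    constructor
    · intro h1
      have h2 : lam (L (x, t)) = 0 := hWk h1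
      rw [hlamL] at h2
      subst h2
      rw [hL, zero_smul, add_zero] at h1
      exact ⟨h1, rfl⟩
    · rintro ⟨h1, rfl⟩
      rw [hL, zero_smul, add_zero]
      exact h1

theorem all_dims {m : ℕ} (hm : PLc (Fin m → ℝ) ≤ ⁅PLc (Fin m → ℝ), PLc (Fin m → ℝ)⁆) {n : ℕ}
    (hmn : m ≤ n) (W : Submodule ℝ (Fin n → ℝ)) (hW : Module.finrank ℝ W = m) :
    VPc W ≤ ⁅PLc (Fin n → ℝ), PLc (Fin n → ℝ)⁆ := by
  induction n, hmn using Nat.le_induction with
  | base => exact fun h hh => hm hh.1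
  | succ n hmn ih =>
    obtain ⟨e, V, hV, hVW⟩ := L25_split (n := n) (W := W) (by omega)
    exact VPc_congr e hVW (main_step (ih V (hV.trans hW)))

end PLH
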